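import Mathlib

-- part MP_057a77_an.Replica
section

/-!
Replicas of linear endomorphisms: operators acting by a scalar `f μ` on each generalized
eigenspace.
-/

namespace Pool.Agent.MP_057a77_an

open Module

variable {V : Type*} [AddCommGroup V] [Module ℂ V]

/-- `Y` acts by the scalar `f μ` on the generalized `μ`-eigenspace of `X`. -/
def IsReplica (X : End ℂ V) (f : ℂ → ℂ) (Y : End ℂ V) : Prop :=
  ∀ μ : ℂ, ∀ v ∈ X.maxGenEigenspace μ, Y v = f μ • v

lemma end_ext_of_iSup {κ : Type*} {p : κ → Submodule ℂ V} (hp : ⨆ k, p k = ⊤) {U : Type*}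
    [AddCommGroup U] [Module ℂ U] {A B : V →ₗ[ℂ] U}
    (h : ∀ k, ∀ v ∈ p k, A v = B v) : A = B := by
  ext v
  have hv : v ∈ ⨆ k, p k := hp ▸ Submodule.mem_top
  induction hv using Submodule.iSup_induction' with
  | mem k x hx => exact h k x hx
  | zero => simp
  | add x y _ _ hx hy => simp [hx, hy]

lemma mem_of_iSup {κ : Type*} {p : κ → Submodule ℂ V} {q : Submodule ℂ V} (hp : q = ⨆ k, p k)
    {U : Submodule ℂ V} {A : End ℂ V} (h : ∀ k, ∀ v ∈ p k, A v ∈ U) : ∀ v ∈ q, A v ∈ U := by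
  intro v hv
  rw [hp] at hv
  induction hv using Submodule.iSup_induction' with
  | mem k x hx => exact h k x hx
  | zero => simp
  | add x y _ _ hx hy => simpa using U.add_mem hx hy

lemma mem_maxGen_iff (X : End ℂ V) (μ : ℂ) (v : V) :
    v ∈ X.maxGenEigenspace μ ↔ ∃ k : ℕ, ((X - μ • 1) ^ k) v = 0 := by
  simp

lemma mem_maxGen_of_eigen {X : End ℂ V} {μ : ℂ} {v : V} (h : X v = μ • v) :
    v ∈ X.maxGenEigenspace μ := by
  rw [mem_maxGen_iff]
  exact ⟨1, by simp [h]⟩

lemma pow_apply_eq_zero_of_le {N : End ℂ V} {v : V} {k l : ℕ} (h : (N ^ k) v = 0) (hkl : k ≤ l) :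
    (N ^ l) v = 0 := by
  obtain ⟨d, rfl⟩ := Nat.exists_eq_add_of_le' hkl
  rw [pow_add, End.mul_apply, h, map_zero]

lemma add_pow_apply_eq_zero {A B : End ℂ V} (hAB : Commute A B) {v : V} {k l : ℕ}
    (hA : (A ^ k) v = 0) (hB : (B ^ l) v = 0) : ((A + B) ^ (k + l)) v = 0 := by
  rw [hAB.add_pow, LinearMap.sum_apply]
  apply Finset.sum_eq_zero
  intro m hm
  have e : A ^ m * B ^ (k + l - m) * ((k + l).choose m : End ℂ V) =
      ((k + l).choose m : End ℂ V) * (A ^ m * B ^ (k + l - m)) :=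
    ((Nat.cast_commute _ _).eq).symm
  rw [e, End.mul_apply]
  rcases le_total k m with h | h
  · rw [(hAB.pow_pow m (k + l - m)).eq, End.mul_apply, pow_apply_eq_zero_of_le hA h]; simp
  · rw [End.mul_apply, pow_apply_eq_zero_of_le hB (by omega)]; simp

lemma mem_maxGen_add {A B : End ℂ V} (hAB : Commute A B) {a b : ℂ} {v : V}
    (hA : v ∈ A.maxGenEigenspace a) (hB : v ∈ B.maxGenEigenspace b) :
    v ∈ (A + B).maxGenEigenspace (a + b) := by
  rw [mem_maxGen_iff] at *
  obtain ⟨k, hk⟩ := hA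
  obtain ⟨l, hl⟩ := hB
  refine ⟨k + l, ?_⟩
  have e : A + B - (a + b) • (1 : End ℂ V) = (A - a • 1) + (B - b • 1) := by
    rw [add_smul]; abel
  rw [e]
  refine add_pow_apply_eq_zero ?_ hk hl
  exact (hAB.sub_right ((Commute.one_right A).smul_right b)).sub_left
    ((Commute.one_left _).smul_left a)

lemma mem_maxGen_mul {A B : End ℂ V} (hAB : Commute A B) {a b : ℂ} {v : V}
    (hA : v ∈ A.maxGenEigenspace a) (hB : v ∈ B.maxGenEigenspace b) :
    v ∈ (A * B).maxGenEigenspace (a * b) := by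
  rw [mem_maxGen_iff] at *
  obtain ⟨k, hk⟩ := hA
  obtain ⟨l, hl⟩ := hB
  refine ⟨k + l, ?_⟩
  have e : A * B - (a * b) • (1 : End ℂ V) = b • (A - a • 1) + A * (B - b • 1) := by
    simp only [smul_sub, mul_sub, mul_smul_comm, mul_one, smul_smul, mul_comm b a]; abel
  have c1 : Commute A (B - b • 1) := hAB.sub_right ((Commute.one_right A).smul_right b)
  have c2 : Commute (A - a • 1) (B - b • 1) := c1.sub_left ((Commute.one_left _).smul_left a)
  have c3 : Commute (A - a • 1) A := (Commute.refl A).sub_left ((Commute.one_left _).smul_left a)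
  rw [e]
  refine add_pow_apply_eq_zero ((c3.mul_right c2).smul_left b) ?_ ?_
  · rw [smul_pow, LinearMap.smul_apply, hk, smul_zero]
  · rw [c1.mul_pow, End.mul_apply, hl, map_zero]

variable [FiniteDimensional ℂ V]

lemma exists_replica (X : End ℂ V) (f : ℂ → ℂ) : ∃ Y : End ℂ V, IsReplica X f Y := by
  classical
  have h : DirectSum.IsInternal X.maxGenEigenspace :=
    (DirectSum.isInternal_submodule_iff_iSupIndep_and_iSup_eq_top _).mpr
      ⟨X.independent_maxGenEigenspace, X.iSup_maxGenEigenspace_eq_top⟩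
  let e := LinearEquiv.ofBijective (DirectSum.coeLinearMap X.maxGenEigenspace) h
  refine ⟨(DirectSum.toModule ℂ ℂ V
    (fun μ => f μ • (X.maxGenEigenspace μ).subtype)) ∘ₗ e.symm.toLinearMap, ?_⟩
  intro μ v hv
  have : e.symm v = DirectSum.lof ℂ ℂ (fun μ => X.maxGenEigenspace μ) μ ⟨v, hv⟩ := by
    rw [LinearEquiv.symm_apply_eq]
    simp [e, DirectSum.lof_eq_of]
  simp only [LinearMap.coe_comp, LinearEquiv.coe_coe, Function.comp_apply, this,
    DirectSum.toModule_lof]
  simp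

lemma IsReplica.mapsTo {X Y : End ℂ V} {f : ℂ → ℂ} (h : IsReplica X f Y) {U : Submodule ℂ V}
    (hU : ∀ v ∈ U, X v ∈ U) : ∀ v ∈ U, Y v ∈ U := by
  refine mem_of_iSup (Submodule.eq_iSup_inf_genEigenspace ⊤ hU X.iSup_maxGenEigenspace_eq_top) ?_
  intro μ v hv
  rw [h μ v hv.2]
  exact U.smul_mem _ hv.1

lemma IsReplica.commute {X Y : End ℂ V} {f : ℂ → ℂ} (h : IsReplica X f Y) : Commute X Y := by
  refine end_ext_of_iSup X.iSup_maxGenEigenspace_eq_top ?_
  intro μ v hv
  have : X v ∈ X.maxGenEigenspace μ := End.mapsTo_maxGenEigenspace_of_comm (Commute.refl X) μ hv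
  rw [End.mul_apply, End.mul_apply, h μ v hv, h μ _ this, map_smul]

lemma isReplica_of_iSup {κ : Type*} {p : κ → Submodule ℂ V} (hp : ⨆ k, p k = ⊤) {A B : End ℂ V}
    {H : ℂ → ℂ}
    (h : ∀ k, ∀ v ∈ p k, v = 0 ∨ ∃ e : ℂ, v ∈ A.maxGenEigenspace e ∧ B v = H e • v) :
    IsReplica A H B := by
  obtain ⟨C, hC⟩ := exists_replica A H
  have : B = C := by
    refine end_ext_of_iSup hp ?_
    intro k v hv
    rcases h k v hv with rfl | ⟨e, he, hB⟩
    · simp
    · rw [hB, hC e v he]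
  rwa [this]

omit [FiniteDimensional ℂ V] in
lemma mem_of_mem_maxGen {X : End ℂ V} {U : Submodule ℂ V} {a μ : ℂ}
    (hX : ∀ v, X v - a • v ∈ U) (hμ : μ ≠ a) {v : V} (hv : v ∈ X.maxGenEigenspace μ) : v ∈ U := by
  rw [mem_maxGen_iff] at hv
  obtain ⟨k, hk⟩ := hv
  have key : ∀ (k : ℕ) (v : V), ((X - μ • 1) ^ k) v - (a - μ) ^ k • v ∈ U := by
    intro k
    induction k with
    | zero => intro v; simp
    | succ k ih =>
      intro v
      have e : ((X - μ • 1) ^ (k + 1)) v - (a - μ) ^ (k + 1) • v =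
          (X (((X - μ • 1) ^ k) v) - a • ((X - μ • 1) ^ k) v) +
            (a - μ) • (((X - μ • 1) ^ k) v - (a - μ) ^ k • v) := by
        rw [pow_succ', End.mul_apply]
        simp only [LinearMap.sub_apply, LinearMap.smul_apply, End.one_apply]
        module
      rw [e]
      exact U.add_mem (hX _) (U.smul_mem _ (ih v))
  have := key k v
  rw [hk, zero_sub, U.neg_mem_iff] at this
  exact (U.smul_mem_iff (pow_ne_zero k (sub_ne_zero.mpr hμ.symm))).mp this

lemma IsReplica.range_le {X Y : End ℂ V} {f : ℂ → ℂ} (h : IsReplica X f Y) {U : Submodule ℂ V}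
    {a : ℂ} (hX : ∀ v, X v - a • v ∈ U) (hf : f a = 0) : ∀ v, Y v ∈ U := by
  intro v
  refine mem_of_iSup X.iSup_maxGenEigenspace_eq_top.symm ?_ v Submodule.mem_top
  intro μ v hv
  rw [h μ v hv]
  by_cases hμ : μ = a
  · rw [hμ, hf, zero_smul]; exact U.zero_mem
  · exact U.smul_mem _ (mem_of_mem_maxGen hX hμ hv)

/-- On a generalized eigenspace for another eigenvalue, `(X - μ) ^ k` is onto. -/
lemma exists_preimage_pow {X : End ℂ V} {μ ν : ℂ} (h : ν ≠ μ) (k : ℕ) {v : V}
    (hv : v ∈ X.maxGenEigenspace ν) : ∃ u, ((X - μ • 1) ^ k) u = v := by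
  set p := X.maxGenEigenspace ν
  have hc : Commute X ((X - μ • 1) ^ k) :=
    ((Commute.refl X).sub_right ((Commute.one_right X).smul_right μ)).pow_right k
  have hm : Set.MapsTo ((X - μ • 1) ^ k : End ℂ V) p p :=
    End.mapsTo_maxGenEigenspace_of_comm hc ν
  have hinj : Set.InjOn ((X - μ • 1) ^ k : End ℂ V) p := by
    intro x hx y hy hxy
    have h1 : x - y ∈ X.maxGenEigenspace μ := by
      rw [mem_maxGen_iff]; exact ⟨k, by rw [map_sub, hxy, sub_self]⟩
    have h2 : x - y ∈ X.maxGenEigenspace ν := p.sub_mem hx hy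
    have := (X.disjoint_genEigenspace h ⊤ ⊤).le_bot (Submodule.mem_inf.mpr ⟨h2, h1⟩)
    exact sub_eq_zero.mp (by simpa using this)
  obtain ⟨u, -, hu⟩ := (LinearMap.injOn_iff_surjOn hm).mp hinj hv
  exact ⟨u, hu⟩

/-- A commuting operator has an eigenvector in each nonzero eigenspace. -/
lemma exists_common_eigen {X Y : End ℂ V} (hc : Commute X Y) {ν : ℂ} (hν : Y.HasEigenvalue ν) :
    ∃ (v : V) (μ : ℂ), v ≠ 0 ∧ X v = μ • v ∧ Y v = ν • v := by
  have hm : ∀ v ∈ Y.eigenspace ν, X v ∈ Y.eigenspace ν := by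
    intro v hv
    rw [End.mem_eigenspace_iff] at *
    rw [← End.mul_apply, ← hc.eq, End.mul_apply, hv, map_smul]
  have : Nontrivial (Y.eigenspace ν) := Submodule.nontrivial_iff_ne_bot.mpr hν
  obtain ⟨μ, hμ⟩ := End.exists_eigenvalue (X.restrict hm)
  obtain ⟨v, hv⟩ := hμ.exists_hasEigenvector
  refine ⟨v, μ, by simpa using hv.2, ?_, End.mem_eigenspace_iff.mp v.2⟩
  have := congrArg Subtype.val hv.apply_eq_smul
  simpa using this

lemma re_eigen_eq_zero {Y : End ℂ V} (hpos : ∀ μ, Y.HasEigenvalue μ → 0 ≤ μ.re)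
    (htr : (LinearMap.trace ℂ V Y).re = 0) : ∀ μ, Y.HasEigenvalue μ → μ.re = 0 := by
  intro μ hμ
  rw [End.trace_eq_sum_roots_charpoly_of_splits (IsAlgClosed.splits _)] at htr
  have hne : Y.charpoly ≠ 0 := (LinearMap.charpoly_monic Y).ne_zero
  have h1 : (Y.charpoly.roots.map Complex.re).sum = 0 := by
    rw [← htr]
    exact (map_multiset_sum Complex.reAddGroupHom Y.charpoly.roots).symm
  have hmem : μ.re ∈ Y.charpoly.roots.map Complex.re :=
    Multiset.mem_map_of_mem _ ((Polynomial.mem_roots hne).mpr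
      ((End.hasEigenvalue_iff_isRoot_charpoly Y μ).mp hμ))
  have hall : ∀ x ∈ Y.charpoly.roots.map Complex.re, 0 ≤ x := by
    intro x hx
    obtain ⟨z, hz, rfl⟩ := Multiset.mem_map.mp hx
    exact hpos z ((End.hasEigenvalue_iff_isRoot_charpoly Y z).mpr ((Polynomial.mem_roots hne).mp hz))
  have := Multiset.single_le_sum hall _ hmem
  exact le_antisymm (h1 ▸ this) (hpos μ hμ)

lemma isNilpotent_of_eigen {X : End ℂ V} (h : ∀ μ, X.HasEigenvalue μ → μ = 0) : IsNilpotent X := by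
  rw [End.isNilpotent_iff_of_finite]
  intro v
  have hv : v ∈ X.maxGenEigenspace 0 := by
    refine mem_of_iSup (A := 1) X.iSup_maxGenEigenspace_eq_top.symm ?_ v Submodule.mem_top
    intro μ v hv
    by_cases hμ : μ = 0
    · subst hμ; simpa using hv
    · have : X.maxGenEigenspace μ = ⊥ := by
        by_contra hne
        have h1 : X.HasUnifEigenvalue μ ⊤ := hne
        exact hμ (h μ (h1.lt zero_lt_one))
      rw [this] at hv
      simp only [Submodule.mem_bot] at hv
      subst hv; simp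
  rw [mem_maxGen_iff] at hv
  simpa using hv

/-- a unit preserving a finite dimensional subspace has an inverse preserving it -/
lemma inv_mapsTo {A B : End ℂ V} (hBA : B * A = 1) {U : Submodule ℂ V}
    (hU : ∀ v ∈ U, A v ∈ U) : ∀ v ∈ U, B v ∈ U := by
  have hm : Set.MapsTo A U U := hU
  have hinj : Set.InjOn A U := by
    intro x _ y _ hxy
    have := congrArg B hxy
    rwa [← End.mul_apply, ← End.mul_apply, hBA] at this
  intro v hv
  obtain ⟨u, hu, rfl⟩ := (LinearMap.injOn_iff_surjOn hm).mp hinj hv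
  rw [← End.mul_apply, hBA]; exact hu

end Pool.Agent.MP_057a77_an

end

-- part MP_057a77_an.Multi
section

/-!
Slot operators on multilinear forms.
-/

namespace Pool.Agent.MP_057a77_an

open Module Function

variable {V : Type*} [AddCommGroup V] [Module ℂ V] {ι : Type*}

/-- multilinear forms -/
abbrev MF (ι : Type*) (V : Type*) [AddCommGroup V] [Module ℂ V] :=
  MultilinearMap ℂ (fun _ : ι => V) ℂ

/-- pull back by a family of endomorphisms -/
noncomputable def pull (g : ι → End ℂ V) : End ℂ (MF ι V) := MultilinearMap.compLinearMapₗ g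

@[simp] lemma pull_apply (g : ι → End ℂ V) (F : MF ι V) (v : ι → V) :
    pull g F v = F (fun i => g i (v i)) := rfl

lemma pull_mul (g h : ι → End ℂ V) : pull g * pull h = pull (fun i => h i * g i) := by
  ext F v; rfl

lemma pull_one : pull (fun _ : ι => (1 : End ℂ V)) = 1 := by
  ext F v; rfl

variable [DecidableEq ι]

/-- pull back in one slot -/
noncomputable def slot (i : ι) (X : End ℂ V) : End ℂ (MF ι V) := pull (update (fun _ => 1) i X)

lemma slot_apply (i : ι) (X : End ℂ V) (F : MF ι V) (v : ι → V) :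
    slot i X F v = F (update v i (X (v i))) := by
  simp only [slot, pull_apply]
  congr 1
  funext j
  by_cases h : j = i
  · subst h; simp
  · simp [update_of_ne h]

lemma slot_add (i : ι) (X Y : End ℂ V) : slot i (X + Y) = slot i X + slot i Y := by
  ext F v; simp [slot_apply]

lemma slot_smul (i : ι) (c : ℂ) (X : End ℂ V) : slot i (c • X) = c • slot i X := by
  ext F v; simp [slot_apply]

lemma slot_sub (i : ι) (X Y : End ℂ V) : slot i (X - Y) = slot i X - slot i Y := by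
  ext F v; simp [slot_apply, MultilinearMap.map_update_sub]

lemma slot_zero (i : ι) : slot i (0 : End ℂ V) = 0 := by
  ext F v; simp [slot_apply]

lemma slot_one (i : ι) : slot i (1 : End ℂ V) = 1 := by
  ext F v; simp [slot_apply]

lemma slot_mul (i : ι) (X Y : End ℂ V) : slot i (X * Y) = slot i Y * slot i X := by
  ext F v; simp [slot_apply]

lemma slot_pow (i : ι) (X : End ℂ V) (k : ℕ) : slot i (X ^ k) = slot i X ^ k := by
  induction k with
  | zero => simp [slot_one]
  | succ k ih => rw [pow_succ, slot_mul, ih, pow_succ']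

lemma slot_commute {i j : ι} (h : i ≠ j) (X Y : End ℂ V) : Commute (slot i X) (slot j Y) := by
  ext F v
  simp only [End.mul_apply, slot_apply]
  rw [update_of_ne h.symm, update_of_ne h, update_comm h]

lemma pull_mul_slot (g : ι → End ℂ V) (i : ι) {X X' : End ℂ V} (h : X * g i = g i * X') :
    pull g * slot i X = slot i X' * pull g := by
  ext F v
  simp only [End.mul_apply, slot_apply, pull_apply]
  congr 1
  funext j
  by_cases hj : j = i
  · subst hj
    simp only [update_self]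
    rw [← End.mul_apply, h, End.mul_apply]
  · simp [update_of_ne hj]

/-- partial pull back -/
noncomputable def pullOn (s : Finset ι) (g : ι → End ℂ V) : End ℂ (MF ι V) :=
  pull (fun i => if i ∈ s then g i else 1)

lemma pullOn_empty (g : ι → End ℂ V) : pullOn ∅ g = 1 := by
  simp [pullOn, pull_one]

lemma pullOn_insert {s : Finset ι} {i : ι} (hi : i ∉ s) (g : ι → End ℂ V) :
    pullOn (insert i s) g = slot i (g i) * pullOn s g := by
  rw [pullOn, pullOn, slot, pull_mul]
  congr 1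
  funext j
  by_cases hj : j = i
  · subst hj; simp [hi]
  · simp [hj]

lemma slot_commute_pullOn {s : Finset ι} {i : ι} (hi : i ∉ s) (X : End ℂ V) (g : ι → End ℂ V) :
    Commute (slot i X) (pullOn s g) :=
  (pull_mul_slot _ i (by simp [hi])).symm

variable [Fintype ι]

lemma pullOn_univ (g : ι → End ℂ V) : pullOn Finset.univ g = pull g := by
  simp [pullOn]

/-- the derivation attached to a family of endomorphisms -/
noncomputable def der (X : ι → End ℂ V) : End ℂ (MF ι V) := ∑ i, slot i (X i)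

lemma der_add (X Y : ι → End ℂ V) : der (fun i => X i + Y i) = der X + der Y := by
  simp [der, slot_add, Finset.sum_add_distrib]

lemma der_smul (c : ℂ) (X : ι → End ℂ V) : der (fun i => c • X i) = c • der X := by
  simp [der, slot_smul, Finset.smul_sum]

lemma der_zero : der (fun _ : ι => (0 : End ℂ V)) = 0 := by
  simp [der, slot_zero]

lemma der_lie (X Y : ι → End ℂ V) :
    der (fun i => X i * Y i - Y i * X i) = der Y * der X - der X * der Y := by
  simp only [der, Finset.sum_mul_sum]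
  rw [Finset.sum_comm (s := Finset.univ) (t := Finset.univ)
    (f := fun i j => slot i (X i) * slot j (Y j)), ← Finset.sum_sub_distrib]
  apply Finset.sum_congr rfl
  intro i _
  rw [← Finset.sum_sub_distrib, Finset.sum_eq_single i]
  · rw [slot_sub, slot_mul, slot_mul]
  · intro j _ hj
    rw [(slot_commute hj (X j) (Y i)).eq, sub_self]
  · simp

lemma pull_mul_der (g : ι → End ℂ V) {X X' : ι → End ℂ V} (h : ∀ i, X i * g i = g i * X' i) :
    pull g * der X = der X' * pull g := by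
  simp only [der, Finset.mul_sum, Finset.sum_mul]
  exact Finset.sum_congr rfl fun i _ => pull_mul_slot g i (h i)

omit [Fintype ι] in
lemma exp_sum_slot {X : ι → End ℂ V} (hX : ∀ i, X i * X i = 0) (s : Finset ι) :
    IsNilpotent (∑ i ∈ s, slot i (X i)) ∧
      IsNilpotent.exp (∑ i ∈ s, slot i (X i)) = pullOn s (fun i => 1 + X i) := by
  induction s using Finset.induction_on with
  | empty => simp [pullOn_empty]
  | insert i s hi ih =>
    have h2 : slot i (X i) ^ 2 = 0 := by rw [← slot_pow, pow_two, hX, slot_zero]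
    have hn : IsNilpotent (slot i (X i)) := ⟨2, h2⟩
    have hc : Commute (slot i (X i)) (∑ j ∈ s, slot j (X j)) :=
      Commute.sum_right _ _ _ fun j hj => slot_commute (by rintro rfl; exact hi hj) _ _
    rw [Finset.sum_insert hi]
    refine ⟨hc.isNilpotent_add hn ih.1, ?_⟩
    rw [IsNilpotent.exp_add_of_commute hc hn ih.1, ih.2, pullOn_insert hi,
      IsNilpotent.exp_eq_sum h2, slot_add, slot_one]
    simp [Finset.sum_range_succ]

lemma pull_one_add_mapsTo {X : ι → End ℂ V} (hX : ∀ i, X i * X i = 0) {J : Submodule ℂ (MF ι V)}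
    (hJ : ∀ F ∈ J, der X F ∈ J) : ∀ F ∈ J, pull (fun i => 1 + X i) F ∈ J := by
  obtain ⟨⟨k, hk⟩, he⟩ := exp_sum_slot hX Finset.univ
  rw [pullOn_univ, IsNilpotent.exp_eq_sum hk] at he
  intro F hF
  rw [← he, LinearMap.sum_apply]
  refine J.sum_mem fun n _ => ?_
  have hp : ∀ n : ℕ, ((∑ i, slot i (X i)) ^ n) F ∈ J := by
    intro n
    induction n with
    | zero => simpa using hF
    | succ n ih => rw [pow_succ', End.mul_apply]; exact hJ _ ih
  rw [LinearMap.smul_apply]
  exact Submodule.smul_of_tower_mem J _ (hp n)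

variable [FiniteDimensional ℂ V]

omit [Fintype ι] in
lemma slot_replica {X Y : End ℂ V} {f : ℂ → ℂ} (h : IsReplica X f Y) (i : ι) :
    IsReplica (slot i X) f (slot i Y) := by
  intro μ F hF
  rw [mem_maxGen_iff] at hF
  obtain ⟨k, hk⟩ := hF
  rw [← slot_one i, ← slot_smul, ← slot_sub, ← slot_pow] at hk
  ext v
  rw [slot_apply, smul_apply]
  have key : (F.toLinearMap v i) ∘ₗ Y = f μ • F.toLinearMap v i := by
    refine end_ext_of_iSup X.iSup_maxGenEigenspace_eq_top ?_
    intro ν x hx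
    simp only [LinearMap.coe_comp, Function.comp_apply, LinearMap.smul_apply, h ν x hx, map_smul]
    by_cases hν : ν = μ
    · rw [hν]
    · obtain ⟨u, rfl⟩ := exists_preimage_pow hν k hx
      have := congrArg (fun G : MF ι V => G (update v i u)) hk
      simp only [slot_apply, update_self, update_idem, zero_apply] at this
      simp [MultilinearMap.toLinearMap_apply, this]
  have := congrArg (fun L : V →ₗ[ℂ] ℂ => L (v i)) key
  simpa [MultilinearMap.toLinearMap_apply] using this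

lemma joint_top (X : ι → End ℂ V) :
    ⨆ χ : ι → ℂ, ⨅ i, (slot i (X i)).maxGenEigenspace (χ i) = ⊤ := by
  refine End.iSup_iInf_maxGenEigenspace_eq_top_of_forall_mapsTo _ ?_
    (fun i => End.iSup_maxGenEigenspace_eq_top _)
  intro i j φ
  refine End.mapsTo_maxGenEigenspace_of_comm ?_ φ
  by_cases hij : j = i
  · subst hij; exact Commute.refl _
  · exact slot_commute hij _ _

lemma der_apply_joint {X Y : ι → End ℂ V} {f : ℂ → ℂ} (h : ∀ i, IsReplica (X i) f (Y i))
    {χ : ι → ℂ} {F : MF ι V} (hF : ∀ i, F ∈ (slot i (X i)).maxGenEigenspace (χ i)) :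
    der Y F = (∑ i, f (χ i)) • F := by
  rw [der, LinearMap.sum_apply, Finset.sum_smul]
  exact Finset.sum_congr rfl fun i _ => slot_replica (h i) i _ _ (hF i)

lemma der_replica {X Y : ι → End ℂ V} (f : ℂ →+ ℂ) (h : ∀ i, IsReplica (X i) f (Y i)) :
    IsReplica (der X) f (der Y) := by
  refine isReplica_of_iSup (joint_top X) ?_
  intro χ F hF
  rw [Submodule.mem_iInf] at hF
  refine Or.inr ⟨∑ i, χ i, ?_, by rw [der_apply_joint h hF, map_sum]⟩
  have : ∀ s : Finset ι, F ∈ (∑ i ∈ s, slot i (X i)).maxGenEigenspace (∑ i ∈ s, χ i) := by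
    intro s
    induction s using Finset.induction_on with
    | empty => exact mem_maxGen_of_eigen (by simp)
    | insert i s hi ih =>
      rw [Finset.sum_insert hi, Finset.sum_insert hi]
      exact mem_maxGen_add (Commute.sum_right _ _ _ fun j hj =>
        slot_commute (by rintro rfl; exact hi hj) _ _) (hF i) ih
  exact this Finset.univ

lemma pull_replica {g g' Y : ι → End ℂ V} (hg : ∀ i, g i * g' i = 1) {f : ℂ → ℂ} (hf1 : f 1 = 0)
    (hf : ∀ a b, a ≠ 0 → b ≠ 0 → f (a * b) = f a + f b)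
    (h : ∀ i, IsReplica (g i) f (Y i)) : IsReplica (pull g) f (der Y) := by
  refine isReplica_of_iSup (joint_top g) ?_
  intro χ F hF
  rw [Submodule.mem_iInf] at hF
  by_cases h0 : ∃ i, χ i = 0
  · left
    obtain ⟨i, hi⟩ := h0
    have := hF i
    rw [hi, mem_maxGen_iff] at this
    obtain ⟨k, hk⟩ := this
    simp only [zero_smul, sub_zero] at hk
    have hc : slot i (g' i) * slot i (g i) = 1 := by rw [← slot_mul, hg, slot_one]
    have hc' : Commute (slot i (g' i)) (slot i (g i)) := by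
      rw [Commute, SemiconjBy, hc, mul_eq_one_comm.mp hc]
    have : (slot i (g' i) ^ k * slot i (g i) ^ k) F = F := by
      rw [← hc'.mul_pow, hc, one_pow, End.one_apply]
    rw [← this, End.mul_apply, hk, map_zero]
  push Not at h0
  refine Or.inr ⟨∏ i, χ i, ?_, ?_⟩
  · have : ∀ s : Finset ι, F ∈ (pullOn s g).maxGenEigenspace (∏ i ∈ s, χ i) := by
      intro s
      induction s using Finset.induction_on with
      | empty => exact mem_maxGen_of_eigen (by simp [pullOn_empty])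
      | insert i s hi ih =>
        rw [Finset.prod_insert hi, pullOn_insert hi]
        exact mem_maxGen_mul (slot_commute_pullOn hi _ _) (hF i) ih
    simpa [pullOn_univ] using this Finset.univ
  · rw [der_apply_joint h hF]
    congr 1
    have : ∀ s : Finset ι, ∑ i ∈ s, f (χ i) = f (∏ i ∈ s, χ i) := by
      intro s
      induction s using Finset.induction_on with
      | empty => simp [hf1]
      | insert i s hi ih =>
        rw [Finset.prod_insert hi, Finset.sum_insert hi, ih,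
          hf _ _ (h0 i) (Finset.prod_ne_zero_iff.mpr fun j _ => h0 j)]
    exact this Finset.univ

end Pool.Agent.MP_057a77_an

end

-- part MP_057a77_an.Conj
section

/-!
Conjugate-linear involutions, and a real form of Engel's theorem.
-/

namespace Pool.Agent.MP_057a77_an

open Module Function

variable {V : Type*} [AddCommGroup V] [Module ℂ V] {ι : Type*}

/-- a conjugate-linear involution -/
structure Conj (V : Type*) [AddCommGroup V] [Module ℂ V] where
  κ : V →+ V
  smul : ∀ (c : ℂ) (v : V), κ (c • v) = (starRingEnd ℂ c) • κ v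
  invol : ∀ v, κ (κ v) = v

namespace Conj

variable (C : Conj V)

/-- conjugate of an endomorphism -/
def bar (X : End ℂ V) : End ℂ V where
  toFun v := C.κ (X (C.κ v))
  map_add' u v := by simp
  map_smul' c v := by simp [C.smul]

lemma bar_apply (X : End ℂ V) (v : V) : C.bar X v = C.κ (X (C.κ v)) := rfl

lemma bar_add (X Y : End ℂ V) : C.bar (X + Y) = C.bar X + C.bar Y := by
  ext v; simp [bar_apply]

lemma bar_sub (X Y : End ℂ V) : C.bar (X - Y) = C.bar X - C.bar Y := by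
  ext v; simp [bar_apply]

lemma bar_mul (X Y : End ℂ V) : C.bar (X * Y) = C.bar X * C.bar Y := by
  ext v; simp [bar_apply, C.invol]

lemma bar_one : C.bar 1 = 1 := by
  ext v; simp [bar_apply, C.invol]

lemma bar_zero : C.bar 0 = 0 := by
  ext v; simp [bar_apply]

lemma bar_smul (c : ℂ) (X : End ℂ V) : C.bar (c • X) = (starRingEnd ℂ c) • C.bar X := by
  ext v; simp [bar_apply, C.smul]

lemma bar_pow (X : End ℂ V) (k : ℕ) : C.bar (X ^ k) = C.bar X ^ k := by
  induction k with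
  | zero => simp [bar_one]
  | succ k ih => rw [pow_succ, bar_mul, ih, pow_succ]

lemma bar_replica {X Y : End ℂ V} {f : ℂ → ℂ} (h : IsReplica X f Y)
    (hf : ∀ μ, f (starRingEnd ℂ μ) = starRingEnd ℂ (f μ)) :
    IsReplica (C.bar X) f (C.bar Y) := by
  intro μ v hv
  have : C.κ v ∈ X.maxGenEigenspace (starRingEnd ℂ μ) := by
    rw [mem_maxGen_iff] at *
    obtain ⟨k, hk⟩ := hv
    refine ⟨k, ?_⟩
    have e : C.bar X - μ • 1 = C.bar (X - (starRingEnd ℂ μ) • 1) := by
      rw [bar_sub, bar_smul, bar_one]; simp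
    rw [e, ← bar_pow, bar_apply] at hk
    have := congrArg C.κ hk
    rwa [C.invol, map_zero] at this
  rw [bar_apply, h _ _ this, hf, C.smul, C.invol]
  simp

variable (b : ι → Bool)

/-- the family of endomorphisms attached to `X` -/
def σ (X : End ℂ V) (i : ι) : End ℂ V := if b i then C.bar X else X

/-- the family of vectors attached to `v` -/
def τ (v : V) (i : ι) : V := if b i then C.κ v else v

lemma σ_τ (X : End ℂ V) (v : V) (i : ι) : C.σ b X i (C.τ b v i) = C.τ b (X v) i := by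
  unfold σ τ; split_ifs
  · rw [bar_apply, C.invol]
  · rfl

lemma σ_add (X Y : End ℂ V) : C.σ b (X + Y) = fun i => C.σ b X i + C.σ b Y i := by
  funext i; unfold σ; split_ifs
  · exact C.bar_add X Y
  · rfl

lemma σ_sub (X Y : End ℂ V) (i : ι) : C.σ b (X - Y) i = C.σ b X i - C.σ b Y i := by
  unfold σ; split_ifs
  · exact C.bar_sub X Y
  · rfl

lemma σ_mul (X Y : End ℂ V) (i : ι) : C.σ b (X * Y) i = C.σ b X i * C.σ b Y i := by
  unfold σ; split_ifs
  · exact C.bar_mul X Y
  · rfl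

lemma σ_one (i : ι) : C.σ b 1 i = 1 := by
  unfold σ; split_ifs
  · exact C.bar_one
  · rfl

lemma σ_zero (i : ι) : C.σ b 0 i = 0 := by
  unfold σ; split_ifs
  · exact C.bar_zero
  · rfl

lemma σ_smul (r : ℝ) (X : End ℂ V) :
    C.σ b ((r : ℂ) • X) = fun i => (r : ℂ) • C.σ b X i := by
  funext i; unfold σ; split_ifs
  · rw [C.bar_smul]; simp
  · rfl

lemma σ_replica {X Y : End ℂ V} {f : ℂ → ℂ} (h : IsReplica X f Y)
    (hf : ∀ μ, f (starRingEnd ℂ μ) = starRingEnd ℂ (f μ)) (i : ι) :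
    IsReplica (C.σ b X i) f (C.σ b Y i) := by
  unfold σ; split_ifs
  · exact C.bar_replica h hf
  · exact h

/-- the multilinear forms vanishing on the diagonal images of `K` -/
def van (K : Set V) : Submodule ℂ (MF ι V) where
  carrier := {F | ∀ q ∈ K, F (C.τ b q) = 0}
  add_mem' := by intro F G hF hG q hq; simp [hF q hq, hG q hq]
  zero_mem' := by intro q _; simp
  smul_mem' := by intro c F hF q hq; simp [hF q hq]

lemma pull_σ_τ (X : End ℂ V) (F : MF ι V) (q : V) :
    pull (C.σ b X) F (C.τ b q) = F (C.τ b (X q)) := by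
  rw [pull_apply]; congr 1; funext i; exact C.σ_τ b X q i

end Conj

attribute [local instance 100] LieRing.ofAssociativeRing

/-- Engel's theorem for a real Lie algebra of nilpotent complex endomorphisms. -/
lemma engel_real {U : Type*} [AddCommGroup U] [Module ℂ U] [FiniteDimensional ℂ U] [Nontrivial U]
    (s : Set (End ℂ U)) (h0 : 0 ∈ s) (hadd : ∀ X ∈ s, ∀ Y ∈ s, X + Y ∈ s)
    (hsmul : ∀ (r : ℝ), ∀ X ∈ s, (r : ℂ) • X ∈ s)
    (hlie : ∀ X ∈ s, ∀ Y ∈ s, X * Y - Y * X ∈ s) (hnil : ∀ X ∈ s, IsNilpotent X) :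
    ∃ u : U, u ≠ 0 ∧ ∀ X ∈ s, X u = 0 := by
  let L : LieSubalgebra ℝ (End ℝ U) :=
    { carrier := {Y | ∃ X ∈ s, ∀ u, Y u = X u}
      add_mem' := by
        rintro Y Y' ⟨X, hX, h⟩ ⟨X', hX', h'⟩
        exact ⟨X + X', hadd _ hX _ hX', fun u => by simp [h, h']⟩
      zero_mem' := ⟨0, h0, fun u => by simp⟩
      smul_mem' := by
        rintro r Y ⟨X, hX, h⟩
        exact ⟨(r : ℂ) • X, hsmul r _ hX, fun u => by simp [h]⟩
      lie_mem' := by
        rintro Y Y' ⟨X, hX, h⟩ ⟨X', hX', h'⟩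
        exact ⟨X * X' - X' * X, hlie _ hX _ hX', fun u => by simp [Ring.lie_def, h, h']⟩ }
  have hn : LieModule.IsNilpotent L U := by
    rw [LieModule.isNilpotent_iff_forall' (R := ℝ)]
    rintro ⟨Y, X, hX, h⟩
    obtain ⟨k, hk⟩ := hnil X hX
    refine ⟨k, ?_⟩
    ext u
    have : ∀ (k : ℕ) (u : U), ((LieModule.toEnd ℝ L U ⟨Y, X, hX, h⟩) ^ k) u = (X ^ k) u := by
      intro k
      induction k with
      | zero => intro u; simp
      | succ k ih => intro u; rw [pow_succ, pow_succ, End.mul_apply, End.mul_apply, ih]; simp [h]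
    rw [this, hk]; simp
  have := LieModule.nontrivial_max_triv_of_isNilpotent ℝ L U
  obtain ⟨⟨u, hu⟩, hu0⟩ := exists_ne (0 : LieModule.maxTrivSubmodule ℝ L U)
  refine ⟨u, fun h => hu0 (Subtype.ext h), fun X hX => ?_⟩
  have := hu ⟨X.restrictScalars ℝ, X, hX, fun u => rfl⟩
  simpa using this

end Pool.Agent.MP_057a77_an

end

-- part MP_057a77_an.Res
section

/-!
The reciprocal conjugate of a polynomial and a multilinear form detecting common roots.
-/

namespace Pool.Agent.MP_057a77_an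

open Module Function Polynomial

/-- conjugate reciprocal polynomial -/
noncomputable def starP (m : ℕ) (p : ℂ[X]) : ℂ[X] := reflect m (p.map (starRingEnd ℂ))

lemma coeff_starP (m : ℕ) (p : ℂ[X]) (i : ℕ) :
    (starP m p).coeff i = starRingEnd ℂ (p.coeff (revAt m i)) := by
  simp [starP]

lemma mem_degreeLT_iff {n : ℕ} {p : ℂ[X]} : p ∈ degreeLT ℂ n ↔ ∀ i, n ≤ i → p.coeff i = 0 := by
  rw [mem_degreeLT, degree_lt_iff_coeff_zero]

lemma starP_mem {m : ℕ} {p : ℂ[X]} (hp : p ∈ degreeLT ℂ (m + 1)) :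
    starP m p ∈ degreeLT ℂ (m + 1) := by
  rw [mem_degreeLT_iff] at *
  intro i hi
  rw [coeff_starP, revAt_eq_self_of_lt hi, hp i hi, map_zero]

lemma starP_add (m : ℕ) (p q : ℂ[X]) : starP m (p + q) = starP m p + starP m q := by
  ext i; simp [coeff_starP]

lemma starP_smul (m : ℕ) (c : ℂ) (p : ℂ[X]) :
    starP m (c • p) = (starRingEnd ℂ c) • starP m p := by
  ext i; simp [coeff_starP]

lemma starP_starP (m : ℕ) (p : ℂ[X]) : starP m (starP m p) = p := by
  ext i; simp [coeff_starP]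

lemma natDegree_le_of_mem {m : ℕ} {p : ℂ[X]} (hp : p ∈ degreeLT ℂ (m + 1)) : p.natDegree ≤ m := by
  rw [natDegree_le_iff_coeff_eq_zero]
  exact fun i hi => mem_degreeLT_iff.mp hp i hi

lemma starP_eval_eq_zero {m : ℕ} {p : ℂ[X]} (hp : p ∈ degreeLT ℂ (m + 1)) {r : ℂ} (hr : ‖r‖ = 1)
    (h : p.eval r = 0) : (starP m p).eval r = 0 := by
  have h1 : starRingEnd ℂ r * r = 1 := by
    rw [Complex.conj_mul', hr]; simp
  let : Invertible (starRingEnd ℂ r) := ⟨r, by rw [mul_comm, h1], h1⟩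
  have := (eval₂_reflect_eq_zero_iff (RingHom.id ℂ) (starRingEnd ℂ r) m (p.map (starRingEnd ℂ))
    (natDegree_map_le.trans (natDegree_le_of_mem hp))).mpr (by
      rw [eval₂_id, eval_map_apply, h, map_zero])
  exact this

/-- the involution on polynomials of degree at most `m` -/
noncomputable def conjP (m : ℕ) : Conj (degreeLT ℂ (m + 1)) where
  κ := { toFun := fun p => ⟨starP m p, starP_mem p.2⟩
         map_zero' := by ext i; simp [coeff_starP]
         map_add' := fun p q => Subtype.ext (starP_add m p q) }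
  smul c p := Subtype.ext (starP_smul m c p)
  invol p := Subtype.ext (starP_starP m p)

/-- slot types -/
def slotType (m : ℕ) : Fin m ⊕ Fin m → Bool := Sum.elim (fun _ => false) (fun _ => true)

lemma exists_resForm (m : ℕ) (hm : 1 ≤ m) : ∃ F : MF (Fin m ⊕ Fin m) (degreeLT ℂ (m + 1)),
    ∀ q : degreeLT ℂ (m + 1), F ((conjP m).τ (slotType m) q) = 0 ↔
      ∃ z : ℂ, (q : ℂ[X]).eval z = 0 ∧ (starP m q).eval z = 0 := by
  classical
  let e : Basis (Fin m ⊕ Fin m) ℂ (degreeLT ℂ (m + m)) :=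
    (degreeLT.basis ℂ (m + m)).reindex finSumFinEquiv.symm
  let k : Fin m ⊕ Fin m → ℕ := Sum.elim (fun i => i) (fun i => i)
  have hk : ∀ i, k i < m := by rintro (i | i) <;> exact i.2
  have hmem : ∀ i, ∀ p : degreeLT ℂ (m + 1), X ^ k i * (p : ℂ[X]) ∈ degreeLT ℂ (m + m) := by
    intro i p
    rw [mem_degreeLT_iff]
    intro j hj
    rw [coeff_X_pow_mul', if_pos (by have := hk i; omega)]
    exact mem_degreeLT_iff.mp p.2 _ (by have := hk i; omega)
  let φ : Fin m ⊕ Fin m → (degreeLT ℂ (m + 1) →ₗ[ℂ] degreeLT ℂ (m + m)) := fun i =>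
    { toFun := fun p => ⟨X ^ k i * (p : ℂ[X]), hmem i p⟩
      map_add' := fun p q => Subtype.ext (by simp [mul_add])
      map_smul' := fun c p => Subtype.ext (by simp) }
  refine ⟨e.det.toMultilinearMap.compLinearMap φ, fun q => ?_⟩
  set v : Fin m ⊕ Fin m → degreeLT ℂ (m + m) :=
    fun i => φ i ((conjP m).τ (slotType m) q i) with hv
  have v1 : ∀ i, (v (Sum.inl i) : ℂ[X]) = X ^ (i : ℕ) * (q : ℂ[X]) := fun i => rfl
  have v2 : ∀ i, (v (Sum.inr i) : ℂ[X]) = X ^ (i : ℕ) * starP m q := fun i => rfl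
  show e.det v = 0 ↔ _
  rw [← not_iff_not, ← Ne, ← isUnit_iff_ne_zero, ← e.is_basis_iff_det]
  constructor
  · rintro ⟨-, hspan⟩ ⟨z, hz1, hz2⟩
    have h1 : (1 : ℂ[X]) ∈ degreeLT ℂ (m + m) := by
      rw [mem_degreeLT_iff]; intro i hi; rw [coeff_one, if_neg (by omega)]
    have hle : Submodule.span ℂ (Set.range v) ≤
        LinearMap.ker ((leval z) ∘ₗ (degreeLT ℂ (m + m)).subtype) := by
      rw [Submodule.span_le]
      rintro _ ⟨i | i, rfl⟩
      · simp [v1, hz1]
      · simp [v2, hz2]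
    have := hle (hspan ▸ Submodule.mem_top : (⟨1, h1⟩ : degreeLT ℂ (m + m)) ∈ _)
    simp at this
  · intro hno
    push Not at hno
    have hcop : IsCoprime (q : ℂ[X]) (starP m q) := by
      rw [isCoprime_iff_aeval_ne_zero_of_isAlgClosed (k := ℂ) ℂ]
      intro a
      simp only [coe_aeval_eq_eval]
      by_cases h : (q : ℂ[X]).eval a = 0
      · exact Or.inr (hno a h)
      · exact Or.inl h
    have hli : LinearIndependent ℂ v := by
      rw [Fintype.linearIndependent_iff]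
      intro g hg
      let Apol : ℂ[X] := ∑ i : Fin m, monomial i (g (Sum.inl i))
      let Bpol : ℂ[X] := ∑ i : Fin m, monomial i (g (Sum.inr i))
      have cf : ∀ (h : Fin m → ℂ) (j : Fin m),
          (∑ i : Fin m, monomial (i : ℕ) (h i)).coeff j = h j := by
        intro h j
        rw [finsetSum_coeff, Finset.sum_eq_single j]
        · simp
        · intro i _ hij
          rw [coeff_monomial, if_neg (fun h => hij (Fin.ext h))]
        · simp
      have dg : ∀ (h : Fin m → ℂ), (∑ i : Fin m, monomial (i : ℕ) (h i)).degree < m := by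
        intro h
        rw [degree_lt_iff_coeff_zero]
        intro j hj
        rw [finsetSum_coeff]
        refine Finset.sum_eq_zero fun i _ => ?_
        rw [coeff_monomial, if_neg (by have := i.2; omega)]
      have hrel : Apol * q + Bpol * starP m q = 0 := by
        have := congrArg Subtype.val hg
        rw [Fintype.sum_sum_type] at this
        simp only [Submodule.coe_add, Submodule.coe_sum, Submodule.coe_smul, v1, v2,
          ZeroMemClass.coe_zero] at this
        rw [← this, Finset.sum_mul, Finset.sum_mul]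
        simp only [← C_mul_X_pow_eq_monomial, smul_eq_C_mul, mul_assoc]
      have hq0 : (q : ℂ[X]) ≠ 0 := by
        intro h; exact hno 0 (by simp [h]) (by simp [h, starP])
      have hs0 : starP m q ≠ 0 := by
        intro h
        apply hq0
        rw [← starP_starP m q, h]; simp [starP]
      have hAB : Apol = 0 ∧ Bpol = 0 := by
        by_cases h1 : (q : ℂ[X]).coeff m = 0
        · have h2 : (starP m q).coeff m ≠ 0 := by
            intro h2
            refine hno 0 ?_ ?_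
            · rw [coeff_starP, revAt_le le_rfl, Nat.sub_self, map_eq_zero] at h2
              rw [← coeff_zero_eq_eval_zero, h2]
            · rw [← coeff_zero_eq_eval_zero, coeff_starP, revAt_zero, h1, map_zero]
          have hd : starP m q ∣ Apol :=
            hcop.symm.dvd_of_dvd_mul_right ⟨-Bpol, by linear_combination hrel⟩
          have hA : Apol = 0 :=
            eq_zero_of_dvd_of_degree_lt hd ((dg _).trans_le (le_degree_of_ne_zero h2))
          rw [hA, zero_mul, zero_add] at hrel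
          exact ⟨hA, (mul_eq_zero.mp hrel).resolve_right hs0⟩
        · have hd : (q : ℂ[X]) ∣ Bpol :=
            hcop.dvd_of_dvd_mul_right ⟨-Apol, by linear_combination hrel⟩
          have hB : Bpol = 0 :=
            eq_zero_of_dvd_of_degree_lt hd ((dg _).trans_le (le_degree_of_ne_zero h1))
          rw [hB, zero_mul, add_zero] at hrel
          exact ⟨(mul_eq_zero.mp hrel).resolve_right hq0, hB⟩
      rintro (i | i)
      · rw [← cf (fun i => g (Sum.inl i)) i]; exact (congrArg (coeff · i) hAB.1).trans (by simp)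
      · rw [← cf (fun i => g (Sum.inr i)) i]; exact (congrArg (coeff · i) hAB.2).trans (by simp)
    have : Nonempty (Fin m ⊕ Fin m) := ⟨Sum.inl ⟨0, hm⟩⟩
    exact ⟨hli, hli.span_eq_top_of_card_eq_finrank (finrank_eq_card_basis e).symm⟩

/-- If all translates in a large real subspace have a root in common with their conjugate
reciprocal, then the polynomial is proportional to its conjugate reciprocal in a weak sense. -/
lemma selfdual {m M : ℕ} (hM : M ≤ m) {P : ℂ[X]} (hP : P.eval 1 ≠ 0)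
    (N : Submodule ℝ (degreeLT ℂ (m + 1)))
    (hN : ∀ p : degreeLT ℂ (m + 1), (X - C 1) ^ M ∣ (p : ℂ[X]) → p ∈ Submodule.span ℂ (N : Set _))
    (hroot : ∀ w ∈ N, ∃ z : ℂ, (P + w).eval z = 0 ∧ (starP m (P + w)).eval z = 0) :
    ∀ w ∈ N, P * starP m w = starP m P * w := by
  classical
  have hP0 : P ≠ 0 := by rintro rfl; simp at hP
  have hW : (X - C 1 : ℂ[X]) ^ M ∈ degreeLT ℂ (m + 1) := by
    rw [mem_degreeLT, degree_pow, degree_X_sub_C]
    simp only [nsmul_eq_mul, mul_one]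
    exact_mod_cast Nat.lt_succ_of_le hM
  -- the finitely many real subspaces
  let H : Submodule ℝ N :=
    { carrier := {w | P * starP m (w : degreeLT ℂ (m + 1)) = starP m P * (w : degreeLT ℂ (m + 1))}
      add_mem' := by
        intro a b ha hb
        simp only [Set.mem_ofPred_eq, Submodule.coe_add, starP_add] at *
        rw [mul_add, mul_add, ha, hb]
      zero_mem' := by simp [starP]
      smul_mem' := by
        intro r a ha
        simp only [Set.mem_ofPred_eq, Submodule.coe_smul_of_tower] at *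
        rw [← Complex.coe_smul, starP_smul, Complex.conj_ofReal, mul_smul_comm, mul_smul_comm, ha] }
  let Z : ℂ → Submodule ℝ N := fun z =>
    { carrier := {w | ((w : degreeLT ℂ (m + 1)) : ℂ[X]).eval z = 0}
      add_mem' := by
        intro a b ha hb
        simp only [Set.mem_ofPred_eq, Submodule.coe_add, eval_add] at *
        rw [ha, hb, add_zero]
      zero_mem' := by simp
      smul_mem' := by
        intro r a ha
        simp only [Set.mem_ofPred_eq, Submodule.coe_smul_of_tower] at *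
        rw [← Complex.coe_smul, eval_smul, ha, smul_zero] }
  by_contra hcon
  push Not at hcon
  obtain ⟨w0, hw0, hw0'⟩ := hcon
  let p : Option P.roots.toFinset → Submodule ℝ N := fun o => o.elim H (fun z => Z z)
  have hp : ∀ o : Option P.roots.toFinset, p o ≠ ⊤ := by
    rintro (_ | z) h
    · exact hw0' (show (⟨w0, hw0⟩ : N) ∈ H from (h ▸ Submodule.mem_top : _ ∈ p none))
    · have hz : ∀ w ∈ N, ((w : degreeLT ℂ (m + 1)) : ℂ[X]).eval (z : ℂ) = 0 := fun w hw =>
        show (⟨w, hw⟩ : N) ∈ Z z from (h ▸ Submodule.mem_top : _ ∈ p (some z))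
      have hle : Submodule.span ℂ (N : Set (degreeLT ℂ (m + 1))) ≤
          LinearMap.ker ((leval (z : ℂ)) ∘ₗ (degreeLT ℂ (m + 1)).subtype) := by
        rw [Submodule.span_le]
        intro w hw
        simpa using hz w hw
      have h1 := hle (hN ⟨_, hW⟩ dvd_rfl)
      have h2 : (z : ℂ) = 1 := by
        have : ((z : ℂ) - 1) ^ M = 0 := by simpa using h1
        exact sub_eq_zero.mp (pow_eq_zero_iff (by rintro rfl; simp at this) |>.mp this)
      have h3 := z.2
      rw [Multiset.mem_toFinset, mem_roots hP0, h2] at h3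
      exact hP h3
  obtain ⟨w, hw⟩ := Submodule.exists_forall_notMem_of_forall_ne_top (K := ℝ) (M := N) p hp
  set w' : ℂ[X] := ((w : degreeLT ℂ (m + 1)) : ℂ[X]) with hw'
  have hH : P * starP m w' - starP m P * w' ≠ 0 := fun h => hw none (sub_eq_zero.mp h)
  have hZ : ∀ z, P.eval z = 0 → w'.eval z ≠ 0 := fun z hz h =>
    hw (some ⟨z, by rw [Multiset.mem_toFinset, mem_roots hP0]; exact hz⟩) h
  have hs : ∀ s : ℝ, ∃ z : ℂ, P.eval z + s * w'.eval z = 0 ∧
      (starP m P).eval z + s * (starP m w').eval z = 0 := by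
    intro s
    obtain ⟨z, h1, h2⟩ := hroot (s • (w : degreeLT ℂ (m + 1))) (N.smul_mem s w.2)
    rw [Submodule.coe_smul_of_tower, ← Complex.coe_smul] at h1 h2
    rw [starP_add, starP_smul, Complex.conj_ofReal] at h2
    exact ⟨z, by simpa using h1, by simpa using h2⟩
  choose z hz using hs
  have hmaps : ∀ s, z s ∈ (P * starP m w' - starP m P * w').roots.toFinset := by
    intro s
    rw [Multiset.mem_toFinset, mem_roots hH, IsRoot.def, eval_sub, eval_mul, eval_mul]
    linear_combination (eval (z s) (starP m w')) * (hz s).1 - (eval (z s) w') * (hz s).2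
  obtain ⟨s, t, hst, hzz⟩ := Finite.exists_ne_map_eq_of_infinite
    (fun s : ℝ => (⟨z s, hmaps s⟩ : (P * starP m w' - starP m P * w').roots.toFinset))
  have hzz' : z s = z t := congrArg Subtype.val hzz
  have h1 := (hz s).1
  have h2 := (hz t).1
  rw [← hzz'] at h2
  have h3 : ((s : ℂ) - t) * w'.eval (z s) = 0 := by linear_combination h1 - h2
  have h4 : w'.eval (z s) = 0 :=
    (mul_eq_zero.mp h3).resolve_left (sub_ne_zero.mpr (by exact_mod_cast hst))
  rw [h4, mul_zero, add_zero] at h1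
  exact hZ _ h1 h4

lemma starP_shift {m : ℕ} {P : ℂ[X]} (hP : X * P ∈ degreeLT ℂ (m + 1)) :
    starP m P = X * starP m (X * P) := by
  rw [mem_degreeLT_iff] at hP
  ext i
  rcases i with _ | i
  · rw [coeff_starP, revAt_zero, ← coeff_X_mul, hP _ le_rfl]; simp
  · rw [coeff_X_mul, coeff_starP, coeff_starP]
    congr 1
    rcases lt_trichotomy i m with h | h | h
    · rw [revAt_le h, revAt_le h.le, show m - i = (m - (i + 1)) + 1 by omega, coeff_X_mul]
    · subst h
      rw [revAt_eq_self_of_lt (Nat.lt_succ_self _), revAt_le le_rfl, Nat.sub_self, ← coeff_X_mul,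
        hP _ (by omega)]; simp
    · rw [revAt_eq_self_of_lt (by omega), revAt_eq_self_of_lt h, ← coeff_X_mul, hP _ (by omega),
        hP _ h]

end Pool.Agent.MP_057a77_an

end

-- part MP_057a77_an.Poly1
section

/-!
Even and odd parts of polynomials, and the polynomial form of a refinable function.
-/

namespace Pool.Agent.MP_057a77_an

open Module Function Polynomial Set

/-- even part -/
noncomputable def ev : ℂ[X] →ₗ[ℂ] ℂ[X] where
  toFun := contract 2
  map_add' p q := by ext n; simp [coeff_contract]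
  map_smul' c p := by ext n; simp [coeff_contract]

/-- odd part -/
noncomputable def od : ℂ[X] →ₗ[ℂ] ℂ[X] where
  toFun p := contract 2 (divX p)
  map_add' p q := by ext n; simp [coeff_contract]
  map_smul' c p := by ext n; simp [coeff_contract]

lemma coeff_ev (p : ℂ[X]) (n : ℕ) : (ev p).coeff n = p.coeff (n * 2) := coeff_contract two_ne_zero p n

lemma coeff_od (p : ℂ[X]) (n : ℕ) : (od p).coeff n = p.coeff (n * 2 + 1) := by
  show (contract 2 (divX p)).coeff n = _
  rw [coeff_contract two_ne_zero, coeff_divX]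

lemma coeff_comb_even (A B : ℂ[X]) (n : ℕ) :
    (expand ℂ 2 A + X * expand ℂ 2 B).coeff (n * 2) = A.coeff n := by
  rw [coeff_add, coeff_expand_mul two_pos]
  rcases n with _ | n
  · simp
  · rw [show (n + 1) * 2 = (n * 2 + 1) + 1 by ring, coeff_X_mul, coeff_expand two_pos,
      if_neg (by omega), add_zero]

lemma coeff_comb_odd (A B : ℂ[X]) (n : ℕ) :
    (expand ℂ 2 A + X * expand ℂ 2 B).coeff (n * 2 + 1) = B.coeff n := by
  rw [coeff_add, coeff_X_mul, coeff_expand_mul two_pos, coeff_expand two_pos, if_neg (by omega),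
    zero_add]

lemma ev_comb (A B : ℂ[X]) : ev (expand ℂ 2 A + X * expand ℂ 2 B) = A := by
  ext n; rw [coeff_ev, coeff_comb_even]

lemma od_comb (A B : ℂ[X]) : od (expand ℂ 2 A + X * expand ℂ 2 B) = B := by
  ext n; rw [coeff_od, coeff_comb_odd]

lemma ev_od_decomp (p : ℂ[X]) : p = expand ℂ 2 (ev p) + X * expand ℂ 2 (od p) := by
  ext n
  rcases Nat.even_or_odd' n with ⟨k, rfl | rfl⟩
  · rw [mul_comm 2 k, coeff_comb_even, coeff_ev]
  · rw [mul_comm 2 k, coeff_comb_odd, coeff_od]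

lemma ev_expand_mul (R p : ℂ[X]) : ev (expand ℂ 2 R * p) = R * ev p := by
  conv_lhs => rw [ev_od_decomp p]
  rw [show expand ℂ 2 R * (expand ℂ 2 (ev p) + X * expand ℂ 2 (od p)) =
    expand ℂ 2 (R * ev p) + X * expand ℂ 2 (R * od p) by simp only [map_mul]; ring, ev_comb]

lemma od_expand_mul (R p : ℂ[X]) : od (expand ℂ 2 R * p) = R * od p := by
  conv_lhs => rw [ev_od_decomp p]
  rw [show expand ℂ 2 R * (expand ℂ 2 (ev p) + X * expand ℂ 2 (od p)) =
    expand ℂ 2 (R * ev p) + X * expand ℂ 2 (R * od p) by simp only [map_mul]; ring, od_comb]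

lemma od_X_mul (p : ℂ[X]) : od (X * p) = ev p := by
  ext n; rw [coeff_od, coeff_ev, coeff_X_mul]

lemma expand_comp_neg (A : ℂ[X]) : (expand ℂ 2 A).comp (-X) = expand ℂ 2 A := by
  rw [expand_eq_comp_X_pow, Polynomial.comp_assoc]; simp

lemma comp_neg_neg (A : ℂ[X]) : (A.comp (-X)).comp (-X) = A := by
  rw [Polynomial.comp_assoc]; simp

lemma dvd_of_od_eq_zero {D H : ℂ[X]} (hc : IsCoprime (D.comp (-X)) D) (h : od (D * H) = 0) :
    D.comp (-X) ∣ H := by
  have e := ev_od_decomp (D * H)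
  rw [h, map_zero, mul_zero, add_zero] at e
  have e2 : (D * H).comp (-X) = D * H := by rw [e, expand_comp_neg]
  rw [mul_comp] at e2
  exact hc.dvd_of_dvd_mul_left ⟨_, e2.symm⟩

lemma dvd_of_ev_eq_zero {D H : ℂ[X]} (hc : IsCoprime (D.comp (-X)) D) (h : ev (D * H) = 0) :
    D.comp (-X) ∣ H := by
  have e := ev_od_decomp (D * H)
  rw [h, map_zero, zero_add] at e
  have e2 : (D * H).comp (-X) = -(D * H) := by
    rw [e, mul_comp, expand_comp_neg, X_comp]; ring
  rw [mul_comp] at e2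
  exact hc.dvd_of_dvd_mul_left ⟨-H.comp (-X), by linear_combination e2⟩

lemma dyadic_ind {Z : Set ℝ} (hc : IsClosed Z) {s : ℝ} (hs : s ∈ Z) (hs' : s ∈ Icc (0 : ℝ) 1)
    (h0 : ∀ t ∈ Z, t ∈ Icc (0 : ℝ) 1 → t / 2 ∈ Z)
    (h1 : ∀ t ∈ Z, t ∈ Icc (0 : ℝ) 1 → (t + 1) / 2 ∈ Z) : ∀ t ∈ Icc (0 : ℝ) 1, t ∈ Z := by
  have key : ∀ n : ℕ, ∀ t ∈ Icc (0 : ℝ) 1, ∃ u ∈ Z, u ∈ Icc (0 : ℝ) 1 ∧ |t - u| ≤ (1 / 2) ^ n := by
    intro n
    induction n with
    | zero =>
      intro t ht
      refine ⟨s, hs, hs', ?_⟩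
      rw [pow_zero, abs_le]; constructor <;> linarith [ht.1, ht.2, hs'.1, hs'.2]
    | succ n ih =>
      intro t ht
      rcases le_total t (1 / 2) with h | h
      · obtain ⟨u, hu, hu', hd⟩ := ih (2 * t) ⟨by linarith [ht.1], by linarith⟩
        refine ⟨u / 2, h0 u hu hu', ⟨by linarith [hu'.1], by linarith [hu'.2]⟩, ?_⟩
        rw [abs_le] at *
        rw [pow_succ]; constructor <;> linarith [hd.1, hd.2]
      · obtain ⟨u, hu, hu', hd⟩ := ih (2 * t - 1) ⟨by linarith, by linarith [ht.2]⟩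
        refine ⟨(u + 1) / 2, h1 u hu hu', ⟨by linarith [hu'.1], by linarith [hu'.2]⟩, ?_⟩
        rw [abs_le] at *
        rw [pow_succ]; constructor <;> linarith [hd.1, hd.2]
  intro t ht
  rw [← hc.closure_eq, Metric.mem_closure_iff]
  intro ε hε
  obtain ⟨n, hn⟩ := exists_pow_lt_of_lt_one hε (show (1 / 2 : ℝ) < 1 by norm_num)
  obtain ⟨u, hu, -, hd⟩ := key n t ht
  exact ⟨u, hu, by rw [Real.dist_eq]; exact hd.trans_lt hn⟩

lemma half_mem {t : ℝ} (ht : t ∈ Icc (0 : ℝ) 1) : t / 2 ∈ Icc (0 : ℝ) 1 :=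
  ⟨by linarith [ht.1], by linarith [ht.2]⟩

lemma half_mem' {t : ℝ} (ht : t ∈ Icc (0 : ℝ) 1) : (t + 1) / 2 ∈ Icc (0 : ℝ) 1 :=
  ⟨by linarith [ht.1], by linarith [ht.2]⟩

lemma zero_mem01 : (0 : ℝ) ∈ Icc (0 : ℝ) 1 := ⟨le_rfl, zero_le_one⟩
lemma one_mem01 : (1 : ℝ) ∈ Icc (0 : ℝ) 1 := ⟨zero_le_one, le_rfl⟩

/-- a family of linear functionals vanishing at one point of a curve and propagating -/
lemma dyadic_ind_fun {P : ℝ → ℂ[X]}
    (cont : ∀ ℓ : ℂ[X] →ₗ[ℂ] ℂ, ContinuousOn (fun t => ℓ (P t)) (Icc 0 1))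
    (U : Submodule ℂ ℂ[X]) {s : ℝ} (hs' : s ∈ Icc (0 : ℝ) 1) (hs : P s ∈ U)
    (h0 : ∀ t ∈ Icc (0 : ℝ) 1, P t ∈ U → P (t / 2) ∈ U)
    (h1 : ∀ t ∈ Icc (0 : ℝ) 1, P t ∈ U → P ((t + 1) / 2) ∈ U) :
    ∀ t ∈ Icc (0 : ℝ) 1, P t ∈ U := by
  have hc : IsClosed {t | t ∈ Icc (0 : ℝ) 1 ∧ P t ∈ U} := by
    have : {t | t ∈ Icc (0 : ℝ) 1 ∧ P t ∈ U} =
        Icc (0 : ℝ) 1 ∩ ⋂ ℓ ∈ U.dualAnnihilator, (Icc (0 : ℝ) 1 ∩ (fun t => ℓ (P t)) ⁻¹' {0}) := by
      ext t
      simp only [mem_ofPred_eq, mem_inter_iff, mem_iInter, mem_preimage, mem_singleton_iff]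
      rw [← Subspace.forall_mem_dualAnnihilator_apply_eq_zero_iff]
      exact ⟨fun h => ⟨h.1, fun ℓ hℓ => ⟨h.1, h.2 ℓ hℓ⟩⟩, fun h => ⟨h.1, fun ℓ hℓ => (h.2 ℓ hℓ).2⟩⟩
    rw [this]
    exact isClosed_Icc.inter (isClosed_biInter fun ℓ _ =>
      (cont ℓ).preimage_isClosed_of_isClosed isClosed_Icc isClosed_singleton)
  intro t ht
  exact (dyadic_ind hc ⟨hs', hs⟩ hs' (fun t h ht => ⟨half_mem ht, h0 t ht h.2⟩)
    (fun t h ht => ⟨half_mem' ht, h1 t ht h.2⟩) t ht).2

/-- polynomial form of a refinable function with linearly independent shifts -/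
structure PolyData where
  m : ℕ
  D : ℂ[X]
  P : ℝ → ℂ[X]
  deg : ∀ t ∈ Icc (0 : ℝ) 1, P t ∈ degreeLT ℂ (m + 1)
  cont : ∀ ℓ : ℂ[X] →ₗ[ℂ] ℂ, ContinuousOn (fun t => ℓ (P t)) (Icc 0 1)
  shift : P 0 = X * P 1
  ref : ∀ t ∈ Icc (0 : ℝ) 1, D * P t = expand ℂ 2 (P (t / 2)) + X * expand ℂ 2 (P ((t + 1) / 2))
  nocommon : ∀ r : ℂ, ∃ t ∈ Icc (0 : ℝ) 1, (P t).eval r ≠ 0
  top : ∃ t ∈ Icc (0 : ℝ) 1, (P t).coeff m ≠ 0

namespace PolyData

variable (A : PolyData)

lemma ev_P {t : ℝ} (ht : t ∈ Icc (0 : ℝ) 1) : ev (A.D * A.P t) = A.P (t / 2) := by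
  rw [A.ref t ht, ev_comb]

lemma od_P {t : ℝ} (ht : t ∈ Icc (0 : ℝ) 1) : od (A.D * A.P t) = A.P ((t + 1) / 2) := by
  rw [A.ref t ht, od_comb]

lemma natDegree_D_le : A.D.natDegree ≤ A.m + 1 := by
  obtain ⟨t, ht, hc⟩ := A.top
  by_cases hD : A.D = 0
  · simp [hD]
  have hP : A.P t ≠ 0 := by rintro h; simp [h] at hc
  have h1 : A.m ≤ (A.P t).natDegree := le_natDegree_of_ne_zero hc
  have h2 : (A.D * A.P t).natDegree ≤ 2 * A.m + 1 := by
    rw [natDegree_le_iff_coeff_eq_zero]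
    intro n hn
    rcases Nat.even_or_odd' n with ⟨k, rfl | rfl⟩
    · rw [mul_comm 2 k, ← coeff_ev, A.ev_P ht]
      exact mem_degreeLT_iff.mp (A.deg _ (half_mem ht)) _ (by omega)
    · rw [mul_comm 2 k, ← coeff_od, A.od_P ht]
      exact mem_degreeLT_iff.mp (A.deg _ (half_mem' ht)) _ (by omega)
  rw [natDegree_mul hD hP] at h2
  omega

lemma natDegree_D : A.D.natDegree = A.m + 1 := by
  refine le_antisymm A.natDegree_D_le ?_
  by_contra hlt
  have hD : A.D.natDegree ≤ A.m := by omega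
  obtain ⟨t, ht, hc⟩ := A.top
  have h1 : ∀ t ∈ Icc (0 : ℝ) 1, (A.P ((t + 1) / 2)).coeff A.m = 0 := by
    intro t ht
    rw [← A.od_P ht, coeff_od]
    apply coeff_eq_zero_of_natDegree_lt
    have := natDegree_mul_le (p := A.D) (q := A.P t)
    have := natDegree_le_of_mem (A.deg t ht)
    omega
  refine hc (dyadic_ind_fun A.cont (LinearMap.ker (lcoeff ℂ A.m)) one_mem01 ?_ ?_ ?_ t ht)
  · have := h1 1 one_mem01
    norm_num at this
    exact this
  · intro t ht h
    rw [LinearMap.mem_ker, lcoeff_apply] at *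
    rw [← A.ev_P ht, coeff_ev, mul_two,
      coeff_mul_add_eq_of_natDegree_le hD (natDegree_le_of_mem (A.deg t ht)), h, mul_zero]
  · intro t ht _
    exact h1 t ht

lemma D_ne_zero : A.D ≠ 0 := by
  intro h
  have := A.natDegree_D
  rw [h, natDegree_zero] at this
  omega

lemma no_symm (r : ℂ) : ¬ (A.D.eval r = 0 ∧ A.D.eval (-r) = 0) := by
  rintro ⟨h1, h2⟩
  have e : ∀ t ∈ Icc (0 : ℝ) 1, ∀ z : ℂ, A.D.eval z * (A.P t).eval z =
      (A.P (t / 2)).eval (z ^ 2) + z * (A.P ((t + 1) / 2)).eval (z ^ 2) := by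
    intro t ht z
    have := congrArg (Polynomial.eval z) (A.ref t ht)
    simpa [expand_eval] using this
  have e0 : ∀ t ∈ Icc (0 : ℝ) 1, (A.P (t / 2)).eval (r ^ 2) = 0 := by
    intro t ht
    have a1 := e t ht r
    have a2 := e t ht (-r)
    rw [h1, zero_mul] at a1
    rw [h2, zero_mul, neg_sq] at a2
    linear_combination (-1 / 2 : ℂ) * a1 + (-1 / 2 : ℂ) * a2
  obtain ⟨t, ht, hc⟩ := A.nocommon (r ^ 2)
  refine hc (dyadic_ind_fun A.cont (LinearMap.ker (leval (r ^ 2))) zero_mem01 ?_ ?_ ?_ t ht)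
  · simpa using e0 0 zero_mem01
  · intro t ht _
    simpa using e0 t ht
  · intro t ht h
    rw [LinearMap.mem_ker, leval_apply] at *
    by_cases hr : r = 0
    · subst hr
      rw [zero_pow two_ne_zero] at *
      simp only [← coeff_zero_eq_eval_zero] at *
      rw [← A.od_P ht, coeff_od, zero_mul, zero_add, coeff_mul, Finset.Nat.antidiagonal_succ]
      simp [h, h1]
    · have a1 := e t ht r
      rw [h1, zero_mul, e0 t ht, zero_add] at a1
      simpa [hr] using a1.symm

/-- the polynomial `D (-z)` -/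
noncomputable def χ : ℂ[X] := A.D.comp (-X)

lemma coprime : IsCoprime A.χ A.D := by
  rw [isCoprime_iff_aeval_ne_zero_of_isAlgClosed (k := ℂ) ℂ]
  intro a
  simp only [coe_aeval_eq_eval, χ, eval_comp, eval_neg, eval_X]
  by_contra h
  push Not at h
  exact A.no_symm a ⟨h.2, h.1⟩

lemma natDegree_χ : A.χ.natDegree = A.m + 1 := by
  rw [χ, natDegree_comp, natDegree_neg, natDegree_X, mul_one, A.natDegree_D]

lemma χ_ne_zero : A.χ ≠ 0 := by
  intro h
  have := A.natDegree_χ
  rw [h, natDegree_zero] at this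
  omega

lemma eq_zero_of_χ_dvd {p : ℂ[X]} (hp : p ∈ degreeLT ℂ (A.m + 1)) (h : A.χ ∣ p) : p = 0 := by
  refine eq_zero_of_dvd_of_degree_lt h ?_
  rw [degree_eq_natDegree A.χ_ne_zero, A.natDegree_χ]
  exact mem_degreeLT.mp hp

/-- the space of polynomials of degree at most `m` -/
noncomputable abbrev V := degreeLT ℂ (A.m + 1)

lemma coeff_D_mul {p : ℂ[X]} (hp : p ∈ A.V) {n : ℕ} (hn : 2 * A.m + 1 < n) :
    (A.D * p).coeff n = 0 := by
  apply coeff_eq_zero_of_natDegree_lt
  have := natDegree_mul_le (p := A.D) (q := p)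
  have := natDegree_le_of_mem hp
  have := A.natDegree_D
  omega

/-- first transfer operator -/
noncomputable def T0 : End ℂ A.V where
  toFun p := ⟨ev (A.D * p), mem_degreeLT_iff.mpr fun i hi => by
    rw [coeff_ev]; exact A.coeff_D_mul p.2 (by omega)⟩
  map_add' p q := Subtype.ext (by simp [mul_add])
  map_smul' c p := Subtype.ext (by simp)

/-- second transfer operator -/
noncomputable def T1 : End ℂ A.V where
  toFun p := ⟨od (A.D * p), mem_degreeLT_iff.mpr fun i hi => by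
    rw [coeff_od]; exact A.coeff_D_mul p.2 (by omega)⟩
  map_add' p q := Subtype.ext (by simp [mul_add])
  map_smul' c p := Subtype.ext (by simp)

lemma T0_coe (p : A.V) : (A.T0 p : ℂ[X]) = ev (A.D * p) := rfl
lemma T1_coe (p : A.V) : (A.T1 p : ℂ[X]) = od (A.D * p) := rfl

lemma T0_inj : Injective A.T0 := by
  rw [← LinearMap.ker_eq_bot, LinearMap.ker_eq_bot']
  intro p hp
  exact Subtype.ext (A.eq_zero_of_χ_dvd p.2
    (dvd_of_ev_eq_zero A.coprime (congrArg Subtype.val hp)))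

lemma T1_inj : Injective A.T1 := by
  rw [← LinearMap.ker_eq_bot, LinearMap.ker_eq_bot']
  intro p hp
  exact Subtype.ext (A.eq_zero_of_χ_dvd p.2
    (dvd_of_od_eq_zero A.coprime (congrArg Subtype.val hp)))

instance : FiniteDimensional ℂ A.V := Module.Finite.of_basis (degreeLT.basis ℂ (A.m + 1))

lemma isUnit_T0 : IsUnit A.T0 :=
  (End.isUnit_iff _).mpr ⟨A.T0_inj, LinearMap.injective_iff_surjective.mp A.T0_inj⟩

lemma isUnit_T1 : IsUnit A.T1 :=
  (End.isUnit_iff _).mpr ⟨A.T1_inj, LinearMap.injective_iff_surjective.mp A.T1_inj⟩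

end PolyData

end Pool.Agent.MP_057a77_an

end

-- part MP_057a77_an.Core1
section

/-!
The abstract setting: two invertible maps with a chain of invariant subspaces, and the real Lie
algebra stabilising the multilinear forms that vanish on an invariant set.
-/

namespace Pool.Agent.MP_057a77_an

open Module Function

/-- abstract data -/
structure Setup (V : Type*) [AddCommGroup V] [Module ℂ V] where
  T0 : (End ℂ V)ˣ
  T1 : (End ℂ V)ˣ
  W : ℕ → Submodule ℂ V
  M : ℕ
  P0 : V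
  K : Set V
  M_pos : 1 ≤ M
  W_zero : W 0 = ⊤
  W_anti : ∀ j, W (j + 1) ≤ W j
  W_ne : W M ≠ ⊥
  inv0 : ∀ j ≤ M, ∀ v ∈ W j, (T0 : End ℂ V) v ∈ W j
  inv1 : ∀ j ≤ M, ∀ v ∈ W j, (T1 : End ℂ V) v ∈ W j
  hmin : ∀ U : Submodule ℂ V, (∀ v ∈ U, (T0 : End ℂ V) v ∈ U) → (∀ v ∈ U, (T1 : End ℂ V) v ∈ U) →
    U ≠ ⊥ → W M ≤ U
  hmax : ∀ U : Submodule ℂ V, (∀ v ∈ U, (T0 : End ℂ V) v ∈ U) → (∀ v ∈ U, (T1 : End ℂ V) v ∈ U) →
    ¬ U ≤ W 1 → U = ⊤
  hS : ∀ j < M, ∀ v ∈ W j, ((T1⁻¹ * T0 : (End ℂ V)ˣ) : End ℂ V) v - v ∈ W (j + 1)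
  hS' : ∀ i, i + 2 ≤ M → ∀ v, ((T1⁻¹ * T0 : (End ℂ V)ˣ) : End ℂ V) v - v ∈ W (i + 2) →
    v ∈ W (i + 1)
  hcodim : ∀ j < M, ∀ e ∈ W j, e ∉ W (j + 1) → ∀ v ∈ W j, ∃ c : ℂ, v - c • e ∈ W (j + 1)
  hSW : ∀ w ∈ W M, ((T1⁻¹ * T0 : (End ℂ V)ˣ) : End ℂ V) w = w → w = 0
  hP0 : (T0 : End ℂ V) P0 = P0
  hP0' : P0 ∉ W 1
  hcontr : ∀ w ∈ W 1, w ≠ 0 → ∀ μ : ℂ, (T0 : End ℂ V) w = μ • w → ‖μ‖ < 1
  K0 : ∀ q ∈ K, (T0 : End ℂ V) q ∈ K
  K1 : ∀ q ∈ K, (T1 : End ℂ V) q ∈ K

variable {V : Type*} [AddCommGroup V] [Module ℂ V] {ι : Type*} [Fintype ι] [DecidableEq ι]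

namespace Setup

variable (A : Setup V) (C : Conj V) (b : ι → Bool)

lemma W_le {i j : ℕ} (h : i ≤ j) : A.W j ≤ A.W i := antitone_nat_of_succ_le A.W_anti h

/-- the unit `T1⁻¹ T0` -/
abbrev S : (End ℂ V)ˣ := A.T1⁻¹ * A.T0

/-- units preserving the flag and the vanishing forms -/
def Good (u : (End ℂ V)ˣ) : Prop :=
  (∀ j ≤ A.M, ∀ v ∈ A.W j, (u : End ℂ V) v ∈ A.W j) ∧
    ∀ F ∈ C.van b A.K, pull (C.σ b u) F ∈ C.van b A.K

omit [Fintype ι] [DecidableEq ι] in
lemma good_T0 : A.Good C b A.T0 :=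
  ⟨A.inv0, fun F hF q hq => by rw [C.pull_σ_τ]; exact hF _ (A.K0 q hq)⟩

omit [Fintype ι] [DecidableEq ι] in
lemma good_T1 : A.Good C b A.T1 :=
  ⟨A.inv1, fun F hF q hq => by rw [C.pull_σ_τ]; exact hF _ (A.K1 q hq)⟩

omit [Fintype ι] [DecidableEq ι] in
lemma pull_σ_mul (X Y : End ℂ V) : pull (C.σ b X) * pull (C.σ b Y) = pull (C.σ b (Y * X)) := by
  rw [pull_mul]; congr 1; funext i; rw [C.σ_mul]

omit [Fintype ι] [DecidableEq ι] in
lemma pull_σ_one : pull (C.σ b (1 : End ℂ V)) = 1 := by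
  rw [← pull_one]; congr 1; funext i; rw [C.σ_one]

variable {A C b}

omit [Fintype ι] [DecidableEq ι] in
lemma Good.mul {u u' : (End ℂ V)ˣ} (h : A.Good C b u) (h' : A.Good C b u') :
    A.Good C b (u * u') := by
  refine ⟨fun j hj v hv => h.1 j hj _ (h'.1 j hj v hv), fun F hF => ?_⟩
  rw [Units.val_mul, ← pull_σ_mul, End.mul_apply]
  exact h'.2 _ (h.2 F hF)

omit [Fintype ι] [DecidableEq ι] in
lemma Good.pow {u : (End ℂ V)ˣ} (h : A.Good C b u) (k : ℕ) : A.Good C b (u ^ k) := by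
  induction k with
  | zero =>
    refine ⟨fun j _ v hv => by simpa using hv, fun F hF => ?_⟩
    rw [pow_zero, Units.val_one, pull_σ_one]; exact hF
  | succ k ih => rw [pow_succ]; exact ih.mul h

variable [FiniteDimensional ℂ V]

omit [DecidableEq ι] in
lemma Good.inv {u : (End ℂ V)ˣ} (h : A.Good C b u) : A.Good C b u⁻¹ := by
  refine ⟨fun j hj => inv_mapsTo (Units.inv_mul u) (h.1 j hj), ?_⟩
  refine inv_mapsTo (A := pull (C.σ b u)) ?_ h.2
  rw [pull_σ_mul, Units.mul_inv, pull_σ_one]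

variable (A C b)

omit [DecidableEq ι] in
lemma good_S : A.Good C b A.S := (A.good_T1 C b).inv.mul (A.good_T0 C b)

/-- the real Lie algebra -/
def lie : Submodule ℝ (End ℂ V) where
  carrier := {X | (∀ j ≤ A.M, ∀ v ∈ A.W j, X v ∈ A.W j) ∧ (∀ v, X v ∈ A.W 1) ∧
    ∀ F ∈ C.van b A.K, der (C.σ b X) F ∈ C.van b A.K}
  add_mem' := by
    rintro X Y ⟨h1, h2, h3⟩ ⟨k1, k2, k3⟩
    refine ⟨fun j hj v hv => (A.W j).add_mem (h1 j hj v hv) (k1 j hj v hv),
      fun v => (A.W 1).add_mem (h2 v) (k2 v), fun F hF => ?_⟩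
    rw [C.σ_add, der_add]
    exact Submodule.add_mem _ (h3 F hF) (k3 F hF)
  zero_mem' := by
    refine ⟨fun j _ v _ => (A.W j).zero_mem, fun v => (A.W 1).zero_mem, fun F _ => ?_⟩
    have : C.σ b (0 : End ℂ V) = fun _ => 0 := funext (C.σ_zero b)
    rw [this, der_zero]; exact Submodule.zero_mem _
  smul_mem' := by
    rintro r X ⟨h1, h2, h3⟩
    rw [← Complex.coe_smul]
    refine ⟨fun j hj v hv => (A.W j).smul_mem _ (h1 j hj v hv),
      fun v => (A.W 1).smul_mem _ (h2 v), fun F hF => ?_⟩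
    rw [C.σ_smul, der_smul]
    exact Submodule.smul_mem _ _ (h3 F hF)

variable {A C b}

omit [FiniteDimensional ℂ V] in
lemma lie_bracket {X Y : End ℂ V} (hX : X ∈ A.lie C b) (hY : Y ∈ A.lie C b) :
    X * Y - Y * X ∈ A.lie C b := by
  obtain ⟨h1, h2, h3⟩ := hX
  obtain ⟨k1, k2, k3⟩ := hY
  refine ⟨fun j hj v hv => (A.W j).sub_mem (h1 j hj _ (k1 j hj v hv)) (k1 j hj _ (h1 j hj v hv)),
    fun v => (A.W 1).sub_mem (h2 _) (k2 _), fun F hF => ?_⟩
  have : C.σ b (X * Y - Y * X) = fun i => C.σ b X i * C.σ b Y i - C.σ b Y i * C.σ b X i := by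
    funext i; rw [C.σ_sub, C.σ_mul, C.σ_mul]
  rw [this, der_lie]
  exact Submodule.sub_mem _ (k3 _ (h3 F hF)) (h3 _ (k3 F hF))

lemma lie_Ad {u : (End ℂ V)ˣ} (hu : A.Good C b u) {X : End ℂ V} (hX : X ∈ A.lie C b) :
    (u : End ℂ V) * X * (u⁻¹ : (End ℂ V)ˣ) ∈ A.lie C b := by
  obtain ⟨h1, h2, h3⟩ := hX
  refine ⟨fun j hj v hv => hu.1 j hj _ (h1 j hj _ (hu.inv.1 j hj v hv)),
    fun v => hu.1 1 A.M_pos _ (h2 _), fun F hF => ?_⟩
  have e : pull (C.σ b ((u⁻¹ : (End ℂ V)ˣ) : End ℂ V)) * der (C.σ b X) =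
      der (C.σ b ((u : End ℂ V) * X * (u⁻¹ : (End ℂ V)ˣ))) *
        pull (C.σ b ((u⁻¹ : (End ℂ V)ˣ) : End ℂ V)) := by
    apply pull_mul_der
    intro i
    rw [← C.σ_mul, ← C.σ_mul, ← mul_assoc, ← mul_assoc, Units.inv_mul, one_mul]
  have e2 : F = pull (C.σ b ((u⁻¹ : (End ℂ V)ˣ) : End ℂ V)) (pull (C.σ b u) F) := by
    rw [← End.mul_apply, pull_σ_mul, Units.mul_inv, pull_σ_one, End.one_apply]
  rw [e2, ← End.mul_apply, ← e, End.mul_apply]
  exact hu.inv.2 _ (h3 _ (hu.2 F hF))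

lemma lie_replica {X Y : End ℂ V} (hX : X ∈ A.lie C b) (h : IsReplica X (starRingEnd ℂ) Y) :
    Y ∈ A.lie C b := by
  obtain ⟨h1, h2, h3⟩ := hX
  refine ⟨fun j hj => h.mapsTo (h1 j hj), h.range_le (a := 0) (by simpa using h2) (by simp), ?_⟩
  have := der_replica (X := C.σ b X) (Y := C.σ b Y) (starRingEnd ℂ).toAddMonoidHom
    (C.σ_replica b h (fun _ => rfl))
  exact this.mapsTo h3

omit [FiniteDimensional ℂ V] in
lemma T0_sub_mem (v : V) : (A.T0 : End ℂ V) v - (1 : ℂ) • v ∈ A.W 1 := by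
  obtain ⟨c, hc⟩ := A.hcodim 0 A.M_pos A.P0 (by simp [A.W_zero]) A.hP0' v (by simp [A.W_zero])
  have := (A.W 1).sub_mem (A.inv0 1 A.M_pos _ hc) hc
  rw [map_sub, map_smul, A.hP0] at this
  simpa using this

lemma lie_log {Y : End ℂ V} (h : IsReplica (A.T0 : End ℂ V) (fun μ => (Real.log ‖μ‖ : ℂ)) Y) :
    Y ∈ A.lie C b := by
  refine ⟨fun j hj => h.mapsTo (A.inv0 j hj), h.range_le (a := 1) T0_sub_mem (by simp), ?_⟩
  have := pull_replica (g := C.σ b A.T0) (g' := C.σ b (A.T0⁻¹ : (End ℂ V)ˣ)) (Y := C.σ b Y)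
    (fun i => by rw [← C.σ_mul, Units.mul_inv, C.σ_one]) (f := fun μ => (Real.log ‖μ‖ : ℂ))
    (by simp) (fun x y hx hy => by
      rw [norm_mul, Real.log_mul (norm_ne_zero_iff.mpr hx) (norm_ne_zero_iff.mpr hy)]; simp)
    (C.σ_replica b h (fun μ => by simp))
  exact this.mapsTo (A.good_T0 C b).2

omit [FiniteDimensional ℂ V] in
/-- square-zero elements of the Lie algebra integrate to maps preserving the vanishing forms -/
lemma van_add {X : End ℂ V} (hX : X ∈ A.lie C b) (h2 : X * X = 0) {q : V} (hq : q ∈ A.K)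
    {F : MF ι V} (hF : F ∈ C.van b A.K) : F (C.τ b (q + X q)) = 0 := by
  have := pull_one_add_mapsTo (X := C.σ b X) (fun i => by rw [← C.σ_mul, h2, C.σ_zero])
    hX.2.2 F hF q hq
  have e : (fun i => 1 + C.σ b X i) = C.σ b (1 + X) := by
    rw [C.σ_add]; funext i; rw [C.σ_one]
  rw [e, C.pull_σ_τ] at this
  simpa using this

end Setup

end Pool.Agent.MP_057a77_an

end
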