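import Pool.Agent.MP_057a77_an.Mg.Core1
import Pool.Agent.MP_057a77_an.Defs

-- part MP_057a77_an.Core2
section

/-!
The trace form argument: the Lie algebra contains a nonzero element killing the minimal
invariant subspace.
-/

namespace Pool.Agent.MP_057a77_an

open Module Function

variable {V : Type*} [AddCommGroup V] [Module ℂ V] {ι : Type*} [Fintype ι] [DecidableEq ι]

/-- restriction to a subspace with a chosen projection -/
noncomputable def res (W : Submodule ℂ V) (π : V →ₗ[ℂ] W) : End ℂ V →ₗ[ℂ] End ℂ W where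
  toFun X := π ∘ₗ X ∘ₗ W.subtype
  map_add' X Y := by ext v; simp
  map_smul' c X := by ext v; simp

section res

variable {W : Submodule ℂ V} {π : V →ₗ[ℂ] W}

lemma res_apply (hπ : ∀ w : W, π w = w) {X : End ℂ V} (hX : ∀ v ∈ W, X v ∈ W) (w : W) :
    (res W π X w : V) = X w := by
  have := hπ ⟨X w, hX w w.2⟩
  exact congrArg Subtype.val this

lemma res_mul (hπ : ∀ w : W, π w = w) (X : End ℂ V) {Y : End ℂ V} (hY : ∀ v ∈ W, Y v ∈ W) :
    res W π (X * Y) = res W π X * res W π Y := by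
  ext1 w
  show π (X (Y w)) = π (X (res W π Y w))
  rw [res_apply hπ hY]

lemma res_one (hπ : ∀ w : W, π w = w) : res W π 1 = 1 := by
  ext1 w; exact hπ w

lemma res_eigen (hπ : ∀ w : W, π w = w) {X : End ℂ V} (hX : ∀ v ∈ W, X v ∈ W) {w : W} {μ : ℂ}
    (h : res W π X w = μ • w) : X w = μ • (w : V) := by
  rw [← res_apply hπ hX, h]; rfl

lemma res_eq_of (hπ : ∀ w : W, π w = w) {X : End ℂ V} {w : W} {μ : ℂ}
    (h : X w = μ • (w : V)) : res W π X w = μ • w := by
  show π (X w) = _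
  rw [h, map_smul, hπ]

end res

namespace Setup

variable {A : Setup V} {C : Conj V} {b : ι → Bool} [FiniteDimensional ℂ V]

theorem exists_kill : ∃ X ∈ A.lie C b, X ≠ 0 ∧ ∀ w ∈ A.W A.M, X w = 0 := by
  by_contra hcon
  push Not at hcon
  have hz : ∀ X ∈ A.lie C b, (∀ w ∈ A.W A.M, X w = 0) → X = 0 := by
    intro X hX h
    by_contra h0
    obtain ⟨w, hw, hw'⟩ := hcon X hX h0
    exact hw' (h w hw)
  clear hcon
  set W := A.W A.M with hW
  obtain ⟨π, hπ'⟩ := W.subtype.exists_leftInverse_of_injective W.ker_subtype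
  have hπ : ∀ w : W, π w = w := fun w => congrArg (fun L : W →ₗ[ℂ] W => L w) hπ'
  have hnt : Nontrivial W := Submodule.nontrivial_iff_ne_bot.mpr A.W_ne
  have pres : ∀ X ∈ A.lie C b, ∀ v ∈ W, X v ∈ W := fun X hX => hX.1 A.M le_rfl
  let tr : End ℂ V → ℝ := fun X => (LinearMap.trace ℂ W (res W π X)).re
  have tr_add : ∀ X Y, tr (X + Y) = tr X + tr Y := by intro X Y; simp [tr]
  have tr_sub : ∀ X Y, tr (X - Y) = tr X - tr Y := by intro X Y; simp [tr]
  have tr_smul : ∀ (r : ℝ) X, tr ((r : ℂ) • X) = r * tr X := by intro r X; simp [tr]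
  have tr_comm : ∀ X Y : End ℂ V, (∀ v ∈ W, X v ∈ W) → (∀ v ∈ W, Y v ∈ W) →
      tr (X * Y) = tr (Y * X) := by
    intro X Y hX hY
    simp only [tr]
    rw [res_mul hπ X hY, res_mul hπ Y hX, LinearMap.trace_mul_comm]
  have pmul : ∀ X Y : End ℂ V, (∀ v ∈ W, X v ∈ W) → (∀ v ∈ W, Y v ∈ W) →
      ∀ v ∈ W, (X * Y) v ∈ W := fun X Y hX hY v hv => hX _ (hY v hv)
  have tr_Ad : ∀ u : (End ℂ V)ˣ, A.Good C b u → ∀ X : End ℂ V, (∀ v ∈ W, X v ∈ W) →
      tr ((u : End ℂ V) * X * (u⁻¹ : (End ℂ V)ˣ)) = tr X := by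
    intro u hu X hX
    rw [tr_comm _ _ (pmul _ _ (hu.1 A.M le_rfl) hX) (hu.inv.1 A.M le_rfl), ← mul_assoc,
      Units.inv_mul, one_mul]
  -- the radical of the trace form
  let R : Set (End ℂ V) := {X | X ∈ A.lie C b ∧ ∀ Y ∈ A.lie C b, tr (X * Y) = 0}
  have R_Ad : ∀ u : (End ℂ V)ˣ, A.Good C b u → ∀ X ∈ R,
      (u : End ℂ V) * X * (u⁻¹ : (End ℂ V)ˣ) ∈ R := by
    intro u hu X hX
    refine ⟨lie_Ad hu hX.1, fun Y hY => ?_⟩
    have h1 := lie_Ad hu.inv hY
    have e : (u : End ℂ V) * X * (u⁻¹ : (End ℂ V)ˣ) * Y =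
        (u : End ℂ V) * (X * (((u⁻¹ : (End ℂ V)ˣ) : End ℂ V) * Y * (u⁻¹⁻¹ : (End ℂ V)ˣ))) *
          (u⁻¹ : (End ℂ V)ˣ) := by
      simp only [inv_inv, mul_assoc, Units.mul_inv, mul_one]
    rw [e, tr_Ad u hu _ (pmul _ _ (pres _ hX.1) (pres _ h1))]
    exact hX.2 _ h1
  have R_nil : ∀ X ∈ R, IsNilpotent (res W π X) := by
    intro X hX
    obtain ⟨Y, hY⟩ := exists_replica X (starRingEnd ℂ)
    have hYl := lie_replica hX.1 hY
    have hc : Commute (res W π X) (res W π (X * Y)) := by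
      rw [Commute, SemiconjBy, ← res_mul hπ _ (pmul _ _ (pres _ hX.1) (pres _ hYl)),
        ← res_mul hπ _ (pres _ hX.1), mul_assoc, ← hY.commute.eq]
    have hval : ∀ (w : W) (μ : ℂ), res W π X w = μ • w →
        res W π (X * Y) w = ((‖μ‖ ^ 2 : ℝ) : ℂ) • w := by
      intro w μ hw
      have h1 := res_eigen hπ (pres _ hX.1) hw
      apply res_eq_of hπ
      rw [End.mul_apply, hY μ _ (mem_maxGen_of_eigen h1), map_smul, h1, smul_smul,
        Complex.conj_mul']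
      push_cast; rfl
    have key := re_eigen_eq_zero (Y := res W π (X * Y)) (by
      intro ν hν
      obtain ⟨w, μ, hw0, hw1, hw2⟩ := exists_common_eigen hc hν
      rw [hval w μ hw1] at hw2
      have := smul_left_injective ℂ hw0 hw2
      rw [← this, Complex.ofReal_re]; positivity) (hX.2 Y hYl)
    apply isNilpotent_of_eigen
    intro μ hμ
    obtain ⟨w, hw⟩ := hμ.exists_hasEigenvector
    have h1 : (res W π (X * Y)).HasEigenvalue ((‖μ‖ ^ 2 : ℝ) : ℂ) :=
      End.hasEigenvalue_of_hasEigenvector ⟨End.mem_eigenspace_iff.mpr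
        (hval w μ hw.apply_eq_smul), hw.2⟩
    have := key _ h1
    rw [Complex.ofReal_re] at this
    simpa using this
  have R_zero : ∀ X ∈ R, X = 0 := by
    obtain ⟨u, hu0, hu⟩ := engel_real (U := W) (res W π '' R)
      ⟨0, ⟨Submodule.zero_mem _, fun Y _ => by simp [tr]⟩, map_zero _⟩
      (by
        rintro _ ⟨X, hX, rfl⟩ _ ⟨Y, hY, rfl⟩
        refine ⟨X + Y, ⟨Submodule.add_mem _ hX.1 hY.1, fun Z hZ => ?_⟩, map_add _ _ _⟩
        rw [add_mul, tr_add, hX.2 Z hZ, hY.2 Z hZ, add_zero])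
      (by
        rintro r _ ⟨X, hX, rfl⟩
        refine ⟨(r : ℂ) • X, ⟨?_, fun Z hZ => ?_⟩, map_smul _ _ _⟩
        · rw [Complex.coe_smul]; exact Submodule.smul_mem _ _ hX.1
        · rw [smul_mul_assoc, tr_smul, hX.2 Z hZ, mul_zero])
      (by
        rintro _ ⟨X, hX, rfl⟩ _ ⟨Y, hY, rfl⟩
        refine ⟨X * Y - Y * X, ⟨lie_bracket hX.1 hY.1, fun Z hZ => ?_⟩, ?_⟩
        · have := hX.2 _ (lie_bracket hY.1 hZ)
          rw [mul_sub, tr_sub] at this
          rw [sub_mul, tr_sub, mul_assoc, mul_assoc,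
            tr_comm Y (X * Z) (pres _ hY.1) (pmul _ _ (pres _ hX.1) (pres _ hZ)), mul_assoc]
          exact this
        · rw [map_sub, res_mul hπ _ (pres _ hY.1), res_mul hπ _ (pres _ hX.1)])
      (by rintro _ ⟨X, hX, rfl⟩; exact R_nil X hX)
    let U : Submodule ℂ V :=
      { carrier := {v | ∀ X ∈ R, X v = 0}
        add_mem' := by intro x y hx hy X hX; rw [map_add, hx X hX, hy X hX, add_zero]
        zero_mem' := by intro X _; simp
        smul_mem' := by intro c x hx X hX; rw [map_smul, hx X hX, smul_zero] }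
    have hU : ∀ u : (End ℂ V)ˣ, A.Good C b u → ∀ v ∈ U, (u : End ℂ V) v ∈ U := by
      intro u hu v hv X hX
      have := hv _ (R_Ad u⁻¹ hu.inv X hX)
      have h2 := congrArg (u : End ℂ V) this
      rw [← End.mul_apply, ← mul_assoc, ← mul_assoc, Units.mul_inv, one_mul, inv_inv,
        map_zero] at h2
      exact h2
    have hle := A.hmin U (hU _ (A.good_T0 C b)) (hU _ (A.good_T1 C b)) (by
      intro h
      have : (u : V) ∈ U := by
        intro X hX
        rw [← res_apply hπ (pres _ hX.1), hu _ ⟨X, hX, rfl⟩]; rfl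
      rw [h, Submodule.mem_bot] at this
      exact hu0 (Subtype.ext this))
    intro X hX
    exact hz X hX.1 fun w hw => hle hw X hX
  -- the dual element of the trace
  let G := A.lie C b
  let trL : End ℂ V →ₗ[ℝ] ℝ :=
    { toFun := tr
      map_add' := tr_add
      map_smul' := fun r X => by rw [← Complex.coe_smul, tr_smul]; rfl }
  let B : G →ₗ[ℝ] Dual ℝ G := LinearMap.mk₂ ℝ (fun X Y : G => tr ((X : End ℂ V) * Y))
    (fun X X' Y => by simp only [Submodule.coe_add, add_mul, tr_add])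
    (fun r X Y => by
      rw [Submodule.coe_smul, ← Complex.coe_smul, smul_mul_assoc, tr_smul]; rfl)
    (fun X Y Y' => by simp only [Submodule.coe_add, mul_add, tr_add])
    (fun r X Y => by
      rw [Submodule.coe_smul, ← Complex.coe_smul, mul_smul_comm, tr_smul]; rfl)
  have hBinj : Injective B := by
    rw [← LinearMap.ker_eq_bot, LinearMap.ker_eq_bot']
    intro X hX
    apply Subtype.ext
    refine R_zero X ⟨X.2, fun Y hY => ?_⟩
    exact congrArg (fun L : Dual ℝ G => L ⟨Y, hY⟩) hX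
  have hBsurj : Surjective B :=
    (LinearMap.injective_iff_surjective_of_finrank_eq_finrank Subspace.dual_finrank_eq.symm).mp
      hBinj
  obtain ⟨⟨z, hzl⟩, hzB⟩ := hBsurj (trL ∘ₗ G.subtype)
  have hz1 : ∀ Y ∈ A.lie C b, tr (z * Y) = tr Y := fun Y hY =>
    congrArg (fun L : Dual ℝ G => L ⟨Y, hY⟩) hzB
  have hzc : ∀ u : (End ℂ V)ˣ, A.Good C b u → (u : End ℂ V) * z = z * u := by
    intro u hu
    have : (u : End ℂ V) * z * (u⁻¹ : (End ℂ V)ˣ) - z = 0 := by
      refine R_zero _ ⟨Submodule.sub_mem _ (lie_Ad hu hzl) hzl, fun Y hY => ?_⟩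
      have h1 := lie_Ad hu.inv hY
      have e : (u : End ℂ V) * z * (u⁻¹ : (End ℂ V)ˣ) * Y =
          (u : End ℂ V) * (z * (((u⁻¹ : (End ℂ V)ˣ) : End ℂ V) * Y * (u⁻¹⁻¹ : (End ℂ V)ˣ))) *
            (u⁻¹ : (End ℂ V)ˣ) := by
        simp only [inv_inv, mul_assoc, Units.mul_inv, mul_one]
      rw [sub_mul, tr_sub, e, tr_Ad u hu _ (pmul _ _ (pres _ hzl) (pres _ h1)), hz1 _ h1,
        tr_Ad u⁻¹ hu.inv _ (pres _ hY), hz1 _ hY, sub_self]
    rw [sub_eq_zero] at this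
    calc (u : End ℂ V) * z = (u : End ℂ V) * z * (u⁻¹ : (End ℂ V)ˣ) * u := by
          rw [mul_assoc, Units.inv_mul, mul_one]
      _ = z * u := by rw [this]
  have hz0 : z = 0 := by
    have hP : z A.P0 = 0 := by
      by_contra hne
      have h1 : (A.T0 : End ℂ V) (z A.P0) = (1 : ℂ) • z A.P0 := by
        rw [← End.mul_apply, hzc _ (A.good_T0 C b), End.mul_apply, A.hP0, one_smul]
      have := A.hcontr _ (hzl.2.1 _) hne 1 h1
      simp at this
    have hk : ∀ u : (End ℂ V)ˣ, A.Good C b u → ∀ v ∈ LinearMap.ker z,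
        (u : End ℂ V) v ∈ LinearMap.ker z := by
      intro u hu v hv
      rw [LinearMap.mem_ker] at *
      rw [← End.mul_apply, ← hzc u hu, End.mul_apply, hv, map_zero]
    exact LinearMap.ker_eq_top.mp (A.hmax _ (hk _ (A.good_T0 C b)) (hk _ (A.good_T1 C b))
      (fun h => A.hP0' (h hP)))
  -- the logarithm of the modulus of `T0` has nonzero trace
  obtain ⟨Y, hY⟩ := exists_replica (A.T0 : End ℂ V) (fun μ => (Real.log ‖μ‖ : ℂ))
  have hYl : Y ∈ A.lie C b := lie_log hY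
  have htr : tr Y = 0 := by rw [← hz1 Y hYl, hz0, zero_mul]; simp [tr]
  have p0 : ∀ v ∈ W, (A.T0 : End ℂ V) v ∈ W := A.inv0 A.M le_rfl
  have hc : Commute (res W π A.T0) (-res W π Y) := by
    have : Commute (res W π A.T0) (res W π Y) := by
      rw [Commute, SemiconjBy, ← res_mul hπ _ (pres _ hYl), ← res_mul hπ _ p0, hY.commute.eq]
    exact this.neg_right
  have hpos : ∀ ν, (-res W π Y).HasEigenvalue ν → 0 < ν.re := by
    intro ν hν
    obtain ⟨w, μ, hw0, hw1, hw2⟩ := exists_common_eigen hc hν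
    have h1 := res_eigen hπ p0 hw1
    have hw0' : (w : V) ≠ 0 := fun h => hw0 (Subtype.ext h)
    have h2 := A.hcontr w (A.W_le A.M_pos w.2) hw0' μ h1
    have hμ : μ ≠ 0 := by
      rintro rfl
      have h3 := congrArg ((A.T0⁻¹ : (End ℂ V)ˣ) : End ℂ V) h1
      rw [← End.mul_apply, Units.inv_mul, zero_smul, map_zero] at h3
      exact hw0' h3
    have h4 := res_eq_of hπ (hY μ _ (mem_maxGen_of_eigen h1))
    rw [LinearMap.neg_apply, h4, ← neg_smul] at hw2
    have := smul_left_injective ℂ hw0 hw2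
    rw [← this, Complex.neg_re, Complex.ofReal_re, neg_pos]
    exact Real.log_neg (norm_pos_iff.mpr hμ) h2
  obtain ⟨ν, hν⟩ := End.exists_eigenvalue (-res W π Y)
  have := re_eigen_eq_zero (fun μ hμ => (hpos μ hμ).le) (by
    rw [map_neg, Complex.neg_re, neg_eq_zero]; exact htr) ν hν
  exact (hpos ν hν).ne' this

end Setup

end Pool.Agent.MP_057a77_an

end

-- part MP_057a77_an.Core3
section

/-!
Translations: the square-zero part of the Lie algebra moves every point outside `W 1` in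
directions spanning the minimal invariant subspace.
-/

namespace Pool.Agent.MP_057a77_an

open Module Function Polynomial

lemma exists_det_ne_zero {n : Type*} [Fintype n] [DecidableEq n] (j : ℕ) (A : ℕ → Matrix n n ℂ)
    (h : (A j).det ≠ 0) :
    ∃ k : ℕ, (∑ i ∈ Finset.range (j + 1), (k.choose i : ℂ) • A i).det ≠ 0 := by
  let p : ℕ → ℂ[X] := fun i => C ((i.factorial : ℂ)⁻¹) * descPochhammer ℂ i
  have hp : ∀ i, (p i).natDegree ≤ i := fun i =>
    (natDegree_C_mul_le _ _).trans (descPochhammer_natDegree ℂ i).le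
  have hpc : (p j).coeff j = (j.factorial : ℂ)⁻¹ := by
    have := (monic_descPochhammer ℂ j).coeff_natDegree
    rw [descPochhammer_natDegree] at this
    simp [p, this]
  have hpe : ∀ i k : ℕ, (p i).eval (k : ℂ) = k.choose i := by
    intro i k
    rw [Nat.cast_choose_eq_descPochhammer_div]
    simp [p, div_eq_inv_mul]
  let Mx : Matrix n n ℂ[X] := Matrix.of fun r s => ∑ i ∈ Finset.range (j + 1), C (A i r s) * p i
  have hd : ∀ r s, (Mx r s).natDegree ≤ j := by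
    intro r s
    refine natDegree_sum_le_of_forall_le (Finset.range (j + 1)) (fun i => C (A i r s) * p i)
      fun i hi => ?_
    exact (natDegree_C_mul_le _ _).trans ((hp i).trans (Nat.lt_succ_iff.mp (Finset.mem_range.mp hi)))
  have hc : ∀ r s, (Mx r s).coeff j = (j.factorial : ℂ)⁻¹ * A j r s := by
    intro r s
    simp only [Mx, Matrix.of_apply, finsetSum_coeff, coeff_C_mul]
    rw [Finset.sum_range_succ, hpc, Finset.sum_eq_zero, zero_add, mul_comm]
    intro i hi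
    rw [coeff_eq_zero_of_natDegree_lt ((hp i).trans_lt (Finset.mem_range.mp hi)), mul_zero]
  have hdet : Mx.det.coeff (Fintype.card n * j) = ((j.factorial : ℂ)⁻¹ • A j).det := by
    rw [Matrix.det_apply, Matrix.det_apply, finsetSum_coeff]
    refine Finset.sum_congr rfl fun σ _ => ?_
    rw [coeff_smul, ← Finset.card_univ, coeff_prod_of_natDegree_le _ _ _ (fun r _ => hd _ _)]
    simp [hc]
  have hne : Mx.det ≠ 0 := by
    intro h0
    rw [h0, coeff_zero, Matrix.det_smul] at hdet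
    exact mul_ne_zero (pow_ne_zero _ (inv_ne_zero (by exact_mod_cast j.factorial_ne_zero))) h
      hdet.symm
  by_contra hcon
  push Not at hcon
  apply hne
  apply eq_zero_of_infinite_isRoot
  refine Set.infinite_of_injective_forall_mem (f := fun k : ℕ => (k : ℂ)) Nat.cast_injective ?_
  intro k
  show Mx.det.eval (k : ℂ) = 0
  rw [← coe_evalRingHom, RingHom.map_det, ← hcon k]
  congr 1
  ext r s
  simp [Mx, eval_finsetSum, hpe, Matrix.sum_apply, mul_comm]

lemma exists_surjective {U : Type*} [AddCommGroup U] [Module ℂ U] [FiniteDimensional ℂ U]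
    (j : ℕ) (A : ℕ → End ℂ U) {c : ℂ} (hc : c ≠ 0) (h : A j = c • 1) :
    ∃ k : ℕ, Surjective (∑ i ∈ Finset.range (j + 1), (k.choose i : ℂ) • A i : End ℂ U) := by
  classical
  let e := Module.finBasis ℂ U
  obtain ⟨k, hk⟩ := exists_det_ne_zero j (fun i => LinearMap.toMatrix e e (A i)) (by
    simp only [h, map_smul, LinearMap.toMatrix_one, Matrix.det_smul, Matrix.det_one, mul_one]
    exact pow_ne_zero _ hc)
  refine ⟨k, ?_⟩
  have : LinearMap.det (∑ i ∈ Finset.range (j + 1), (k.choose i : ℂ) • A i : End ℂ U) ≠ 0 := by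
    rw [← LinearMap.det_toMatrix e]
    simpa using hk
  have hu := (LinearMap.isUnit_iff_isUnit_det _).mpr (Ne.isUnit this)
  exact ((End.isUnit_iff _).mp hu).2

variable {V : Type*} [AddCommGroup V] [Module ℂ V] {ι : Type*} [Fintype ι] [DecidableEq ι]

namespace Setup

variable {A : Setup V} {C : Conj V} {b : ι → Bool} [FiniteDimensional ℂ V]

omit [FiniteDimensional ℂ V] in
lemma S_pow_mem (j : ℕ) (hj : j ≤ A.M) (v : V) : (((A.S : End ℂ V) - 1) ^ j) v ∈ A.W j := by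
  induction j with
  | zero => simp [A.W_zero]
  | succ j ih =>
    rw [pow_succ', End.mul_apply]
    exact A.hS j hj _ (ih (by omega))

omit [FiniteDimensional ℂ V] in
lemma S_pow_notMem {q : V} (hq : q ∉ A.W 1) (j : ℕ) (hj : j < A.M) :
    (((A.S : End ℂ V) - 1) ^ j) q ∉ A.W (j + 1) := by
  induction j with
  | zero => simpa using hq
  | succ j ih =>
    rw [pow_succ', End.mul_apply]
    exact fun h => ih (by omega) (A.hS' j hj _ h)

omit [FiniteDimensional ℂ V] in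
lemma Ad_apply (u : (End ℂ V)ˣ) (X : End ℂ V) (v : V) :
    ((u : End ℂ V) * X * (u⁻¹ : (End ℂ V)ˣ)) ((u : End ℂ V) v) = (u : End ℂ V) (X v) := by
  rw [← End.mul_apply, mul_assoc, Units.inv_mul, mul_one, End.mul_apply]

theorem exists_trans :
    ∃ X ∈ A.lie C b, X ≠ 0 ∧ (∀ w ∈ A.W A.M, X w = 0) ∧ ∀ v, X v ∈ A.W A.M := by
  let P : ℕ → End ℂ V → Prop := fun a X => X ∈ A.lie C b ∧ (∀ w ∈ A.W A.M, X w = 0) ∧
    ∀ j ≤ A.M, ∀ v ∈ A.W j, X v ∈ A.W (min (j + a) A.M)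
  have P_Ad : ∀ a, ∀ u : (End ℂ V)ˣ, A.Good C b u → ∀ X, P a X →
      P a ((u : End ℂ V) * X * (u⁻¹ : (End ℂ V)ˣ)) := by
    intro a u hu X hX
    refine ⟨lie_Ad hu hX.1, fun w hw => ?_, fun j hj v hv => ?_⟩
    · rw [End.mul_apply, End.mul_apply, hX.2.1 _ (hu.inv.1 _ le_rfl w hw), map_zero]
    · exact hu.1 _ (min_le_right _ _) _ (hX.2.2 j hj _ (hu.inv.1 j hj v hv))
  have key : ∀ a, a ≤ A.M → ∃ X, X ≠ 0 ∧ P a X := by
    intro a
    induction a with
    | zero =>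
      intro _
      obtain ⟨X, hX, h0, hk⟩ := exists_kill (A := A) (C := C) (b := b)
      exact ⟨X, h0, hX, hk, fun j hj v hv => by simpa [hj] using hX.1 j hj v hv⟩
    | succ a ih =>
      intro ha
      obtain ⟨X0, hX0, hP0⟩ := ih (by omega)
      by_contra hcon
      push Not at hcon
      have gS := A.good_S C b
      have hcomm : ∀ X, P a X → (A.S : End ℂ V) * X = X * A.S := by
        intro X hX
        have h1 := P_Ad a _ gS X hX
        have : (A.S : End ℂ V) * X * (A.S⁻¹ : (End ℂ V)ˣ) - X = 0 := by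
          by_contra hne
          refine hcon _ hne ⟨Submodule.sub_mem _ h1.1 hX.1, fun w hw => ?_, fun j hj v hv => ?_⟩
          · rw [LinearMap.sub_apply, h1.2.1 w hw, hX.2.1 w hw, sub_zero]
          · have hv' := gS.inv.1 j hj v hv
            set v' := ((A.S⁻¹ : (End ℂ V)ˣ) : End ℂ V) v
            have e : v = (A.S : End ℂ V) v' := by
              rw [← End.mul_apply, Units.mul_inv, End.one_apply]
            have e2 : ((A.S : End ℂ V) * X * (A.S⁻¹ : (End ℂ V)ˣ) - X) v =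
                ((A.S : End ℂ V) (X v') - X v') - X ((A.S : End ℂ V) v' - v') := by
              rw [map_sub, ← e]; simp only [LinearMap.sub_apply, End.mul_apply]; abel
            rw [e2]
            refine Submodule.sub_mem _ ?_ ?_
            · have h2 := hX.2.2 j hj v' hv'
              by_cases hja : j + a < A.M
              · rw [min_eq_left hja.le] at h2
                exact A.W_le (by omega) (A.hS _ hja _ h2)
              · rw [min_eq_right (by omega)] at h2 ⊢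
                exact Submodule.sub_mem _ (gS.1 _ le_rfl _ h2) h2
            · by_cases hjM : j < A.M
              · have := hX.2.2 (j + 1) hjM _ (A.hS j hjM v' hv')
                rwa [show j + 1 + a = j + (a + 1) by ring] at this
              · have : j = A.M := by omega
                subst this
                rw [hX.2.1 _ (Submodule.sub_mem _ (gS.1 _ le_rfl _ hv') hv')]
                exact Submodule.zero_mem _
        rw [sub_eq_zero] at this
        calc (A.S : End ℂ V) * X = (A.S : End ℂ V) * X * (A.S⁻¹ : (End ℂ V)ˣ) * A.S := by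
              rw [mul_assoc, Units.inv_mul, mul_one]
          _ = X * A.S := by rw [this]
      let U : Submodule ℂ V := Submodule.span ℂ {y | ∃ X v, P a X ∧ y = X v}
      have hU : ∀ u : (End ℂ V)ˣ, A.Good C b u → ∀ v ∈ U, (u : End ℂ V) v ∈ U := by
        intro u hu v hv
        refine (Submodule.span_le (p := U.comap (u : End ℂ V))).mpr ?_ hv
        rintro _ ⟨X, v, hX, rfl⟩
        exact Submodule.subset_span ⟨_, _, P_Ad a u hu X hX, (Ad_apply u X v).symm⟩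
      have hle := A.hmin U (hU _ (A.good_T0 C b)) (hU _ (A.good_T1 C b)) (by
        intro h
        apply hX0
        ext v
        have : X0 v ∈ U := Submodule.subset_span ⟨X0, v, hP0, rfl⟩
        rw [h] at this
        simpa using this)
      have hker : U ≤ LinearMap.ker (((A.S : End ℂ V) - 1) ^ A.M) := by
        refine Submodule.span_le.mpr ?_
        rintro _ ⟨X, v, hX, rfl⟩
        have hc : Commute ((A.S : End ℂ V) - 1) X :=
          Commute.sub_left (hcomm X hX) (Commute.one_left X)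
        show (((A.S : End ℂ V) - 1) ^ A.M) (X v) = 0
        rw [← End.mul_apply, (hc.pow_left _).eq, End.mul_apply]
        exact hX.2.1 _ (S_pow_mem _ le_rfl v)
      have hinj : ∀ k : ℕ, ∀ w ∈ A.W A.M, (((A.S : End ℂ V) - 1) ^ k) w = 0 → w = 0 := by
        intro k
        induction k with
        | zero => intro w _ h; simpa using h
        | succ k ih =>
          intro w hw h
          rw [pow_succ, End.mul_apply] at h
          have h1 := ih _ (Submodule.sub_mem _ (gS.1 _ le_rfl _ hw) hw) h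
          exact A.hSW w hw (sub_eq_zero.mp h1)
      apply A.W_ne
      rw [eq_bot_iff]
      intro w hw
      exact hinj _ w hw (hker (hle hw))
  obtain ⟨X, h0, hX⟩ := key A.M le_rfl
  refine ⟨X, hX.1, h0, hX.2.1, fun v => ?_⟩
  simpa using hX.2.2 0 (Nat.zero_le _) v (by simp [A.W_zero])

variable (A C b) in
/-- the square-zero part -/
def IsTrans (X : End ℂ V) : Prop :=
  X ∈ A.lie C b ∧ (∀ w ∈ A.W A.M, X w = 0) ∧ ∀ v, X v ∈ A.W A.M

lemma IsTrans.Ad {u : (End ℂ V)ˣ} (hu : A.Good C b u) {X : End ℂ V} (hX : A.IsTrans C b X) :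
    A.IsTrans C b ((u : End ℂ V) * X * (u⁻¹ : (End ℂ V)ˣ)) := by
  refine ⟨lie_Ad hu hX.1, fun w hw => ?_, fun v => hu.1 _ le_rfl _ (hX.2.2 _)⟩
  rw [End.mul_apply, End.mul_apply, hX.2.1 _ (hu.inv.1 _ le_rfl w hw), map_zero]

theorem span_trans {q : V} (hq : q ∉ A.W 1) :
    A.W A.M ≤ Submodule.span ℂ {y | ∃ X, A.IsTrans C b X ∧ y = X q} := by
  classical
  have hex : ∃ j, ∃ X, X ≠ 0 ∧ A.IsTrans C b X ∧ ∀ v ∈ A.W j, X v = 0 := by
    obtain ⟨X, h1, h2, h3, h4⟩ := exists_trans (A := A) (C := C) (b := b)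
    exact ⟨A.M, X, h2, ⟨h1, h3, h4⟩, h3⟩
  have hle : Nat.find hex ≤ A.M := by
    obtain ⟨X, h1, h2, h3, h4⟩ := exists_trans (A := A) (C := C) (b := b)
    exact Nat.find_min' hex ⟨X, h2, ⟨h1, h3, h4⟩, h3⟩
  obtain ⟨X0, hX0, hT0, hk0⟩ := Nat.find_spec hex
  have hpos : Nat.find hex ≠ 0 := by
    intro h
    rw [h, A.W_zero] at hk0
    exact hX0 (LinearMap.ext fun v => hk0 v Submodule.mem_top)
  obtain ⟨j, hj⟩ := Nat.exists_eq_succ_of_ne_zero hpos
  rw [hj] at hk0 hle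
  have hjM : j < A.M := hle
  have hnot := Nat.find_min hex (m := j) (by omega)
  push Not at hnot
  obtain ⟨e, he, hXe⟩ := hnot X0 hX0 hT0
  have he' : e ∉ A.W (j + 1) := fun h => hXe (hk0 e h)
  let N : Set (End ℂ V) := {X | A.IsTrans C b X ∧ ∀ v ∈ A.W (j + 1), X v = 0}
  have N_Ad : ∀ u : (End ℂ V)ˣ, A.Good C b u → ∀ X ∈ N,
      (u : End ℂ V) * X * (u⁻¹ : (End ℂ V)ˣ) ∈ N := by
    intro u hu X hX
    refine ⟨hX.1.Ad hu, fun v hv => ?_⟩
    rw [End.mul_apply, End.mul_apply, hX.2 _ (hu.inv.1 _ hjM v hv), map_zero]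
  let NC : Submodule ℂ (End ℂ V) := Submodule.span ℂ N
  have NC_kill : ∀ X ∈ NC, ∀ v ∈ A.W (j + 1), X v = 0 := by
    intro X hX v hv
    refine (Submodule.span_le (p := LinearMap.ker (LinearMap.applyₗ v))).mpr ?_ hX
    intro Y hY
    exact hY.2 v hv
  have NC_range : ∀ X ∈ NC, ∀ v, X v ∈ A.W A.M := by
    intro X hX v
    refine (Submodule.span_le (p := (A.W A.M).comap (LinearMap.applyₗ v))).mpr ?_ hX
    intro Y hY
    exact hY.1.2.2 v
  let L : Submodule ℂ V := NC.map (LinearMap.applyₗ e)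
  have hL : ∀ u : (End ℂ V)ˣ, A.Good C b u → ∀ v ∈ L, (u : End ℂ V) v ∈ L := by
    rintro u hu _ ⟨X, hX, rfl⟩
    obtain ⟨c, hc⟩ := A.hcodim j hjM e he he' _ (hu.1 j hjM.le e he)
    refine (Submodule.span_le (p := L.comap ((u : End ℂ V) ∘ₗ LinearMap.applyₗ e))).mpr ?_ hX
    intro Y hY
    have h1 := N_Ad u hu Y hY
    refine ⟨c • ((u : End ℂ V) * Y * (u⁻¹ : (End ℂ V)ˣ)),
      NC.smul_mem _ (Submodule.subset_span h1), ?_⟩
    have h2 := h1.2 _ hc
    rw [map_sub, map_smul, Ad_apply, sub_eq_zero] at h2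
    exact h2.symm
  have hWL := A.hmin L (hL _ (A.good_T0 C b)) (hL _ (A.good_T1 C b)) (by
    intro h
    have : X0 e ∈ L := ⟨X0, Submodule.subset_span ⟨hT0, hk0⟩, rfl⟩
    rw [h] at this
    exact hXe (by simpa using this))
  let ev : V →ₗ[ℂ] (NC →ₗ[ℂ] A.W A.M) := LinearMap.mk₂ ℂ
    (fun v X => (⟨(X : End ℂ V) v, NC_range X X.2 v⟩ : A.W A.M))
    (fun v v' X => by ext; simp) (fun c v X => by ext; simp)
    (fun v X X' => by ext; simp) (fun c v X => by ext; simp)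
  have hev : ∀ v (X : NC), (ev v X : V) = (X : End ℂ V) v := fun v X => rfl
  obtain ⟨s, hs⟩ := (ev e).exists_rightInverse_of_surjective (by
    rw [LinearMap.range_eq_top]
    intro w
    obtain ⟨X, hX, hXw⟩ := hWL w.2
    exact ⟨⟨X, hX⟩, Subtype.ext hXw⟩)
  set n : End ℂ V := (A.S : End ℂ V) - 1 with hn
  obtain ⟨c, hc⟩ := A.hcodim j hjM e he he' _ (S_pow_mem j hjM.le q)
  have hc0 : c ≠ 0 := by
    rintro rfl
    exact S_pow_notMem hq j hjM (by simpa using hc)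
  have ev_kill : ∀ v ∈ A.W (j + 1), ev v = 0 := by
    intro v hv
    ext X
    rw [hev, NC_kill X X.2 v hv]; rfl
  obtain ⟨k, hk⟩ := exists_surjective j (fun i => ev ((n ^ i) q) ∘ₗ s) hc0 (by
    have := ev_kill _ hc
    rw [map_sub, map_smul, sub_eq_zero] at this
    show ev ((n ^ j) q) ∘ₗ s = _
    rw [this, LinearMap.smul_comp, hs]; rfl)
  have hSk : ((A.S ^ k : (End ℂ V)ˣ) : End ℂ V) q -
      ∑ i ∈ Finset.range (j + 1), (k.choose i : ℂ) • (n ^ i) q ∈ A.W (j + 1) := by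
    have e1 : ((A.S ^ k : (End ℂ V)ˣ) : End ℂ V) = (n + 1) ^ k := by
      rw [Units.val_pow_eq_pow_val, hn, sub_add_cancel]
    have e2 : ((n + 1) ^ k) q = ∑ i ∈ Finset.range (k + j + 1), (k.choose i : ℂ) • (n ^ i) q := by
      rw [(Commute.one_right n).add_pow, LinearMap.sum_apply]
      rw [← Finset.sum_subset (s₁ := Finset.range (k + 1)) (s₂ := Finset.range (k + j + 1))
        (Finset.range_subset_range.mpr (by omega))]
      · refine Finset.sum_congr rfl fun i _ => ?_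
        rw [one_pow, mul_one, End.mul_apply, End.natCast_apply, map_nsmul, Nat.cast_smul_eq_nsmul]
      · intro i _ hi
        rw [Nat.choose_eq_zero_of_lt (by simpa using hi)]; simp
    rw [e1, e2, show k + j + 1 = (j + 1) + k by ring, Finset.sum_range_add, add_sub_cancel_left]
    refine Submodule.sum_mem _ fun i _ => Submodule.smul_mem _ _ ?_
    rw [pow_add, End.mul_apply]
    exact S_pow_mem (j + 1) hjM _
  have gk := (A.good_S C b).pow k
  intro w hw
  obtain ⟨w', hw'⟩ := hk ⟨_, gk.1 _ le_rfl w hw⟩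
  have h1 : (s w' : End ℂ V) (((A.S ^ k : (End ℂ V)ˣ) : End ℂ V) q) =
      ((A.S ^ k : (End ℂ V)ˣ) : End ℂ V) w := by
    have h2 := NC_kill _ (s w').2 _ hSk
    rw [map_sub, sub_eq_zero] at h2
    rw [h2]
    have h3 := congrArg Subtype.val hw'
    simp only [LinearMap.sum_apply, LinearMap.smul_apply, LinearMap.comp_apply,
      Submodule.coe_sum, Submodule.coe_smul, hev] at h3
    rw [← h3, map_sum]
    simp only [map_smul]
  have h4 : (((A.S ^ k)⁻¹ : (End ℂ V)ˣ) : End ℂ V)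
      ((s w' : End ℂ V) (((A.S ^ k : (End ℂ V)ˣ) : End ℂ V) q)) ∈
      Submodule.span ℂ {y | ∃ X, A.IsTrans C b X ∧ y = X q} := by
    refine (Submodule.span_le (p := (Submodule.span ℂ {y | ∃ X, A.IsTrans C b X ∧ y = X q}).comap
      ((((A.S ^ k)⁻¹ : (End ℂ V)ˣ) : End ℂ V) ∘ₗ
        LinearMap.applyₗ (((A.S ^ k : (End ℂ V)ˣ) : End ℂ V) q)))).mpr ?_ (s w').2
    intro Y hY
    refine Submodule.subset_span ⟨_, hY.1.Ad gk.inv, ?_⟩
    simp
  rwa [h1, ← End.mul_apply, Units.inv_mul, End.one_apply] at h4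

/-- The main abstract theorem. -/
theorem main {q : V} (hqK : q ∈ A.K) (hq : q ∉ A.W 1) :
    ∃ N : Submodule ℝ V, (∀ w ∈ N, w ∈ A.W A.M) ∧ A.W A.M ≤ Submodule.span ℂ (N : Set V) ∧
      ∀ w ∈ N, ∀ F ∈ C.van b A.K, F (C.τ b (q + w)) = 0 := by
  refine ⟨{ carrier := {y | ∃ X, A.IsTrans C b X ∧ y = X q}
            add_mem' := ?_, zero_mem' := ?_, smul_mem' := ?_ }, ?_, span_trans hq, ?_⟩
  · rintro _ _ ⟨X, hX, rfl⟩ ⟨Y, hY, rfl⟩
    exact ⟨X + Y, ⟨Submodule.add_mem _ hX.1 hY.1, fun w hw => by simp [hX.2.1 w hw, hY.2.1 w hw],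
      fun v => Submodule.add_mem _ (hX.2.2 v) (hY.2.2 v)⟩, rfl⟩
  · exact ⟨0, ⟨Submodule.zero_mem _, fun _ _ => rfl, fun _ => Submodule.zero_mem _⟩, rfl⟩
  · rintro r _ ⟨X, hX, rfl⟩
    refine ⟨(r : ℂ) • X, ⟨?_, fun w hw => by simp [hX.2.1 w hw],
      fun v => Submodule.smul_mem _ _ (hX.2.2 v)⟩, by simp⟩
    rw [Complex.coe_smul]; exact Submodule.smul_mem _ _ hX.1
  · rintro _ ⟨X, hX, rfl⟩
    exact hX.2.2 q
  · rintro _ ⟨X, hX, rfl⟩ F hF
    exact van_add hX.1 (LinearMap.ext fun v => hX.2.1 _ (hX.2.2 v)) hqK hF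

end Setup

end Pool.Agent.MP_057a77_an

end

-- part MP_057a77_an.Poly2
section

/-!
Invariant subspaces of the two transfer operators.
-/

namespace Pool.Agent.MP_057a77_an

open Module Function Polynomial Set Filter Topology

namespace PolyData

variable (A : PolyData)

/-- multiples of `R` -/
noncomputable def mult (R : ℂ[X]) : Submodule ℂ A.V where
  carrier := {p | R ∣ (p : ℂ[X])}
  add_mem' := by intro a b ha hb; exact dvd_add ha hb
  zero_mem' := dvd_zero R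
  smul_mem' := by
    intro c a ha
    show R ∣ c • (a : ℂ[X])
    rw [smul_eq_C_mul]; exact Dvd.dvd.mul_left ha _

lemma mem_mult {R : ℂ[X]} {p : A.V} : p ∈ A.mult R ↔ R ∣ (p : ℂ[X]) := Iff.rfl

/-- invariance under both operators -/
def Inv (U : Submodule ℂ A.V) : Prop := (∀ v ∈ U, A.T0 v ∈ U) ∧ ∀ v ∈ U, A.T1 v ∈ U

lemma inv_mult {R : ℂ[X]} (h : expand ℂ 2 R ∣ A.D * R) : A.Inv (A.mult R) := by
  obtain ⟨B, hB⟩ := h
  constructor
  · rintro v ⟨c, hc⟩
    rw [mem_mult, T0_coe, hc, ← mul_assoc, hB, mul_assoc, ev_expand_mul]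
    exact dvd_mul_right _ _
  · rintro v ⟨c, hc⟩
    rw [mem_mult, T1_coe, hc, ← mul_assoc, hB, mul_assoc, od_expand_mul]
    exact dvd_mul_right _ _

variable {A}

lemma Inv.X_mul {U : Submodule ℂ A.V} (hU : A.Inv U) {p q : A.V} (hp : p ∈ U)
    (hq : (q : ℂ[X]) = X * (p : ℂ[X])) : q ∈ U := by
  have hm : MapsTo A.T1 U U := hU.2
  obtain ⟨u, hu, hu'⟩ := (LinearMap.injOn_iff_surjOn hm).mp A.T1_inj.injOn (hU.1 p hp)
  have : u = q := by
    apply A.T1_inj
    rw [hu']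
    apply Subtype.ext
    rw [T0_coe, T1_coe, hq, mul_left_comm, od_X_mul]
  exact this ▸ hu

lemma mem_V_of_dvd {p q : ℂ[X]} (hq : q ∈ A.V) (hq0 : q ≠ 0) (h : p ∣ q) : p ∈ A.V :=
  mem_degreeLT.mpr ((degree_le_of_dvd h hq0).trans_lt (mem_degreeLT.mp hq))

lemma Inv.mul {U : Submodule ℂ A.V} (hU : A.Inv U) {p : A.V} (hp : p ∈ U) (c : ℂ[X]) :
    ∀ q : A.V, (q : ℂ[X]) = c * p → q ∈ U := by
  induction c using Polynomial.recOnHorner with
  | M0 => intro q hq; rw [zero_mul] at hq; rw [show q = 0 from Subtype.ext hq]; exact U.zero_mem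
  | MC c a _ _ ih =>
    intro q hq
    have := ih (q - a • p) (by
      rw [Submodule.coe_sub, Submodule.coe_smul, hq, smul_eq_C_mul]; ring)
    simpa using U.add_mem this (U.smul_mem a hp)
  | MX c _ ih =>
    intro q hq
    by_cases h0 : q = 0
    · rw [h0]; exact U.zero_mem
    have hq0 : (q : ℂ[X]) ≠ 0 := fun h => h0 (Subtype.ext h)
    have hmem : c * (p : ℂ[X]) ∈ A.V := mem_V_of_dvd q.2 hq0 ⟨X, by rw [hq]; ring⟩
    exact hU.X_mul (ih ⟨_, hmem⟩ rfl) (by rw [hq]; ring)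

lemma Inv.exists_mult {U : Submodule ℂ A.V} (hU : A.Inv U) (hne : U ≠ ⊥) :
    ∃ R : A.V, (R : ℂ[X]) ≠ 0 ∧ U = A.mult R ∧ expand ℂ 2 (R : ℂ[X]) ∣ A.D * R := by
  classical
  have hex : ∃ n, ∃ R ∈ U, R ≠ 0 ∧ (R : ℂ[X]).natDegree = n := by
    obtain ⟨R, hR, h0⟩ := (Submodule.ne_bot_iff U).mp hne
    exact ⟨_, R, hR, h0, rfl⟩
  obtain ⟨R, hR, h0, hd⟩ := Nat.find_spec hex
  have hR0 : (R : ℂ[X]) ≠ 0 := fun h => h0 (Subtype.ext h)
  have hUeq : U = A.mult R := by
    ext p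
    rw [mem_mult]
    constructor
    · intro hp
      by_contra hnd
      have hr0 : (p : ℂ[X]) % R ≠ 0 := fun h => hnd (EuclideanDomain.mod_eq_zero.mp h)
      have hdeg : ((p : ℂ[X]) % R).degree < (R : ℂ[X]).degree := degree_mod_lt _ hR0
      have hmem : (p : ℂ[X]) % R ∈ A.V :=
        mem_degreeLT.mpr (hdeg.trans (mem_degreeLT.mp R.2))
      have h1 : p - ⟨_, hmem⟩ ∈ U := hU.mul hR ((p : ℂ[X]) / R) _ (by
        rw [Submodule.coe_sub]
        have := EuclideanDomain.div_add_mod' (p : ℂ[X]) R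
        linear_combination -this)
      have h2 : (⟨_, hmem⟩ : A.V) ∈ U := by simpa using U.sub_mem hp h1
      have := Nat.find_min' hex ⟨_, h2, fun h => hr0 (congrArg Subtype.val h), rfl⟩
      have h3 := natDegree_lt_natDegree hr0 hdeg
      rw [← hd] at this
      exact absurd this (not_le.mpr h3)
    · rintro ⟨c, hc⟩
      exact hU.mul hR c p (by rw [hc, mul_comm])
  refine ⟨R, hR0, hUeq, ?_⟩
  obtain ⟨a, ha⟩ := A.mem_mult.mp (hUeq ▸ hU.1 R hR)
  obtain ⟨b, hb⟩ := A.mem_mult.mp (hUeq ▸ hU.2 R hR)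
  rw [T0_coe] at ha
  rw [T1_coe] at hb
  rw [ev_od_decomp (A.D * R), ha, hb, map_mul, map_mul]
  exact dvd_add (dvd_mul_right _ _) ((dvd_mul_right _ _).mul_left _)

variable (A)

/-- the curve in `V` -/
noncomputable def Pv (t : ℝ) : A.V := by
  classical exact if h : t ∈ Icc (0 : ℝ) 1 then ⟨A.P t, A.deg t h⟩ else 0

variable {A}

lemma Pv_coe {t : ℝ} (ht : t ∈ Icc (0 : ℝ) 1) : (A.Pv t : ℂ[X]) = A.P t := by
  simp [Pv, ht]

lemma T0_Pv {t : ℝ} (ht : t ∈ Icc (0 : ℝ) 1) : A.T0 (A.Pv t) = A.Pv (t / 2) :=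
  Subtype.ext (by rw [T0_coe, Pv_coe ht, Pv_coe (half_mem ht), A.ev_P ht])

lemma T1_Pv {t : ℝ} (ht : t ∈ Icc (0 : ℝ) 1) : A.T1 (A.Pv t) = A.Pv ((t + 1) / 2) :=
  Subtype.ext (by rw [T1_coe, Pv_coe ht, Pv_coe (half_mem' ht), A.od_P ht])

lemma T0_Pv0 : A.T0 (A.Pv 0) = A.Pv 0 := by simpa using T0_Pv (A := A) zero_mem01

lemma cont_Pv (ℓ : A.V →ₗ[ℂ] ℂ) : ContinuousOn (fun t => ℓ (A.Pv t)) (Icc 0 1) := by
  obtain ⟨π, hπ⟩ := A.V.subtype.exists_leftInverse_of_injective A.V.ker_subtype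
  refine (A.cont (ℓ ∘ₗ π)).congr fun t ht => ?_
  have := congrArg (fun L : A.V →ₗ[ℂ] A.V => L (A.Pv t)) hπ
  simp only [LinearMap.comp_apply, Submodule.subtype_apply, Pv_coe ht, LinearMap.id_apply] at this
  simp [this]

lemma Inv.all {U : Submodule ℂ A.V} (hU : A.Inv U) {s : ℝ} (hs : s ∈ Icc (0 : ℝ) 1)
    (h : A.Pv s ∈ U) : ∀ t ∈ Icc (0 : ℝ) 1, A.Pv t ∈ U := by
  have e : ∀ t ∈ Icc (0 : ℝ) 1, A.P t ∈ U.map A.V.subtype ↔ A.Pv t ∈ U := by
    intro t ht
    rw [← Pv_coe ht]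
    constructor
    · rintro ⟨x, hx, hx'⟩
      exact (Subtype.ext hx' : x = A.Pv t) ▸ hx
    · intro h; exact ⟨_, h, rfl⟩
  intro t ht
  rw [← e t ht]
  refine dyadic_ind_fun A.cont _ hs ((e s hs).mpr h) ?_ ?_ t ht
  · intro t ht h
    rw [e _ (half_mem ht), ← T0_Pv ht]; exact hU.1 _ ((e t ht).mp h)
  · intro t ht h
    rw [e _ (half_mem' ht), ← T1_Pv ht]; exact hU.2 _ ((e t ht).mp h)

lemma mult_eq_top_of_isUnit {R : ℂ[X]} (h : IsUnit R) : A.mult R = ⊤ :=
  eq_top_iff.mpr fun _ _ => h.dvd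

lemma exists_root_of_not_isUnit {R : ℂ[X]} (h0 : R ≠ 0) (h : ¬ IsUnit R) : ∃ r, R.eval r = 0 :=
  IsAlgClosed.exists_root R (degree_pos_of_ne_zero_of_nonunit h0 h).ne'

lemma Pv0_ne : A.Pv 0 ≠ 0 := by
  intro h
  obtain ⟨t, ht, hc⟩ := A.nocommon 0
  have := Inv.all (A := A) (U := ⊥) ⟨by simp, by simp⟩ zero_mem01 (by simpa using h) t ht
  rw [Submodule.mem_bot] at this
  rw [← Pv_coe ht, this] at hc
  simp at hc

lemma Inv.eq_top {U : Submodule ℂ A.V} (hU : A.Inv U) (h : A.Pv 0 ∈ U) : U = ⊤ := by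
  obtain ⟨R, hR0, hUR, -⟩ := hU.exists_mult ((Submodule.ne_bot_iff U).mpr ⟨_, h, Pv0_ne⟩)
  rw [hUR]
  apply mult_eq_top_of_isUnit
  by_contra hnu
  obtain ⟨r, hr⟩ := exists_root_of_not_isUnit hR0 hnu
  obtain ⟨t, ht, hc⟩ := A.nocommon r
  have := hU.all zero_mem01 h t ht
  rw [hUR, mem_mult, Pv_coe ht] at this
  exact hc (eval_eq_zero_of_dvd_of_eval_eq_zero this hr)

variable (A) in
/-- span of the differences -/
noncomputable def U1 : Submodule ℂ A.V :=
  Submodule.span ℂ {v | ∃ t ∈ Icc (0 : ℝ) 1, v = A.Pv t - A.Pv 0}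

lemma inv_U1 : A.Inv A.U1 := by
  constructor
  · intro v hv
    refine (Submodule.span_le (p := A.U1.comap A.T0)).mpr ?_ hv
    rintro _ ⟨t, ht, rfl⟩
    refine Submodule.subset_span ⟨t / 2, half_mem ht, ?_⟩
    rw [map_sub, T0_Pv ht, T0_Pv0]
  · intro v hv
    refine (Submodule.span_le (p := A.U1.comap A.T1)).mpr ?_ hv
    rintro _ ⟨t, ht, rfl⟩
    show A.T1 _ ∈ A.U1
    rw [map_sub, T1_Pv ht, T1_Pv zero_mem01, ← sub_sub_sub_cancel_right _ _ (A.Pv 0)]
    exact Submodule.sub_mem _ (Submodule.subset_span ⟨_, half_mem' ht, rfl⟩)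
      (Submodule.subset_span ⟨_, half_mem' zero_mem01, rfl⟩)

lemma T0_pow_Pv {t : ℝ} (ht : t ∈ Icc (0 : ℝ) 1) (n : ℕ) :
    t * (1 / 2) ^ n ∈ Icc (0 : ℝ) 1 ∧ (A.T0 ^ n) (A.Pv t) = A.Pv (t * (1 / 2) ^ n) := by
  induction n with
  | zero => simpa using ht
  | succ n ih =>
    have e : t * (1 / 2) ^ (n + 1) = t * (1 / 2) ^ n / 2 := by ring
    rw [e, pow_succ', End.mul_apply, ih.2, T0_Pv ih.1]
    exact ⟨half_mem ih.1, rfl⟩

lemma T0_pow_Pv0 (n : ℕ) : (A.T0 ^ n) (A.Pv 0) = A.Pv 0 := by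
  simpa using (T0_pow_Pv (A := A) zero_mem01 n).2

lemma tendsto_U1 {v : A.V} (hv : v ∈ A.U1) (ℓ : A.V →ₗ[ℂ] ℂ) :
    Tendsto (fun n : ℕ => ℓ ((A.T0 ^ n) v)) atTop (𝓝 0) := by
  induction hv using Submodule.span_induction with
  | mem v hv =>
    obtain ⟨t, ht, rfl⟩ := hv
    have h1 : Tendsto (fun n : ℕ => t * (1 / 2 : ℝ) ^ n) atTop (𝓝[Icc 0 1] 0) := by
      rw [tendsto_nhdsWithin_iff]
      refine ⟨?_, Eventually.of_forall fun n => (T0_pow_Pv (A := A) ht n).1⟩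
      simpa using (tendsto_pow_atTop_nhds_zero_of_lt_one (r := (1 / 2 : ℝ)) (by norm_num)
        (by norm_num)).const_mul t
    have h2 := ((cont_Pv ℓ 0 zero_mem01).tendsto.comp h1).sub_const (ℓ (A.Pv 0))
    rw [sub_self] at h2
    refine h2.congr fun n => ?_
    rw [map_sub, (T0_pow_Pv ht n).2, T0_pow_Pv0, map_sub]; rfl
  | zero => simp
  | add x y _ _ hx hy => simpa using hx.add hy
  | smul c x _ hx => simpa using hx.const_mul c

lemma Pv0_notMem_U1 : A.Pv 0 ∉ A.U1 := by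
  intro h
  obtain ⟨ℓ, hℓ⟩ := Module.Projective.exists_dual_ne_zero ℂ (Pv0_ne (A := A))
  have := tendsto_U1 h ℓ
  simp only [T0_pow_Pv0] at this
  exact hℓ (tendsto_nhds_unique tendsto_const_nhds this)

lemma U1_decomp (v : A.V) : ∃ u ∈ A.U1, ∃ c : ℂ, v = u + c • A.Pv 0 := by
  have : A.U1 ⊔ Submodule.span ℂ {A.Pv 0} = ⊤ := by
    refine Inv.eq_top ⟨fun v hv => ?_, fun v hv => ?_⟩
      (Submodule.mem_sup_right (Submodule.mem_span_singleton_self _))
    · obtain ⟨u, hu, w, hw, rfl⟩ := Submodule.mem_sup.mp hv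
      obtain ⟨c, rfl⟩ := Submodule.mem_span_singleton.mp hw
      rw [map_add, map_smul, T0_Pv0]
      exact Submodule.add_mem_sup (inv_U1.1 u hu) hw
    · obtain ⟨u, hu, w, hw, rfl⟩ := Submodule.mem_sup.mp hv
      obtain ⟨c, rfl⟩ := Submodule.mem_span_singleton.mp hw
      rw [map_add, map_smul, T1_Pv zero_mem01,
        ← sub_add_cancel (A.Pv ((0 + 1) / 2)) (A.Pv 0), smul_add, ← add_assoc]
      exact Submodule.add_mem_sup (Submodule.add_mem _ (inv_U1.2 u hu) (Submodule.smul_mem _ _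
        (Submodule.subset_span ⟨_, half_mem' zero_mem01, rfl⟩))) hw
  obtain ⟨u, hu, w, hw, rfl⟩ := Submodule.mem_sup.mp (this ▸ Submodule.mem_top : v ∈ _)
  obtain ⟨c, rfl⟩ := Submodule.mem_span_singleton.mp hw
  exact ⟨u, hu, c, rfl⟩

lemma P0_ne : A.P 0 ≠ 0 := fun h => Pv0_ne (Subtype.ext (by rw [Pv_coe zero_mem01, h]; rfl))

lemma P1_ne : A.P 1 ≠ 0 := fun h => P0_ne (A := A) (by rw [A.shift, h, mul_zero])

lemma U1_facts : (∀ u ∈ A.U1, (u : ℂ[X]).eval 1 = 0) ∧ (A.P 0).eval 1 ≠ 0 ∧ A.D.eval (-1) = 0 := by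
  have hd : ∀ t ∈ Icc (0 : ℝ) 1, A.Pv t - A.Pv 0 ∈ A.U1 := fun t ht =>
    Submodule.subset_span ⟨t, ht, rfl⟩
  have hne : A.U1 ≠ ⊥ := by
    intro h
    have := hd 1 one_mem01
    rw [h, Submodule.mem_bot, sub_eq_zero] at this
    have h2 := congrArg Subtype.val this
    rw [Pv_coe one_mem01, Pv_coe zero_mem01, A.shift] at h2
    have h3 := congrArg natDegree h2
    rw [natDegree_X_mul P1_ne] at h3
    omega
  obtain ⟨R, hR0, hUR, hdvd⟩ := inv_U1.exists_mult hne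
  have hroot : ∀ r, (R : ℂ[X]).eval r = 0 → r = 1 ∧ (A.P 0).eval r ≠ 0 := by
    intro r hr
    have h1 : ∀ t ∈ Icc (0 : ℝ) 1, (A.P t).eval r = (A.P 0).eval r := by
      intro t ht
      have := hd t ht
      rw [hUR, mem_mult] at this
      have h2 := eval_eq_zero_of_dvd_of_eval_eq_zero this hr
      rw [Submodule.coe_sub, Pv_coe ht, Pv_coe zero_mem01, eval_sub] at h2
      exact sub_eq_zero.mp h2
    obtain ⟨t, ht, hc⟩ := A.nocommon r
    rw [h1 t ht] at hc
    refine ⟨?_, hc⟩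
    have h3 := congrArg (Polynomial.eval r) A.shift
    rw [eval_mul, eval_X, h1 1 one_mem01] at h3
    exact (mul_right_cancel₀ hc (by rw [← h3, one_mul])).symm
  have hnu : ¬ IsUnit (R : ℂ[X]) := by
    intro h
    apply Pv0_notMem_U1 (A := A)
    rw [hUR, mult_eq_top_of_isUnit h]; trivial
  obtain ⟨r, hr⟩ := exists_root_of_not_isUnit hR0 hnu
  obtain ⟨rfl, h1⟩ := hroot r hr
  refine ⟨fun u hu => ?_, h1, ?_⟩
  · rw [hUR, mem_mult] at hu
    exact eval_eq_zero_of_dvd_of_eval_eq_zero hu hr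
  · have := eval_eq_zero_of_dvd_of_eval_eq_zero (x := -1) hdvd (by simpa [expand_eval] using hr)
    rw [eval_mul] at this
    refine (mul_eq_zero.mp this).resolve_right fun h => ?_
    have := (hroot _ h).1
    norm_num at this

lemma P_eval_one {t : ℝ} (ht : t ∈ Icc (0 : ℝ) 1) : (A.P t).eval 1 = (A.P 0).eval 1 := by
  have := U1_facts.1 (A.Pv t - A.Pv 0) (Submodule.subset_span ⟨t, ht, rfl⟩)
  rw [Submodule.coe_sub, Pv_coe ht, Pv_coe zero_mem01, eval_sub] at this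
  exact sub_eq_zero.mp this

lemma P_eval_one_ne {t : ℝ} (ht : t ∈ Icc (0 : ℝ) 1) : (A.P t).eval 1 ≠ 0 := by
  rw [P_eval_one ht]; exact U1_facts.2.1

lemma mem_U1_of_eval {v : A.V} (hv : (v : ℂ[X]).eval 1 = 0) : v ∈ A.U1 := by
  obtain ⟨u, hu, c, rfl⟩ := U1_decomp v
  rw [Submodule.coe_add, Submodule.coe_smul, eval_add, U1_facts.1 u hu, zero_add, eval_smul,
    Pv_coe zero_mem01, smul_eq_mul] at hv
  rw [(mul_eq_zero.mp hv).resolve_right U1_facts.2.1, zero_smul, add_zero]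
  exact hu

lemma contr {w : A.V} (hw : (w : ℂ[X]).eval 1 = 0) (h0 : w ≠ 0) {μ : ℂ} (h : A.T0 w = μ • w) :
    ‖μ‖ < 1 := by
  obtain ⟨ℓ, hℓ⟩ := Module.Projective.exists_dual_ne_zero ℂ h0
  have h1 := tendsto_U1 (mem_U1_of_eval hw) ℓ
  have e : ∀ n : ℕ, (A.T0 ^ n) w = μ ^ n • w := by
    intro n
    induction n with
    | zero => simp
    | succ n ih => rw [pow_succ', End.mul_apply, ih, map_smul, h, smul_smul, pow_succ]
  simp only [e, map_smul, smul_eq_mul] at h1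
  have h2 := h1.mul_const (ℓ w)⁻¹
  simp only [mul_assoc, mul_inv_cancel₀ hℓ, mul_one, zero_mul] at h2
  exact tendsto_pow_atTop_nhds_zero_iff_norm_lt_one.mp h2

lemma Inv.eq_top_of_eval {U : Submodule ℂ A.V} (hU : A.Inv U) {v : A.V} (hv : v ∈ U)
    (h1 : (v : ℂ[X]).eval 1 ≠ 0) : U = ⊤ := by
  apply hU.eq_top
  rw [← Subspace.forall_mem_dualAnnihilator_apply_eq_zero_iff]
  intro ℓ hℓ
  rw [Submodule.mem_dualAnnihilator] at hℓ
  obtain ⟨u, hu, c, rfl⟩ := U1_decomp v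
  have hc : c ≠ 0 := by
    rintro rfl
    exact h1 (by simpa using U1_facts.1 u hu)
  have hn : ∀ n : ℕ, (A.T0 ^ n) (u + c • A.Pv 0) ∈ U := by
    intro n
    induction n with
    | zero => simpa using hv
    | succ n ih => rw [pow_succ', End.mul_apply]; exact hU.1 _ ih
  have h2 := (tendsto_U1 hu ℓ).add_const (c * ℓ (A.Pv 0))
  have h3 : ∀ n : ℕ, ℓ ((A.T0 ^ n) u) + c * ℓ (A.Pv 0) = 0 := by
    intro n
    have := hℓ _ (hn n)
    rwa [map_add, map_smul, T0_pow_Pv0, map_add, map_smul] at this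
  simp only [h3, zero_add] at h2
  exact (mul_eq_zero.mp (tendsto_nhds_unique tendsto_const_nhds h2).symm).resolve_left hc

variable (A) in
/-- order of the zero of the symbol at `-1` -/
noncomputable def M : ℕ := rootMultiplicity 1 A.χ

lemma dvd_χ_iff (j : ℕ) : (X - C 1 : ℂ[X]) ^ j ∣ A.χ ↔ (X + C 1 : ℂ[X]) ^ j ∣ A.D := by
  constructor
  · intro h
    have := map_dvd (compRingHom (-X)) h
    simp only [map_pow, coe_compRingHom_apply, χ, comp_neg_neg, sub_comp, X_comp, C_comp] at this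
    rw [show (-X - C 1 : ℂ[X]) = -(X + C 1) by ring, neg_pow] at this
    exact Dvd.dvd.trans (Dvd.intro_left _ rfl) this
  · intro h
    have := map_dvd (compRingHom (-X)) h
    simp only [map_pow, coe_compRingHom_apply, add_comp, X_comp, C_comp] at this
    rw [show (-X + C 1 : ℂ[X]) = -(X - C 1) by ring, neg_pow] at this
    exact Dvd.dvd.trans (Dvd.intro_left _ rfl) this

lemma le_M_iff (j : ℕ) : j ≤ A.M ↔ (X - C 1 : ℂ[X]) ^ j ∣ A.χ :=
  le_rootMultiplicity_iff A.χ_ne_zero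

lemma M_pos : 1 ≤ A.M := by
  rw [le_M_iff, pow_one, dvd_iff_isRoot]
  simpa [χ] using U1_facts.2.2

lemma expand_X_sub_one_pow (j : ℕ) :
    expand ℂ 2 ((X - C 1 : ℂ[X]) ^ j) = (X + C 1) ^ j * (X - C 1) ^ j := by
  rw [map_pow, ← mul_pow]
  congr 1
  simp only [map_sub, expand_X, map_one]; ring

lemma inv_W {j : ℕ} (hj : j ≤ A.M) : A.Inv (A.mult ((X - C 1) ^ j)) := by
  apply inv_mult
  rw [expand_X_sub_one_pow]
  exact mul_dvd_mul_right ((dvd_χ_iff j).mp ((le_M_iff j).mp hj)) _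

lemma Inv.W_le {U : Submodule ℂ A.V} (hU : A.Inv U) (hne : U ≠ ⊥) :
    A.mult ((X - C 1) ^ A.M) ≤ U := by
  obtain ⟨R, hR0, hUR, hdvd⟩ := hU.exists_mult hne
  obtain ⟨R', hR', hnd⟩ := exists_eq_pow_rootMultiplicity_mul_and_not_dvd (R : ℂ[X]) hR0 1
  set j := rootMultiplicity 1 (R : ℂ[X])
  have hX : (X - C 1 : ℂ[X]) ^ j ≠ 0 := pow_ne_zero _ (X_sub_C_ne_zero 1)
  have h1 : (X + C 1) ^ j * expand ℂ 2 R' ∣ A.D * R' := by
    rw [hR', map_mul, expand_X_sub_one_pow] at hdvd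
    apply (mul_dvd_mul_iff_left hX).mp
    convert hdvd using 1 <;> ring
  have hmem : R' ∈ A.V := mem_V_of_dvd R.2 hR0 ⟨(X - C 1) ^ j, by rw [mul_comm]; exact hR'⟩
  have h2 : A.mult R' = ⊤ := (inv_mult A (Dvd.dvd.trans (Dvd.intro_left _ rfl) h1)).eq_top_of_eval
    (v := ⟨R', hmem⟩) dvd_rfl (fun h => hnd (dvd_iff_isRoot.mpr h))
  have h1mem : (1 : ℂ[X]) ∈ A.V := by
    rw [mem_degreeLT_iff]; intro i hi; rw [coeff_one, if_neg (by omega)]
  have hu : IsUnit R' := isUnit_of_dvd_one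
    (A.mem_mult.mp (h2 ▸ Submodule.mem_top : (⟨1, h1mem⟩ : A.V) ∈ A.mult R'))
  have h3 : j ≤ A.M := by
    rw [le_M_iff, dvd_χ_iff]
    exact hu.dvd_mul_right.mp (Dvd.dvd.trans (Dvd.intro _ rfl) h1)
  intro p hp
  rw [hUR, mem_mult, hR', hu.mul_right_dvd]
  exact (pow_dvd_pow _ h3).trans hp

end PolyData

end Pool.Agent.MP_057a77_an

end

-- part MP_057a77_an.Poly3
section

/-!
The case of a symbol that is not a power of `1 + z`.
-/

namespace Pool.Agent.MP_057a77_an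

open Module Function Polynomial Set

namespace PolyData

variable (A : PolyData)

lemma m_pos : 1 ≤ A.m := by
  have h := natDegree_le_of_mem (A.deg 0 zero_mem01)
  rw [A.shift, natDegree_X_mul P1_ne] at h
  omega

lemma χ_dvd_S (v : A.V) :
    A.χ ∣ X * (v : ℂ[X]) - (((A.isUnit_T1.unit⁻¹ * A.isUnit_T0.unit : (End ℂ A.V)ˣ) :
      End ℂ A.V) v : ℂ[X]) := by
  set s := ((A.isUnit_T1.unit⁻¹ * A.isUnit_T0.unit : (End ℂ A.V)ˣ) : End ℂ A.V) v with hs
  have h1 : A.T1 s = A.T0 v := by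
    have : A.T1 * ((A.isUnit_T1.unit⁻¹ * A.isUnit_T0.unit : (End ℂ A.V)ˣ) : End ℂ A.V) = A.T0 := by
      rw [Units.val_mul, ← mul_assoc, IsUnit.mul_val_inv, one_mul, IsUnit.unit_spec]
    rw [hs, ← End.mul_apply, this]
  apply dvd_of_od_eq_zero A.coprime
  have h2 := congrArg Subtype.val h1
  rw [T1_coe, T0_coe] at h2
  rw [mul_sub, map_sub, h2, mul_left_comm, od_X_mul, sub_self]

lemma X_sub_one_pow_mem {j : ℕ} (hj : j ≤ A.m) : (X - C 1 : ℂ[X]) ^ j ∈ A.V := by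
  rw [mem_degreeLT, degree_pow, degree_X_sub_C]
  simp only [nsmul_eq_mul, mul_one]
  exact_mod_cast Nat.lt_succ_of_le hj

/-- the abstract data attached to polynomial data -/
noncomputable def setup (hM : A.M ≤ A.m) : Setup A.V where
  T0 := A.isUnit_T0.unit
  T1 := A.isUnit_T1.unit
  W j := A.mult ((X - C 1) ^ j)
  M := A.M
  P0 := A.Pv 0
  K := {q | ∃ t ∈ Icc (0 : ℝ) 1, q = A.Pv t}
  M_pos := M_pos
  W_zero := mult_eq_top_of_isUnit (by simp)
  W_anti j p hp := (pow_dvd_pow _ (Nat.le_succ j)).trans hp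
  W_ne := (Submodule.ne_bot_iff _).mpr ⟨⟨_, A.X_sub_one_pow_mem hM⟩, dvd_rfl, fun h =>
    pow_ne_zero _ (X_sub_C_ne_zero 1) (congrArg Subtype.val h)⟩
  inv0 j hj := (inv_W hj).1
  inv1 j hj := (inv_W hj).2
  hmin U h0 h1 hne := Inv.W_le ⟨h0, h1⟩ hne
  hmax U h0 h1 hle := by
    obtain ⟨v, hv, hv'⟩ := SetLike.not_le_iff_exists.mp hle
    refine Inv.eq_top_of_eval ⟨h0, h1⟩ hv fun h => hv' ?_
    rw [mem_mult, pow_one]; exact dvd_iff_isRoot.mpr h
  hS j hj v hv := by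
    have h1 := ((le_M_iff (j + 1)).mp hj).trans (A.χ_dvd_S v)
    rw [mem_mult] at *
    have h2 : (X - C 1 : ℂ[X]) ^ (j + 1) ∣ (X - C 1) * (v : ℂ[X]) := by
      rw [pow_succ']; exact mul_dvd_mul_left _ hv
    convert dvd_sub h2 h1 using 1
    rw [Submodule.coe_sub, map_one]; ring
  hS' i hi v hv := by
    have h1 := ((le_M_iff (i + 2)).mp hi).trans (A.χ_dvd_S v)
    rw [mem_mult] at *
    have h2 : (X - C 1 : ℂ[X]) ^ (i + 2) ∣ (X - C 1) * (v : ℂ[X]) := by
      convert dvd_add hv h1 using 1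
      rw [Submodule.coe_sub, map_one]; ring
    rw [pow_succ'] at h2
    exact (mul_dvd_mul_iff_left (X_sub_C_ne_zero 1)).mp h2
  hcodim j _ e he he' v hv := by
    obtain ⟨e', he1⟩ := he
    obtain ⟨v', hv1⟩ := hv
    have h1 : e'.eval 1 ≠ 0 := by
      intro h
      apply he'
      rw [mem_mult, he1, pow_succ]
      exact mul_dvd_mul_left _ (dvd_iff_isRoot.mpr h)
    refine ⟨v'.eval 1 / e'.eval 1, ?_⟩
    rw [mem_mult, Submodule.coe_sub, Submodule.coe_smul, he1, hv1, ← mul_smul_comm, ← mul_sub,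
      pow_succ]
    refine mul_dvd_mul_left _ (dvd_iff_isRoot.mpr ?_)
    rw [IsRoot.def, eval_sub, eval_smul, smul_eq_mul, div_mul_cancel₀ _ h1, sub_self]
  hSW w hw h := by
    have h1 := A.χ_dvd_S w
    rw [h] at h1
    obtain ⟨c, hc⟩ := h1
    obtain ⟨w', hw'⟩ := hw
    by_contra h0
    have hw0 : (w : ℂ[X]) ≠ 0 := fun h => h0 (Subtype.ext h)
    have e : (X - C 1) * (w : ℂ[X]) = A.χ * c := by rw [← hc, map_one]; ring
    have hc0 : c ≠ 0 := by
      rintro rfl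
      rw [mul_zero] at e
      exact mul_ne_zero (X_sub_C_ne_zero 1) hw0 e
    have hd := congrArg natDegree e
    rw [natDegree_mul (X_sub_C_ne_zero 1) hw0, natDegree_mul A.χ_ne_zero hc0, natDegree_X_sub_C,
      A.natDegree_χ] at hd
    have := natDegree_le_of_mem w.2
    have hcu : IsUnit c := by
      rw [isUnit_iff_degree_eq_zero, degree_eq_natDegree hc0]
      exact_mod_cast (by omega : c.natDegree = 0)
    have h2 : (X - C 1 : ℂ[X]) ^ (A.M + 1) ∣ A.χ := by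
      rw [← hcu.dvd_mul_right, ← e, hw', pow_succ', ← mul_assoc]
      exact dvd_mul_right _ _
    have := (le_M_iff _).mpr h2
    omega
  hP0 := T0_Pv0
  hP0' := by
    rw [mem_mult, pow_one, dvd_iff_isRoot, Pv_coe zero_mem01]
    exact P_eval_one_ne zero_mem01
  hcontr w hw h0 μ h := by
    rw [mem_mult, pow_one, dvd_iff_isRoot] at hw
    exact contr hw h0 h
  K0 := by rintro _ ⟨t, ht, rfl⟩; exact ⟨_, half_mem ht, T0_Pv ht⟩
  K1 := by rintro _ ⟨t, ht, rfl⟩; exact ⟨_, half_mem' ht, T1_Pv ht⟩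

lemma exists_coeff_ne {N : Submodule ℝ A.V} {p : A.V} (hp : p ∈ Submodule.span ℂ (N : Set A.V))
    {i : ℕ} (hi : (p : ℂ[X]).coeff i ≠ 0) : ∃ w ∈ N, (w : ℂ[X]).coeff i ≠ 0 := by
  by_contra h
  push Not at h
  have hle : Submodule.span ℂ (N : Set A.V) ≤ LinearMap.ker ((lcoeff ℂ i) ∘ₗ A.V.subtype) := by
    rw [Submodule.span_le]
    intro w hw
    simpa using h w hw
  exact hi (by simpa using hle hp)

theorem good_of_M_le (hM : A.M ≤ A.m) :
    ∃ t ∈ Icc (0 : ℝ) 1, ∀ r : ℂ, ‖r‖ = 1 → (A.P t).eval r ≠ 0 := by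
  by_contra hcon
  push Not at hcon
  obtain ⟨F, hF⟩ := exists_resForm A.m A.m_pos
  have hFv : F ∈ (conjP A.m).van (slotType A.m) (A.setup hM).K := by
    rintro _ ⟨t, ht, rfl⟩
    obtain ⟨r, hr, h⟩ := hcon t ht
    rw [hF, Pv_coe ht]
    exact ⟨r, h, starP_eval_eq_zero (A.deg t ht) hr h⟩
  have key : ∀ t ∈ Icc (0 : ℝ) 1, ∃ N : Submodule ℝ A.V,
      (∀ p : A.V, (X - C 1) ^ A.M ∣ (p : ℂ[X]) → p ∈ Submodule.span ℂ (N : Set A.V)) ∧
      ∀ w ∈ N, A.P t * starP A.m w = starP A.m (A.P t) * w := by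
    intro t ht
    obtain ⟨N, -, h2, h3⟩ := Setup.main (A := A.setup hM) (C := conjP A.m) (b := slotType A.m)
      (q := A.Pv t) ⟨t, ht, rfl⟩ (by
        show ¬ (X - C 1) ^ 1 ∣ (A.Pv t : ℂ[X])
        rw [pow_one, dvd_iff_isRoot, Pv_coe ht]
        exact P_eval_one_ne ht)
    refine ⟨N, fun p hp => h2 hp, selfdual hM (P_eval_one_ne ht) N (fun p hp => h2 hp) ?_⟩
    intro w hw
    have := (hF _).mp (h3 w hw F hFv)
    rwa [Submodule.coe_add, Pv_coe ht] at this
  obtain ⟨N0, a0, b0⟩ := key 0 zero_mem01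
  obtain ⟨N1, a1, b1⟩ := key 1 one_mem01
  obtain ⟨w, hw, hw0⟩ := A.exists_coeff_ne (a0 ⟨_, A.X_sub_one_pow_mem hM⟩ dvd_rfl) (i := 0) (by
    rw [coeff_zero_eq_eval_zero]; simp)
  obtain ⟨w', hw', hw1⟩ := A.exists_coeff_ne (a1 ⟨_, A.X_sub_one_pow_mem le_rfl⟩
    (pow_dvd_pow _ hM)) (i := A.m) (by
      have := ((monic_X_sub_C (1 : ℂ)).pow A.m).coeff_natDegree
      rw [natDegree_pow, natDegree_X_sub_C, mul_one] at this
      show ((X - C 1 : ℂ[X]) ^ A.m).coeff A.m ≠ 0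
      rw [this]; exact one_ne_zero)
  have e0 := b0 w hw
  have e1 := b1 w' hw'
  have hs : starP A.m (A.P 1) = X * starP A.m (A.P 0) := by
    rw [A.shift]; exact starP_shift (A.shift ▸ A.deg 0 zero_mem01)
  rw [hs] at e1
  set Q := starP A.m (A.P 0)
  rw [A.shift] at e0
  have e2 : A.P 1 * (X ^ 2 * starP A.m w * (w' : ℂ[X])) = A.P 1 * (starP A.m w' * (w : ℂ[X])) := by
    linear_combination (X * (w' : ℂ[X])) * e0 - (w : ℂ[X]) * e1
  have e3 := congrArg (Polynomial.eval 0) (mul_left_cancel₀ P1_ne e2)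
  simp only [eval_mul, eval_pow, eval_X, ← coeff_zero_eq_eval_zero, coeff_starP, revAt_zero] at e3
  simp [hw0, hw1] at e3

end PolyData

end Pool.Agent.MP_057a77_an

end

-- part MP_057a77_an.Spline
section

/-!
The case of B-splines.
-/

namespace Pool.Agent.MP_057a77_an

open Module Function Polynomial Set intervalIntegral

lemma clm_int_nonneg {f : ℝ → ℂ} (hf : Continuous f) (Λ : ℂ →L[ℝ] ℝ) {a b : ℝ} (hab : a ≤ b)
    (h : ∀ x ∈ Icc a b, 0 ≤ Λ (f x)) : 0 ≤ Λ (∫ x in a..b, f x) := by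
  rw [← Λ.intervalIntegral_comp_comm (hf.intervalIntegrable a b)]
  exact integral_nonneg hab h

lemma int_pos {f : ℝ → ℂ} (hf : Continuous f) (σ : ℝ) (κ : ℂ) {a b c d : ℝ} (hab : a ≤ b)
    (hcd : c ≤ d)
    (h : ∀ x ∈ Icc a b, ∀ y ∈ Icc c d, 0 ≤ σ * (starRingEnd ℂ (f x) * κ * f y).im) :
    0 ≤ σ * (starRingEnd ℂ (∫ x in a..b, f x) * κ * ∫ y in c..d, f y).im := by
  have h1 : ∀ x ∈ Icc a b, 0 ≤ σ * (starRingEnd ℂ (f x) * κ * ∫ y in c..d, f y).im := by
    intro x hx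
    exact clm_int_nonneg hf
      (σ • Complex.imCLM.comp (ContinuousLinearMap.mul ℝ ℂ (starRingEnd ℂ (f x) * κ))) hcd (h x hx)
  have := clm_int_nonneg hf
    (σ • (Complex.imCLM.comp (ContinuousLinearMap.mul ℝ ℂ (κ * ∫ y in c..d, f y))).comp
      Complex.conjCLE.toContinuousLinearMap) hab (fun x hx => by
        have := h1 x hx
        rwa [mul_assoc, mul_comm (starRingEnd ℂ (f x))] at this)
  rwa [mul_assoc, mul_comm (starRingEnd ℂ _)]

/-- monotone argument property -/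
def ArgMono (r : ℂ) (f : ℝ → ℂ) : Prop :=
  (∀ x ∈ Icc (0 : ℝ) 1, ∀ y ∈ Icc (0 : ℝ) 1, x ≤ y →
    0 ≤ -r.im * (starRingEnd ℂ (f x) * 1 * f y).im) ∧
  (∀ x ∈ Icc (0 : ℝ) 1, ∀ y ∈ Icc (0 : ℝ) 1, y ≤ x →
    0 ≤ -r.im * (starRingEnd ℂ (f x) * starRingEnd ℂ r * f y).im) ∧
  ∀ x ∈ Icc (0 : ℝ) 1, f x ≠ 0

lemma argMono_one (r : ℂ) : ArgMono r (fun _ => 1) := by
  refine ⟨fun _ _ _ _ _ => by simp, fun _ _ _ _ _ => ?_, fun _ _ => one_ne_zero⟩
  simpa using mul_self_nonneg r.im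

lemma ArgMono.step {r : ℂ} (hr : ‖r‖ = 1) (him : r.im ≠ 0) {f : ℝ → ℂ} (hf : Continuous f)
    (h : ArgMono r f) :
    ArgMono r (fun t => (∫ x in (0 : ℝ)..t, f x) +
      r * ((∫ x in (0 : ℝ)..1, f x) - ∫ x in (0 : ℝ)..t, f x)) := by
  have hrr : r.re ^ 2 + r.im ^ 2 = 1 := by
    have := Complex.sq_norm r
    rw [hr, Complex.normSq_apply] at this
    linarith
  have split : ∀ a b : ℝ, ∫ x in (0 : ℝ)..b, f x = (∫ x in (0 : ℝ)..a, f x) + ∫ x in a..b, f x :=
    fun a b => (integral_add_adjacent_intervals (hf.intervalIntegrable _ _)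
      (hf.intervalIntegrable _ _)).symm
  -- the three pieces
  have pieces : ∀ x ∈ Icc (0 : ℝ) 1, ∀ y ∈ Icc (0 : ℝ) 1, x ≤ y →
      0 ≤ -r.im * (starRingEnd ℂ (∫ s in (0 : ℝ)..x, f s) * 1 * ∫ s in x..y, f s).im ∧
      0 ≤ -r.im * (starRingEnd ℂ (∫ s in x..y, f s) * 1 * ∫ s in y..1, f s).im ∧
      0 ≤ -r.im * (starRingEnd ℂ (∫ s in y..1, f s) * starRingEnd ℂ r * ∫ s in x..y, f s).im ∧
      0 ≤ -r.im * (starRingEnd ℂ (∫ s in x..y, f s) * starRingEnd ℂ r *
        ∫ s in (0 : ℝ)..x, f s).im := by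
    intro x hx y hy hxy
    refine ⟨int_pos hf _ _ hx.1 hxy fun a ha b hb => h.1 a ⟨ha.1, ha.2.trans hx.2⟩ b
        ⟨hx.1.trans hb.1, hb.2.trans hy.2⟩ (ha.2.trans hb.1),
      int_pos hf _ _ hxy hy.2 fun a ha b hb => h.1 a ⟨hx.1.trans ha.1, ha.2.trans hy.2⟩ b
        ⟨hy.1.trans hb.1, hb.2⟩ (ha.2.trans hb.1),
      int_pos hf _ _ hy.2 hxy fun a ha b hb => h.2.1 a ⟨hy.1.trans ha.1, ha.2⟩ b
        ⟨hx.1.trans hb.1, hb.2.trans hy.2⟩ (hb.2.trans ha.1),
      int_pos hf _ _ hxy hx.1 fun a ha b hb => h.2.1 a ⟨hx.1.trans ha.1, ha.2.trans hy.2⟩ b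
        ⟨hb.1, hb.2.trans hx.2⟩ (hb.2.trans ha.1)⟩
  have id1 : ∀ A B C : ℂ, -r.im * (starRingEnd ℂ (A + r * (A + B + C - A)) * 1 *
      (A + B + r * (A + B + C - (A + B)))).im =
      -r.im * (starRingEnd ℂ A * 1 * B).im + -r.im * (starRingEnd ℂ B * 1 * C).im +
      -r.im * (starRingEnd ℂ C * starRingEnd ℂ r * B).im +
      -r.im * (starRingEnd ℂ B * starRingEnd ℂ r * A).im + r.im ^ 2 * ‖B‖ ^ 2 := by
    intro A B C
    rw [Complex.sq_norm, Complex.normSq_apply]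
    simp only [map_add, map_mul, map_sub, Complex.mul_im, Complex.mul_re, Complex.add_re,
      Complex.add_im, Complex.sub_re, Complex.sub_im, Complex.conj_re, Complex.conj_im,
      Complex.one_re, Complex.one_im]
    linear_combination (-r.im * (B.re * C.im - B.im * C.re)) * hrr
  have id2 : ∀ A B C : ℂ, -r.im * (starRingEnd ℂ (A + B + r * (A + B + C - (A + B))) *
      starRingEnd ℂ r * (A + r * (A + B + C - A))).im =
      -r.im * (starRingEnd ℂ A * 1 * B).im + -r.im * (starRingEnd ℂ B * 1 * C).im +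
      -r.im * (starRingEnd ℂ C * starRingEnd ℂ r * B).im +
      -r.im * (starRingEnd ℂ B * starRingEnd ℂ r * A).im + r.im ^ 2 * ‖A + r * C‖ ^ 2 := by
    intro A B C
    rw [Complex.sq_norm, Complex.normSq_apply]
    simp only [map_add, map_mul, map_sub, Complex.mul_im, Complex.mul_re, Complex.add_re,
      Complex.add_im, Complex.sub_re, Complex.sub_im, Complex.conj_re, Complex.conj_im,
      Complex.one_re, Complex.one_im]
    linear_combination (-r.im * ((A.re * B.im - A.im * B.re) + (B.re * C.im - B.im * C.re) +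
      (r.re * (C.re * B.im - C.im * B.re) - r.im * (C.re * B.re + C.im * B.im)))) * hrr
  refine ⟨fun x hx y hy hxy => ?_, fun x hx y hy hxy => ?_, fun x hx h0 => ?_⟩
  · obtain ⟨p1, p2, p3, p4⟩ := pieces x hx y hy hxy
    simp only
    rw [split y 1, split x y, id1]
    positivity
  · obtain ⟨p1, p2, p3, p4⟩ := pieces y hy x hx hxy
    simp only
    rw [split x 1, split y x, id2]
    positivity
  · simp only at h0
    have hi2 : 0 < r.im ^ 2 := by positivity
    have hr0 : r ≠ 0 := by rintro rfl; simp at him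
    have a1 : ∀ y ∈ Icc (0 : ℝ) 1, x ≤ y → ∫ s in x..y, f s = 0 := by
      intro y hy hxy
      obtain ⟨p1, p2, p3, p4⟩ := pieces x hx y hy hxy
      have := id1 (∫ s in (0 : ℝ)..x, f s) (∫ s in x..y, f s) (∫ s in y..1, f s)
      rw [split y 1, split x y] at h0
      rw [h0, map_zero, zero_mul, zero_mul, Complex.zero_im, mul_zero] at this
      have h2 : r.im ^ 2 * ‖∫ s in x..y, f s‖ ^ 2 ≤ 0 := by linarith
      have h3 : ‖∫ s in x..y, f s‖ ^ 2 ≤ 0 := nonpos_of_mul_nonpos_right h2 hi2 |> fun h => h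
      simpa using le_antisymm h3 (by positivity)
    have a2 : ∀ y ∈ Icc (0 : ℝ) 1, y ≤ x → ∫ s in (0 : ℝ)..y, f s = 0 := by
      intro y hy hxy
      obtain ⟨p1, p2, p3, p4⟩ := pieces y hy x hx hxy
      have := id2 (∫ s in (0 : ℝ)..y, f s) (∫ s in y..x, f s) (∫ s in x..1, f s)
      rw [split x 1, split y x] at h0
      rw [h0, map_zero, zero_mul, zero_mul, Complex.zero_im, mul_zero] at this
      have h2 : r.im ^ 2 * ‖(∫ s in (0 : ℝ)..y, f s) + r * ∫ s in x..1, f s‖ ^ 2 ≤ 0 := by linarith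
      have h3 : ‖(∫ s in (0 : ℝ)..y, f s) + r * ∫ s in x..1, f s‖ ^ 2 ≤ 0 :=
        nonpos_of_mul_nonpos_right h2 hi2 |> fun h => h
      have h4 := le_antisymm h3 (by positivity)
      rw [a1 1 one_mem01 hx.2] at h4
      simpa using h4
    have a3 : ∀ y ∈ Icc (0 : ℝ) 1, ∫ s in (0 : ℝ)..y, f s = 0 := by
      intro y hy
      rcases le_total x y with hxy | hxy
      · rw [split x y, a1 y hy hxy, a2 x hx le_rfl, add_zero]
      · exact a2 y hy hxy
    have hd := (hf.integral_hasStrictDerivAt 0 (1 / 2)).hasDerivAt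
    have hd2 : HasDerivAt (fun u => ∫ s in (0 : ℝ)..u, f s) 0 (1 / 2) := by
      refine (hasDerivAt_const (1 / 2 : ℝ) (0 : ℂ)).congr_of_eventuallyEq ?_
      filter_upwards [Icc_mem_nhds (show (0 : ℝ) < 1 / 2 by norm_num)
        (show (1 / 2 : ℝ) < 1 by norm_num)] with y hy using a3 y hy
    exact h.2.2 (1 / 2) ⟨by norm_num, by norm_num⟩ (hd.unique hd2)

/-- polynomial valued primitive -/
lemma exists_primitive {n : ℕ} {Q : ℝ → ℂ[X]} (hd : ∀ t, Q t ∈ degreeLT ℂ n)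
    (hc : ∀ ℓ : ℂ[X] →ₗ[ℂ] ℂ, Continuous fun t => ℓ (Q t)) :
    ∃ I : ℝ → ℂ[X], (∀ t, I t ∈ degreeLT ℂ n) ∧
      ∀ (ℓ : ℂ[X] →ₗ[ℂ] ℂ) (t : ℝ), ℓ (I t) = ∫ s in (0 : ℝ)..t, ℓ (Q s) := by
  refine ⟨fun t => ∑ j ∈ Finset.range n, (∫ s in (0 : ℝ)..t, (Q s).coeff j) • monomial j 1,
    fun t => ?_, fun ℓ t => ?_⟩
  · refine Submodule.sum_mem _ fun j hj => Submodule.smul_mem _ _ ?_
    rw [mem_degreeLT_iff]
    intro i hi
    rw [coeff_monomial, if_neg (by have := Finset.mem_range.mp hj; omega)]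
  · have e : ∀ s, ℓ (Q s) = ∑ j ∈ Finset.range n, (Q s).coeff j * ℓ (monomial j 1) := by
      intro s
      have : Q s = ∑ j ∈ Finset.range n, (Q s).coeff j • monomial j (1 : ℂ) := by
        ext i
        rw [finsetSum_coeff]
        simp only [coeff_smul, coeff_monomial, smul_eq_mul, mul_ite, mul_one, mul_zero,
          Finset.sum_ite_eq', Finset.mem_range]
        split_ifs with h
        · rfl
        · exact mem_degreeLT_iff.mp (hd s) i (not_lt.mp h)
      conv_lhs => rw [this]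
      simp only [map_sum, map_smul, smul_eq_mul]
    simp only [e, map_sum, map_smul, smul_eq_mul]
    rw [integral_finsetSum]
    · exact Finset.sum_congr rfl fun j _ => (integral_mul_const _ _).symm
    · intro j _
      exact ((hc (lcoeff ℂ j)).mul continuous_const).intervalIntegrable _ _

lemma exists_spline (n : ℕ) : ∃ Q : ℝ → ℂ[X], (∀ t, Q t ∈ degreeLT ℂ (n + 1)) ∧
    (∀ ℓ : ℂ[X] →ₗ[ℂ] ℂ, Continuous fun t => ℓ (Q t)) ∧
    (∀ t, C ((1 / 2) ^ n) * (X + C 1) ^ (n + 1) * Q t =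
      expand ℂ 2 (Q (t / 2)) + X * expand ℂ 2 (Q ((t + 1) / 2))) ∧
    (1 ≤ n → Q 0 = X * Q 1) ∧
    ∀ r : ℂ, ‖r‖ = 1 → r.im ≠ 0 → ArgMono r (fun t => (Q t).eval r) := by
  induction n with
  | zero =>
    refine ⟨fun _ => 1, fun _ => ?_, fun _ => continuous_const, fun _ => by simp [add_comm],
      by omega, fun r _ _ => by simpa using argMono_one r⟩
    rw [mem_degreeLT_iff]; intro i hi; rw [coeff_one, if_neg (by omega)]
  | succ n ih =>
    obtain ⟨Q, hd, hc, href, -, hpos⟩ := ih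
    obtain ⟨I, hId, hI⟩ := exists_primitive hd hc
    have hIe : ∀ (r : ℂ) (t : ℝ), (I t).eval r = ∫ s in (0 : ℝ)..t, (Q s).eval r := by
      intro r t; simpa using hI (leval r) t
    have hce : ∀ r : ℂ, Continuous fun t => (Q t).eval r := by
      intro r; simpa using hc (leval r)
    refine ⟨fun t => I t + X * (I 1 - I t), fun t => ?_, fun ℓ => ?_, fun t => ?_, fun _ => ?_,
      fun r hr him => ?_⟩
    · rw [mem_degreeLT_iff]
      intro i hi
      obtain ⟨k, rfl⟩ : ∃ k, i = k + 1 := ⟨i - 1, by omega⟩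
      rw [coeff_add, coeff_X_mul, mem_degreeLT_iff.mp (hId t) _ (by omega),
        mem_degreeLT_iff.mp (Submodule.sub_mem _ (hId 1) (hId t)) _ (by omega), add_zero]
    · have c1 : ∀ ℓ : ℂ[X] →ₗ[ℂ] ℂ, Continuous fun t => ℓ (I t) := by
        intro ℓ
        simp only [hI]
        exact continuous_primitive (fun a b => (hc ℓ).intervalIntegrable a b) 0
      simp only [map_add, mul_sub, map_sub]
      exact (c1 ℓ).add (continuous_const.sub (c1 (ℓ ∘ₗ LinearMap.mulLeft ℂ X)))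
    · apply Polynomial.funext
      intro r
      have key : ∀ u : ℝ, (1 / 2 : ℂ) ^ n * (r + 1) ^ (n + 1) * (I u).eval r =
          2 * (I (u / 2)).eval (r ^ 2) +
            2 * r * ((I ((u + 1) / 2)).eval (r ^ 2) - (I (1 / 2)).eval (r ^ 2)) := by
        intro u
        have h1 : ∀ s : ℝ, (1 / 2 : ℂ) ^ n * (r + 1) ^ (n + 1) * (Q s).eval r =
            (Q (s / 2)).eval (r ^ 2) + r * (Q (s / 2 + 1 / 2)).eval (r ^ 2) := by
          intro s
          have := congrArg (Polynomial.eval r) (href s)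
          rw [← add_div]
          simpa [expand_eval] using this
        rw [hIe, hIe, hIe, hIe, ← integral_const_mul]
        simp only [h1]
        have i1 : Continuous fun s : ℝ => (Q (s / 2)).eval (r ^ 2) :=
          (hce (r ^ 2)).comp (by fun_prop)
        have i2 : Continuous fun s : ℝ => (Q (s / 2 + 1 / 2)).eval (r ^ 2) :=
          (hce (r ^ 2)).comp (by fun_prop)
        rw [integral_add (i1.intervalIntegrable _ _)
          ((i2.intervalIntegrable _ _).const_mul r), integral_const_mul,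
          integral_comp_div (fun s => (Q s).eval (r ^ 2)) two_ne_zero,
          integral_comp_div_add (fun s => (Q s).eval (r ^ 2)) two_ne_zero,
          integral_interval_sub_left ((hce _).intervalIntegrable _ _)
            ((hce _).intervalIntegrable _ _)]
        simp only [zero_div, zero_add, add_div, Complex.real_smul, Complex.ofReal_ofNat]
        ring
      have k1 := key t
      have k2 := key 1
      norm_num at k2
      simp only [eval_mul, eval_add, eval_sub, eval_pow, eval_X, eval_C, expand_eval, map_add,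
        map_mul, map_sub, expand_X]
      simp only [one_div, inv_pow] at *
      rw [pow_succ (2 : ℂ), pow_succ (r + 1) (n + 1), mul_inv]
      linear_combination ((1 - r) * (r + 1) / 2) * k1 + (r * (r + 1) / 2) * k2
    · have : I 0 = 0 := by
        apply Polynomial.funext
        intro r; rw [hIe]; simp
      simp [this]
    · have := (hpos r hr him).step hr him (hce r)
      simpa [hIe] using this

namespace PolyData

variable (A : PolyData)

theorem good_of_lt_M (hM : A.m < A.M) :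
    ∃ t ∈ Icc (0 : ℝ) 1, ∀ r : ℂ, ‖r‖ = 1 → (A.P t).eval r ≠ 0 := by
  obtain ⟨c, hc⟩ := (dvd_χ_iff (A := A) (A.m + 1)).mp ((le_M_iff _).mp hM)
  have hX : (X + C 1 : ℂ[X]) ^ (A.m + 1) ≠ 0 := pow_ne_zero _ (X_add_C_ne_zero 1)
  have hc0 : c ≠ 0 := by rintro rfl; exact A.D_ne_zero (by simpa using hc)
  have hd := congrArg natDegree hc
  rw [natDegree_mul hX hc0, A.natDegree_D, natDegree_pow, natDegree_X_add_C] at hd
  have hc1 : c = C (c.coeff 0) := eq_C_of_natDegree_eq_zero (by omega)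
  have hD1 : A.D.eval 1 = 2 := by
    have := congrArg (Polynomial.eval 1) (A.ref 0 zero_mem01)
    simp only [eval_mul, eval_add, expand_eval, one_pow, eval_X, one_mul,
      P_eval_one (half_mem zero_mem01), P_eval_one (half_mem' zero_mem01)] at this
    exact mul_right_cancel₀ (P_eval_one_ne (A := A) zero_mem01) (by rw [this]; ring)
  have hD : A.D = C ((1 / 2) ^ A.m) * (X + C 1) ^ (A.m + 1) := by
    have h2 := hD1
    rw [hc, hc1] at h2
    simp only [eval_mul, eval_pow, eval_add, eval_X, eval_C] at h2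
    rw [hc, hc1, mul_comm]
    congr 2
    have h3 : (2 : ℂ) ^ (A.m + 1) ≠ 0 := pow_ne_zero _ two_ne_zero
    apply mul_left_cancel₀ h3
    rw [show (2 : ℂ) = 1 + 1 by norm_num, h2, pow_succ', mul_assoc, ← mul_pow]
    norm_num
  obtain ⟨Q, hQd, hQc, hQr, hQs, hQp⟩ := exists_spline A.m
  rw [← hD] at hQr
  -- uniqueness
  have hfix : A.T0 ⟨Q 0, hQd 0⟩ = ⟨Q 0, hQd 0⟩ := by
    apply Subtype.ext
    rw [T0_coe, hQr 0, ev_comb, zero_div]
  set γ : ℂ := (Q 0).eval 1 / (A.P 0).eval 1 with hγ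
  have h0 : Q 0 - γ • A.P 0 = 0 := by
    by_contra hne
    have := contr (A := A) (w := ⟨Q 0, hQd 0⟩ - γ • A.Pv 0) (by
      rw [Submodule.coe_sub, Submodule.coe_smul, Pv_coe zero_mem01, eval_sub, eval_smul,
        smul_eq_mul, hγ, div_mul_cancel₀ _ (P_eval_one_ne zero_mem01), sub_self])
      (fun h => hne (by simpa [Pv_coe zero_mem01] using congrArg Subtype.val h)) (μ := 1)
      (by rw [map_sub, map_smul, hfix, T0_Pv0, one_smul])
    simp at this
  have hall := dyadic_ind_fun (P := fun t => Q t - γ • A.P t) (fun ℓ => by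
      simp only [map_sub, map_smul]
      exact (hQc ℓ).continuousOn.sub ((A.cont ℓ).const_smul γ)) ⊥ zero_mem01 (by simpa using h0)
    (fun t ht h => by
      rw [Submodule.mem_bot, sub_eq_zero] at *
      rw [← A.ev_P ht, ← map_smul, ← mul_smul_comm, ← h, hQr, ev_comb])
    (fun t ht h => by
      rw [Submodule.mem_bot, sub_eq_zero] at *
      rw [← A.od_P ht, ← map_smul, ← mul_smul_comm, ← h, hQr, od_comb])
  obtain ⟨t, ht, hne⟩ := A.nocommon (-1)
  refine ⟨t, ht, fun r hr h => ?_⟩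
  by_cases him : r.im = 0
  · have hre : r.re ^ 2 = 1 := by
      have := Complex.sq_norm r
      rw [hr, Complex.normSq_apply, him] at this
      linarith
    rcases sq_eq_one_iff.mp hre with h1 | h1
    · have : r = 1 := Complex.ext (by simpa using h1) (by simpa using him)
      exact P_eval_one_ne ht (this ▸ h)
    · have : r = -1 := Complex.ext (by simpa using h1) (by simpa using him)
      exact hne (this ▸ h)
  · have h1 := (hQp r hr him).2.2 t ht
    have h2 := hall t ht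
    rw [Submodule.mem_bot, sub_eq_zero] at h2
    apply h1
    simp only [h2, eval_smul, h, smul_zero]

/-- The main theorem in polynomial form. -/
theorem good : ∃ t ∈ Icc (0 : ℝ) 1, ∀ r : ℂ, ‖r‖ = 1 → (A.P t).eval r ≠ 0 := by
  rcases le_or_gt A.M A.m with h | h
  · exact A.good_of_M_le h
  · exact A.good_of_lt_M h

end PolyData

end Pool.Agent.MP_057a77_an

end

-- part MP_057a77_an.Reduce
section

/-!
From refinable functions to polynomial data.
-/

namespace Pool.Agent.MP_057a77_an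

open Module Function Polynomial Set

/-- `e^{2 π i ξ}` -/
noncomputable def ee (ξ : ℝ) : ℂ := Complex.exp (2 * Real.pi * Complex.I * ξ)

lemma ee_ne (ξ : ℝ) : ee ξ ≠ 0 := Complex.exp_ne_zero _

lemma exp_eq_zpow (k : ℤ) (ξ : ℝ) :
    Complex.exp (2 * Real.pi * Complex.I * k * ξ) = ee ξ ^ k := by
  rw [ee, ← Complex.exp_int_mul]; congr 1; ring

lemma norm_ee (ξ : ℝ) : ‖ee ξ‖ = 1 := by
  have : (2 * Real.pi * Complex.I * ξ : ℂ) = ((2 * Real.pi * ξ : ℝ) : ℂ) * Complex.I := by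
    push_cast; ring
  rw [ee, this, Complex.norm_exp_ofReal_mul_I]

lemma exists_ee {r : ℂ} (hr : ‖r‖ = 1) : ∃ ξ : ℝ, ee ξ = r := by
  refine ⟨Complex.arg r / (2 * Real.pi), ?_⟩
  have hp : (Real.pi : ℂ) ≠ 0 := by exact_mod_cast Real.pi_ne_zero
  have : (2 * Real.pi * Complex.I * ((Complex.arg r / (2 * Real.pi) : ℝ) : ℂ)) =
      Complex.arg r * Complex.I := by
    push_cast; field_simp
  rw [ee, this]
  have h := Complex.norm_mul_exp_arg_mul_I r
  rwa [hr, Complex.ofReal_one, one_mul] at h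

lemma ee_add (x y : ℝ) : ee (x + y) = ee x * ee y := by
  rw [ee, ee, ee, ← Complex.exp_add]; congr 1; push_cast; ring

lemma ee_half : ee (1 / 2) = -1 := by
  rw [ee, ← Complex.exp_pi_mul_I]; congr 1; push_cast; ring

lemma ee_zero : ee 0 = 1 := by simp [ee]

lemma ee_nat_mul (n : ℕ) (x : ℝ) : ee (n * x) = ee x ^ n := by
  rw [ee, ee, ← Complex.exp_nat_mul]; congr 1; push_cast; ring

lemma ee_eq_one_iff (x : ℝ) : ee x = 1 ↔ ∃ k : ℤ, x = k := by
  rw [ee, Complex.exp_eq_one_iff]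
  refine exists_congr fun k => ⟨fun h => ?_, fun h => by rw [h]; push_cast; ring⟩
  have : (x : ℂ) = k := mul_left_cancel₀ Complex.two_pi_I_ne_zero (by rw [h]; ring)
  exact_mod_cast this

lemma ee_int (k : ℤ) : ee k = 1 := (ee_eq_one_iff k).mpr ⟨k, rfl⟩

/-- polynomial attached to a finitely supported sequence -/
noncomputable def polyOf (c : ℤ →₀ ℂ) (a : ℤ) : ℂ[X] :=
  ∑ k ∈ c.support, monomial (k - a).toNat (c k)

lemma coeff_polyOf_mul {c : ℤ →₀ ℂ} {a : ℤ} (ha : ∀ k ∈ c.support, a ≤ k) {Q : ℂ[X]}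
    {ψ : ℤ → ℂ} (h1 : ∀ j : ℕ, Q.coeff j = ψ j) (h2 : ∀ j < 0, ψ j = 0) (n : ℕ) :
    (polyOf c a * Q).coeff n = ∑ k ∈ c.support, c k * ψ (n - (k - a)) := by
  rw [polyOf, Finset.sum_mul, finsetSum_coeff]
  refine Finset.sum_congr rfl fun k hk => ?_
  have hk' := ha k hk
  rw [← C_mul_X_pow_eq_monomial, mul_assoc, coeff_C_mul, coeff_X_pow_mul']
  congr 1
  split_ifs with h
  · rw [h1]; congr 1; omega
  · rw [h2 _ (by omega)]

lemma eval_polyOf {c : ℤ →₀ ℂ} {a : ℤ} (ha : ∀ k ∈ c.support, a ≤ k) (ξ : ℝ) :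
    symbol c ξ = ee ξ ^ a * (polyOf c a).eval (ee ξ) := by
  rw [symbol, polyOf, eval_finsetSum, Finset.mul_sum]
  refine Finset.sum_congr rfl fun k hk => ?_
  have hk' := ha k hk
  rw [eval_monomial, exp_eq_zpow, ← zpow_natCast, mul_left_comm, ← zpow_add₀ (ee_ne ξ)]
  congr 2; omega

lemma coeff_polyOf {c : ℤ →₀ ℂ} {a : ℤ} (ha : ∀ k ∈ c.support, a ≤ k) (n : ℕ) :
    (polyOf c a).coeff n = c (n + a) := by
  have := coeff_polyOf_mul ha (Q := 1) (ψ := fun j => if j = 0 then 1 else 0)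
    (fun j => by simp [coeff_one]) (fun j hj => if_neg hj.ne) n
  rw [mul_one] at this
  rw [this, Finset.sum_eq_single (n + a)]
  · simp
  · intro k _ hk
    rw [if_neg (by omega), mul_zero]
  · intro h
    rw [Finsupp.notMem_support_iff.mp h, zero_mul]

lemma exists_lower (s : Finset ℤ) (b : ℤ) : ∃ a ≤ b, ∀ k ∈ s, a ≤ k := by
  obtain ⟨a, ha⟩ := s.bddBelow
  exact ⟨min a b, min_le_right _ _, fun k hk => (min_le_left _ _).trans (ha hk)⟩

/-- a window containing the support -/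
structure Window (φ : ℝ → ℂ) where
  a : ℤ
  N : ℕ
  lo : ∀ x : ℝ, x ≤ a → φ x = 0
  hi : ∀ x : ℝ, a + N ≤ x → φ x = 0

lemma exists_window {φ : ℝ → ℂ} (h : HasCompactSupport φ) (s : Finset ℤ) :
    ∃ w : Window φ, ∀ k ∈ s, w.a ≤ k := by
  obtain ⟨R, -, hR⟩ := h.exists_pos_le_norm
  obtain ⟨a, ha, ha'⟩ := exists_lower s ⌊-R⌋
  have h1 : (a : ℝ) ≤ -R := (Int.cast_le.mpr ha).trans (Int.floor_le _)
  refine ⟨⟨a, ⌈R - a⌉₊, fun x hx => hR x ?_, fun x hx => hR x ?_⟩, ha'⟩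
  · rw [Real.norm_eq_abs]; exact le_abs.mpr (Or.inr (by linarith))
  · rw [Real.norm_eq_abs]; exact le_abs.mpr (Or.inl (by linarith [Nat.le_ceil (R - a)]))

namespace Window

variable {φ : ℝ → ℂ} (w : Window φ)

/-- the Zak polynomial -/
noncomputable def P (t : ℝ) : ℂ[X] := ∑ j ∈ Finset.range w.N, monomial j (φ (t + w.a + j))

lemma coeff_P {t : ℝ} (ht : 0 ≤ t) (j : ℕ) : (w.P t).coeff j = φ (t + w.a + j) := by
  rw [P, finsetSum_coeff]
  simp only [coeff_monomial, Finset.sum_ite_eq', Finset.mem_range]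
  split_ifs with h
  · rfl
  · have : (w.N : ℝ) ≤ j := by exact_mod_cast not_lt.mp h
    exact (w.hi _ (by linarith)).symm

lemma P_mem {t : ℝ} (ht : 0 ≤ t) : w.P t ∈ degreeLT ℂ w.N := by
  rw [mem_degreeLT_iff]
  intro i hi
  have : (w.N : ℝ) ≤ i := by exact_mod_cast hi
  rw [w.coeff_P ht]; exact w.hi _ (by linarith)

lemma cont_P (hφ : Continuous φ) (ℓ : ℂ[X] →ₗ[ℂ] ℂ) : Continuous fun t => ℓ (w.P t) := by
  have : ∀ t, ℓ (w.P t) = ∑ j ∈ Finset.range w.N, φ (t + w.a + j) * ℓ (monomial j 1) := by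
    intro t
    rw [P, map_sum]
    refine Finset.sum_congr rfl fun j _ => ?_
    rw [← smul_eq_mul, ← map_smul, smul_monomial, smul_eq_mul, mul_one]
  simp only [this]
  fun_prop

lemma coeff_polyOf_mul_P {c : ℤ →₀ ℂ} {a : ℤ} (ha : ∀ k ∈ c.support, a ≤ k) {t : ℝ}
    (ht : t ∈ Icc (0 : ℝ) 1) (n : ℕ) :
    (polyOf c a * w.P t).coeff n = ∑ k ∈ c.support, c k * φ (t + (w.a + a + n : ℤ) - k) := by
  rw [coeff_polyOf_mul ha (ψ := fun j => φ (t + w.a + j)) (fun j => w.coeff_P ht.1 j)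
    (fun j hj => w.lo _ (by
      have : (j : ℝ) ≤ -1 := by exact_mod_cast (by omega : j ≤ -1)
      linarith [ht.2]))]
  refine Finset.sum_congr rfl fun k _ => ?_
  congr 2; push_cast; ring

lemma zak_eq {t : ℝ} (ht : t ∈ Icc (0 : ℝ) 1) (ξ : ℝ) :
    zak φ t ξ = ee ξ ^ w.a * (w.P t).eval (ee ξ) := by
  rw [zak, tsum_eq_sum (s := (Finset.range w.N).map ⟨fun j : ℕ => w.a + j, fun i j h => by
    simpa using h⟩), Finset.sum_map, P, eval_finsetSum, Finset.mul_sum]
  · refine Finset.sum_congr rfl fun j _ => ?_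
    simp only [Embedding.coeFn_mk]
    rw [exp_eq_zpow, eval_monomial, zpow_add₀ (ee_ne ξ), zpow_natCast]
    push_cast
    rw [← add_assoc]; ring
  · intro k hk
    simp only [Finset.mem_map, Finset.mem_range, Embedding.coeFn_mk, not_exists, not_and] at hk
    by_cases h1 : k < w.a
    · have : (k : ℝ) ≤ w.a - 1 := by exact_mod_cast (by omega : k ≤ w.a - 1)
      rw [w.lo _ (by linarith [ht.2]), zero_mul]
    · have h2 : w.a + w.N ≤ k := by
        by_contra h2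
        exact hk (k - w.a).toNat (by omega) (by omega)
      have : (w.a : ℝ) + w.N ≤ k := by exact_mod_cast h2
      rw [w.hi _ (by linarith [ht.1]), zero_mul]

lemma shift : w.P 0 = X * w.P 1 := by
  ext n
  rcases n with _ | n
  · rw [w.coeff_P le_rfl, w.lo _ (by simp)]; simp
  · rw [coeff_X_mul, w.coeff_P le_rfl, w.coeff_P zero_le_one]
    congr 1; push_cast; ring

lemma ref {d : ℤ →₀ ℂ} (hd : IsRefinable φ d) (ha : ∀ k ∈ d.support, w.a ≤ k) {t : ℝ}
    (ht : t ∈ Icc (0 : ℝ) 1) :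
    polyOf d w.a * w.P t = expand ℂ 2 (w.P (t / 2)) + X * expand ℂ 2 (w.P ((t + 1) / 2)) := by
  ext n
  rw [w.coeff_polyOf_mul_P ha ht, ← hd.2.2.2]
  rcases Nat.even_or_odd' n with ⟨k, rfl | rfl⟩
  · rw [mul_comm 2 k, coeff_comb_even, w.coeff_P (half_mem ht).1]
    congr 1; push_cast; ring
  · rw [mul_comm 2 k, coeff_comb_odd, w.coeff_P (half_mem' ht).1]
    congr 1; push_cast; ring

lemma exists_P_ne (h : φ ≠ 0) : ∃ t ∈ Icc (0 : ℝ) 1, w.P t ≠ 0 := by
  obtain ⟨x, hx⟩ := Function.ne_iff.mp h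
  have h1 : (w.a : ℝ) < x := by
    by_contra h1; exact hx (w.lo x (not_lt.mp h1))
  have h2 : w.a ≤ ⌊x⌋ := Int.le_floor.mpr h1.le
  refine ⟨Int.fract x, ⟨Int.fract_nonneg x, (Int.fract_lt_one x).le⟩, fun h0 => hx ?_⟩
  have := w.coeff_P (Int.fract_nonneg x) (⌊x⌋ - w.a).toNat
  rw [h0, coeff_zero] at this
  rw [Pi.zero_apply, this]
  congr 1
  have : (((⌊x⌋ - w.a).toNat : ℤ) : ℝ) = ⌊x⌋ - w.a := by
    rw [Int.toNat_of_nonneg (by omega)]; push_cast; ring
  rw [Int.cast_natCast] at this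
  rw [this, ← Int.self_sub_floor]; ring

end Window

lemma zak_add_int (φ : ℝ → ℂ) (t ξ : ℝ) (n : ℤ) :
    zak φ (t + n) ξ * ee ξ ^ n = zak φ t ξ := by
  rw [zak, zak, ← (Equiv.addRight n).tsum_eq (f := fun k : ℤ => φ (t + k) * _), ← tsum_mul_right]
  refine tsum_congr fun k => ?_
  simp only [Equiv.coe_addRight, exp_eq_zpow, zpow_add₀ (ee_ne ξ)]
  push_cast
  rw [show t + n + k = t + (k + n) by ring]; ring

lemma zak_eq_zero_iff_fract (φ : ℝ → ℂ) (t ξ : ℝ) :
    zak φ t ξ = 0 ↔ zak φ (Int.fract t) ξ = 0 := by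
  rw [← zak_add_int φ (Int.fract t) ξ ⌊t⌋, Int.fract_add_floor]
  simp [zpow_ne_zero, ee_ne]

theorem exists_polyData {φ : ℝ → ℂ} {d : ℤ →₀ ℂ} (hd : IsRefinable φ d) (w : Window φ)
    (ha : ∀ k ∈ d.support, w.a ≤ k) :
    ∃ (A : PolyData) (G : ℂ[X]), G ≠ 0 ∧ (∀ t ∈ Icc (0 : ℝ) 1, w.P t = G * A.P t) ∧
      polyOf d w.a * G = expand ℂ 2 G * A.D := by
  classical
  let I : Ideal ℂ[X] := Ideal.span {p | ∃ t ∈ Icc (0 : ℝ) 1, p = w.P t}
  set G := Submodule.IsPrincipal.generator I with hG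
  have hGI : G ∈ I := Submodule.IsPrincipal.generator_mem I
  have hdvd : ∀ t ∈ Icc (0 : ℝ) 1, G ∣ w.P t := fun t ht =>
    (Submodule.IsPrincipal.mem_iff_generator_dvd I).mp (Ideal.subset_span ⟨t, ht, rfl⟩)
  have hG0 : G ≠ 0 := by
    obtain ⟨t, ht, h⟩ := w.exists_P_ne hd.1
    intro h0
    exact h (zero_dvd_iff.mp (h0 ▸ hdvd t ht))
  obtain ⟨π, hπ⟩ := (LinearMap.mulLeft ℂ G).exists_leftInverse_of_injective
    (LinearMap.ker_eq_bot.mpr (mul_right_injective₀ hG0))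
  have hP : ∀ t ∈ Icc (0 : ℝ) 1, w.P t = G * π (w.P t) := by
    intro t ht
    obtain ⟨c, hc⟩ := hdvd t ht
    have : π (G * c) = c := congrArg (fun L : ℂ[X] →ₗ[ℂ] ℂ[X] => L c) hπ
    rw [hc, this]
  have hE0 : expand ℂ 2 G ≠ 0 := (expand_ne_zero two_pos).mpr hG0
  obtain ⟨D, hD⟩ : expand ℂ 2 G ∣ polyOf d w.a * G := by
    have : I ≤ Submodule.comap (LinearMap.mulLeft ℂ[X] (polyOf d w.a))
        (Ideal.span {expand ℂ 2 G}) := by
      refine Ideal.span_le.mpr ?_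
      rintro _ ⟨t, ht, rfl⟩
      show polyOf d w.a * w.P t ∈ Ideal.span {expand ℂ 2 G}
      rw [Ideal.mem_span_singleton, w.ref hd ha ht]
      have a1 : expand ℂ 2 G ∣ expand ℂ 2 (w.P (t / 2)) :=
        _root_.map_dvd (expand ℂ 2) (hdvd _ (half_mem ht))
      have a2 : expand ℂ 2 G ∣ expand ℂ 2 (w.P ((t + 1) / 2)) :=
        _root_.map_dvd (expand ℂ 2) (hdvd _ (half_mem' ht))
      exact dvd_add a1 (a2.mul_left X)
    exact Ideal.mem_span_singleton.mp (this hGI)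
  have hno : ∀ r : ℂ, ∃ t ∈ Icc (0 : ℝ) 1, (π (w.P t)).eval r ≠ 0 := by
    intro r
    by_contra hcon
    push Not at hcon
    have : I ≤ Ideal.span {G * (X - C r)} := by
      refine Ideal.span_le.mpr ?_
      rintro _ ⟨t, ht, rfl⟩
      show w.P t ∈ Ideal.span {G * (X - C r)}
      rw [Ideal.mem_span_singleton, hP t ht]
      exact mul_dvd_mul_left _ (dvd_iff_isRoot.mpr (hcon t ht))
    have h1 := Ideal.mem_span_singleton.mp (this hGI)
    have h2 : X - C r ∣ 1 := (mul_dvd_mul_iff_left hG0).mp (by rwa [mul_one])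
    exact not_isUnit_X_sub_C r (isUnit_of_dvd_one h2)
  have hex : ∃ m, ∀ t ∈ Icc (0 : ℝ) 1, π (w.P t) ∈ degreeLT ℂ (m + 1) := by
    refine ⟨w.N, fun t ht => ?_⟩
    by_cases h0 : w.P t = 0
    · rw [h0, map_zero]; exact Submodule.zero_mem _
    · rw [mem_degreeLT]
      refine (degree_le_of_dvd ⟨G, by rw [mul_comm]; exact hP t ht⟩ h0).trans_lt
        ((mem_degreeLT.mp (w.P_mem ht.1)).trans ?_)
      exact_mod_cast Nat.lt_succ_self _
  refine ⟨{ m := Nat.find hex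
            D := D
            P := fun t => π (w.P t)
            deg := Nat.find_spec hex
            cont := fun ℓ => (w.cont_P hd.2.1 (ℓ ∘ₗ π)).continuousOn
            shift := ?_
            ref := fun t ht => ?_
            nocommon := hno
            top := ?_ }, G, hG0, hP, hD⟩
  · apply mul_left_cancel₀ hG0
    rw [← hP 0 zero_mem01, mul_left_comm, ← hP 1 one_mem01, w.shift]
  · apply mul_left_cancel₀ hE0
    rw [← mul_assoc, ← hD, mul_assoc, ← hP t ht, w.ref hd ha ht, mul_add, mul_left_comm,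
      ← map_mul, ← map_mul, ← hP _ (half_mem ht), ← hP _ (half_mem' ht)]
  · by_contra hcon
    push Not at hcon
    have h1 : ∀ t ∈ Icc (0 : ℝ) 1, π (w.P t) ∈ degreeLT ℂ (Nat.find hex) := by
      intro t ht
      rw [mem_degreeLT_iff]
      intro i hi
      rcases hi.eq_or_lt with rfl | hi
      · exact hcon t ht
      · exact mem_degreeLT_iff.mp (Nat.find_spec hex t ht) i hi
    rcases h : Nat.find hex with _ | m
    · obtain ⟨t, ht, h2⟩ := hno 0
      have := h1 t ht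
      rw [h, mem_degreeLT_iff] at this
      exact h2 (by rw [← coeff_zero_eq_eval_zero]; exact this 0 le_rfl)
    · exact Nat.find_min hex (m := m) (by omega) (h ▸ h1)

end Pool.Agent.MP_057a77_an

end

-- part MP_057a77_an.Main
section

/-!
The characterisation of refinable functions with a nonvanishing slice of the Zak transform.
-/

namespace Pool.Agent.MP_057a77_an

open Module Function Polynomial Set MeasureTheory

namespace PolyData

variable (A : PolyData)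

lemma D_eval_one : A.D.eval 1 = 2 := by
  have := congrArg (Polynomial.eval 1) (A.ref 0 zero_mem01)
  simp only [eval_mul, eval_add, expand_eval, one_pow, eval_X, one_mul,
    P_eval_one (half_mem zero_mem01), P_eval_one (half_mem' zero_mem01)] at this
  exact mul_right_cancel₀ (P_eval_one_ne (A := A) zero_mem01) (by rw [this]; ring)

lemma no_cycle (Z : Finset ℂ) (hne : Z.Nonempty) (h1 : (1 : ℂ) ∉ Z) (h0 : (0 : ℂ) ∉ Z)
    (hsq : ∀ r ∈ Z, ∃ s ∈ Z, s ^ 2 = r) (hD : ∀ r ∈ Z, A.D.eval (-r) = 0) : False := by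
  classical
  let U : Submodule ℂ A.V :=
    { carrier := {p | ∀ r ∈ Z, (p : ℂ[X]).eval r = 0}
      add_mem' := by intro a b ha hb r hr; simp [ha r hr, hb r hr]
      zero_mem' := by intro r _; simp
      smul_mem' := by intro c a ha r hr; simp [ha r hr] }
  have key : ∀ p ∈ U, ∀ r ∈ Z, (ev (A.D * p)).eval r = 0 ∧ (od (A.D * p)).eval r = 0 := by
    intro p hp r hr
    obtain ⟨s, hs, rfl⟩ := hsq r hr
    have e1 := congrArg (Polynomial.eval s) (ev_od_decomp (A.D * p))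
    have e2 := congrArg (Polynomial.eval (-s)) (ev_od_decomp (A.D * p))
    simp only [eval_mul, eval_add, expand_eval, eval_X, hp s hs, hD s hs, mul_zero, zero_mul,
      neg_sq] at e1 e2
    have hs0 : s ≠ 0 := by rintro rfl; exact h0 hs
    constructor
    · linear_combination (-1 / 2 : ℂ) * e1 + (-1 / 2 : ℂ) * e2
    · apply mul_left_cancel₀ hs0
      linear_combination (-1 / 2 : ℂ) * e1 + (1 / 2 : ℂ) * e2
  have hU : A.Inv U := ⟨fun p hp r hr => (key p hp r hr).1, fun p hp r hr => (key p hp r hr).2⟩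
  have hcard : (insert 1 Z).card ≤ A.χ.natDegree := by
    apply card_le_degree_of_subset_roots
    intro r hr
    rw [mem_roots A.χ_ne_zero]
    rcases Finset.mem_insert.mp hr with rfl | hr
    · simpa [χ] using U1_facts.2.2
    · simpa [χ] using hD r hr
  rw [Finset.card_insert_of_notMem h1, A.natDegree_χ] at hcard
  have hR : (∏ r ∈ Z, (X - C r) : ℂ[X]) ∈ A.V := by
    rw [mem_degreeLT, degree_prod]
    simp only [degree_X_sub_C, Finset.sum_const, nsmul_eq_mul, mul_one]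
    exact_mod_cast hcard
  have htop := hU.eq_top_of_eval (v := ⟨_, hR⟩) (fun r hr => by
    simp only [eval_prod, eval_sub, eval_X, eval_C]
    exact Finset.prod_eq_zero hr (sub_self r)) (by
    simp only [eval_prod, eval_sub, eval_X, eval_C]
    exact Finset.prod_ne_zero_iff.mpr fun r hr h => h1 (sub_eq_zero.mp h ▸ hr))
  have h1mem : (1 : ℂ[X]) ∈ A.V := by
    rw [mem_degreeLT_iff]; intro i hi; rw [coeff_one, if_neg (by omega)]
  obtain ⟨r, hr⟩ := hne
  have : (⟨1, h1mem⟩ : A.V) ∈ U := htop ▸ Submodule.mem_top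
  simpa using this r hr

end PolyData

variable {φ : ℝ → ℂ} {d : ℤ →₀ ℂ}

lemma stable_iff (w : Window φ) {A : PolyData} {G : ℂ[X]}
    (hP : ∀ t ∈ Icc (0 : ℝ) 1, w.P t = G * A.P t) :
    (∀ ξ : ℝ, ∃ t : ℝ, zak φ t ξ ≠ 0) ↔ ∀ r : ℂ, ‖r‖ = 1 → G.eval r ≠ 0 := by
  constructor
  · intro h r hr hG
    obtain ⟨ξ, rfl⟩ := exists_ee hr
    obtain ⟨t, ht⟩ := h ξ
    have hm : Int.fract t ∈ Icc (0 : ℝ) 1 := ⟨Int.fract_nonneg t, (Int.fract_lt_one t).le⟩
    rw [Ne, zak_eq_zero_iff_fract, w.zak_eq hm, hP _ hm, eval_mul, hG] at ht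
    simp at ht
  · intro h ξ
    obtain ⟨t, ht, h1⟩ := A.nocommon (ee ξ)
    refine ⟨t, ?_⟩
    rw [w.zak_eq ht, hP t ht, eval_mul]
    exact mul_ne_zero (zpow_ne_zero _ (ee_ne ξ)) (mul_ne_zero (h _ (norm_ee ξ)) h1)

lemma exists_lower_bound {p : ℂ[X]} (h : ∀ r : ℂ, ‖r‖ = 1 → p.eval r ≠ 0) :
    ∃ c : ℝ, 0 < c ∧ ∀ r : ℂ, ‖r‖ = 1 → c ≤ ‖p.eval r‖ := by
  obtain ⟨r, hr, hmin⟩ := (isCompact_sphere (0 : ℂ) 1).exists_isMinOn
    (f := fun r => ‖p.eval r‖) ⟨1, by simp⟩ (by fun_prop)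
  exact ⟨‖p.eval r‖, norm_pos_iff.mpr (h r (by simpa using hr)),
    fun s hs => hmin (by simpa using hs)⟩

theorem exists_slice (hd : IsRefinable φ d) (h : ∀ ξ : ℝ, ∃ t : ℝ, zak φ t ξ ≠ 0) :
    ∃ t₀ : ℝ, 0 < ⨅ ξ : ℝ, ‖zak φ t₀ ξ‖ := by
  obtain ⟨w, hw⟩ := exists_window hd.2.2.1 d.support
  obtain ⟨A, G, -, hP, -⟩ := exists_polyData hd w hw
  have hG := (stable_iff w hP).mp h
  obtain ⟨t, ht, hgood⟩ := A.good
  obtain ⟨c, hc, hc'⟩ := exists_lower_bound (p := w.P t) (fun r hr => by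
    rw [hP t ht, eval_mul]; exact mul_ne_zero (hG r hr) (hgood r hr))
  refine ⟨t, hc.trans_le (le_ciInf fun ξ => ?_)⟩
  rw [w.zak_eq ht, norm_mul, norm_zpow, norm_ee, one_zpow, one_mul]
  exact hc' _ (norm_ee ξ)

lemma ne_zero_of_iInf_pos {t₀ : ℝ} (h : 0 < ⨅ ξ : ℝ, ‖zak φ t₀ ξ‖) (ξ : ℝ) : zak φ t₀ ξ ≠ 0 :=
  norm_pos_iff.mp (h.trans_le (ciInf_le ⟨0, by rintro _ ⟨_, rfl⟩; positivity⟩ ξ))

lemma symbol_add_int (d : ℤ →₀ ℂ) (ξ : ℝ) (n : ℤ) : symbol d (ξ + n) = symbol d ξ := by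
  simp only [symbol, exp_eq_zpow, ee_add, ee_int, mul_one]

lemma ee_two_pow (j : ℕ) (ξ : ℝ) : ee (2 ^ j * ξ) = ee ξ ^ 2 ^ j := by
  rw [← ee_nat_mul]; push_cast; rfl

/-- the condition on the symbol -/
def SymbolCond (d : ℤ →₀ ℂ) : Prop :=
  (¬ ∃ ξ₀ ∈ Ico (0 : ℝ) 1, symbol d ξ₀ = 0 ∧ symbol d (ξ₀ + 1 / 2) = 0) ∧ symbol d 0 = 2 ∧
    ¬ ∃ (ξ : ℝ) (n : ℕ), 1 ≤ n ∧ (∀ k : ℤ, ξ ≠ k) ∧ (∃ k : ℤ, 2 ^ n * ξ - ξ = k) ∧
      ∀ j < n, symbol d (2 ^ j * ξ + 1 / 2) = 0

theorem symbolCond_of_stable (hd : IsRefinable φ d) (h : ∀ ξ : ℝ, ∃ t : ℝ, zak φ t ξ ≠ 0) :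
    SymbolCond d := by
  classical
  obtain ⟨w, hw⟩ := exists_window hd.2.2.1 d.support
  obtain ⟨A, G, -, hP, hD⟩ := exists_polyData hd w hw
  have hG := (stable_iff w hP).mp h
  have hz : ∀ ξ, symbol d ξ = 0 → A.D.eval (ee ξ) = 0 := by
    intro ξ hξ
    rw [eval_polyOf hw, mul_eq_zero] at hξ
    have := congrArg (Polynomial.eval (ee ξ)) hD
    rw [eval_mul, eval_mul, hξ.resolve_left (zpow_ne_zero _ (ee_ne ξ)), zero_mul,
      expand_eval] at this
    exact (mul_eq_zero.mp this.symm).resolve_left (hG _ (by rw [norm_pow, norm_ee, one_pow]))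
  refine ⟨?_, ?_, ?_⟩
  · rintro ⟨ξ, -, h1, h2⟩
    refine A.no_symm (ee ξ) ⟨hz _ h1, ?_⟩
    have := hz _ h2
    rwa [ee_add, ee_half, mul_neg_one] at this
  · rw [eval_polyOf hw, ee_zero, one_zpow, one_mul]
    have := congrArg (Polynomial.eval 1) hD
    rw [eval_mul, eval_mul, expand_eval, one_pow, A.D_eval_one, mul_comm _ 2] at this
    exact mul_right_cancel₀ (hG 1 (by simp)) this
  · rintro ⟨ξ, n, hn, h1, ⟨k, hk⟩, h2⟩
    have hper : ee ξ ^ 2 ^ n = ee ξ := by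
      rw [← ee_two_pow, show 2 ^ n * ξ = ξ + k by linarith, ee_add, ee_int, mul_one]
    refine A.no_cycle ((Finset.range n).image fun j => ee ξ ^ 2 ^ j)
      ⟨_, Finset.mem_image_of_mem _ (Finset.mem_range.mpr hn)⟩ ?_ ?_ ?_ ?_
    · intro h
      obtain ⟨j, hj, hj'⟩ := Finset.mem_image.mp h
      have hj := Finset.mem_range.mp hj
      have : ee ξ = 1 := by
        rw [← hper, show n = j + (n - j) by omega, pow_add, pow_mul, hj', one_pow]
      obtain ⟨k, hk⟩ := (ee_eq_one_iff ξ).mp this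
      exact h1 k hk
    · intro h
      obtain ⟨j, -, hj'⟩ := Finset.mem_image.mp h
      exact pow_ne_zero _ (ee_ne ξ) hj'
    · intro r hr
      obtain ⟨j, hj, rfl⟩ := Finset.mem_image.mp hr
      have hj := Finset.mem_range.mp hj
      rcases j with _ | j
      · refine ⟨_, Finset.mem_image_of_mem _ (Finset.mem_range.mpr (show n - 1 < n by omega)), ?_⟩
        rw [← pow_mul, ← pow_succ, show n - 1 + 1 = n by omega, hper]; simp
      · refine ⟨_, Finset.mem_image_of_mem _ (Finset.mem_range.mpr (show j < n by omega)), ?_⟩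
        rw [← pow_mul, ← pow_succ]
    · intro r hr
      obtain ⟨j, hj, rfl⟩ := Finset.mem_image.mp hr
      have := hz _ (h2 j (Finset.mem_range.mp hj))
      rwa [ee_add, ee_half, mul_neg_one, ee_two_pow] at this

theorem stable_of_symbolCond (hd : IsRefinable φ d) (h : SymbolCond d) :
    ∀ ξ : ℝ, ∃ t : ℝ, zak φ t ξ ≠ 0 := by
  classical
  obtain ⟨w, hw⟩ := exists_window hd.2.2.1 d.support
  obtain ⟨A, G, hG0, hP, hD⟩ := exists_polyData hd w hw
  rw [stable_iff w hP]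
  obtain ⟨h1, h2, h3⟩ := h
  set E := polyOf d w.a
  have hsym : ∀ ξ, E.eval (ee ξ) = 0 → symbol d ξ = 0 := by
    intro ξ hξ; rw [eval_polyOf hw, hξ, mul_zero]
  have hns : ∀ s : ℂ, ‖s‖ = 1 → ¬ (E.eval s = 0 ∧ E.eval (-s) = 0) := by
    rintro s hs ⟨a1, a2⟩
    obtain ⟨ξ, rfl⟩ := exists_ee hs
    refine h1 ⟨Int.fract ξ, ⟨Int.fract_nonneg ξ, Int.fract_lt_one ξ⟩, ?_, ?_⟩
    · rw [← symbol_add_int d _ ⌊ξ⌋, Int.fract_add_floor]; exact hsym _ a1
    · rw [← symbol_add_int d _ ⌊ξ⌋, add_right_comm, Int.fract_add_floor]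
      apply hsym; rwa [ee_add, ee_half, mul_neg_one]
  let Z : Set ℂ := {r | ‖r‖ = 1 ∧ G.eval r = 0}
  have hfin : Z.Finite := (finite_setOfPred_isRoot hG0).subset fun r hr => hr.2
  have hEG : ∀ s : ℂ, G.eval (s ^ 2) = 0 → E.eval s = 0 ∨ G.eval s = 0 := by
    intro s hs
    have := congrArg (Polynomial.eval s) hD
    rw [eval_mul, eval_mul, expand_eval, hs, zero_mul] at this
    exact mul_eq_zero.mp this
  have hroot : ∀ r : Z, ∃ s : Z, (s : ℂ) ^ 2 = r := by
    rintro ⟨r, hr1, hr2⟩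
    obtain ⟨s, rfl⟩ := IsAlgClosed.exists_pow_nat_eq r two_pos
    have hs : ‖s‖ = 1 := by
      rw [norm_pow] at hr1
      exact (pow_eq_one_iff_of_nonneg (norm_nonneg s) two_ne_zero).mp hr1
    rcases hEG s hr2 with a1 | a1
    · rcases hEG (-s) (by rwa [neg_sq]) with a2 | a2
      · exact absurd ⟨a1, a2⟩ (hns s hs)
      · exact ⟨⟨-s, by rwa [norm_neg], a2⟩, neg_sq s⟩
    · exact ⟨⟨s, hs, a1⟩, rfl⟩
  choose ρ hρ using hroot
  have : Finite Z := hfin
  have hinj : Injective ρ := fun a b hab => Subtype.ext (by rw [← hρ a, ← hρ b, hab])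
  have hsurj : Surjective ρ := Finite.injective_iff_surjective.mp hinj
  have hsq : ∀ s ∈ Z, s ^ 2 ∈ Z := by
    intro s hs
    obtain ⟨r, hr⟩ := hsurj ⟨s, hs⟩
    have := hρ r
    rw [hr] at this
    exact this ▸ r.2
  have hsqinj : ∀ s ∈ Z, ∀ s' ∈ Z, s ^ 2 = s' ^ 2 → s = s' := by
    intro s hs s' hs' h
    obtain ⟨r, hr⟩ := hsurj ⟨s, hs⟩
    obtain ⟨r', hr'⟩ := hsurj ⟨s', hs'⟩
    have e1 := hρ r
    have e2 := hρ r'
    rw [hr] at e1
    rw [hr'] at e2
    have : r = r' := Subtype.ext (by rw [← e1, ← e2]; exact h)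
    rw [this, hr'] at hr
    exact (congrArg Subtype.val hr).symm
  have hEneg : ∀ s ∈ Z, E.eval (-s) = 0 := by
    intro s hs
    refine (hEG (-s) (by rw [neg_sq]; exact (hsq s hs).2)).resolve_right fun h => ?_
    have := hsqinj s hs (-s) ⟨by rw [norm_neg]; exact hs.1, h⟩ (neg_sq s).symm
    have h0 : s = 0 := by linear_combination this / 2
    have := hs.1
    rw [h0] at this
    simp at this
  have hpow : ∀ s ∈ Z, ∀ j : ℕ, s ^ 2 ^ j ∈ Z := by
    intro s hs j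
    induction j with
    | zero => simpa using hs
    | succ j ih => rw [pow_succ, pow_mul]; exact hsq _ ih
  intro r hr hGr
  have hrZ : r ∈ Z := ⟨hr, hGr⟩
  by_cases hr1 : r = 1
  · subst hr1
    obtain ⟨G', hG', hnd⟩ := exists_eq_pow_rootMultiplicity_mul_and_not_dvd G hG0 1
    have hμ : 0 < rootMultiplicity 1 G := (rootMultiplicity_pos hG0).mpr hGr
    set μ := rootMultiplicity 1 G
    have hX : (X - C 1 : ℂ[X]) ^ μ ≠ 0 := pow_ne_zero _ (X_sub_C_ne_zero 1)
    have e : E * G' = (X + C 1) ^ μ * expand ℂ 2 G' * A.D := by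
      rw [hG', map_mul, PolyData.expand_X_sub_one_pow] at hD
      apply mul_left_cancel₀ hX
      linear_combination hD
    have e1 := congrArg (Polynomial.eval 1) e
    rw [eval_polyOf hw, ee_zero, one_zpow, one_mul] at h2
    simp only [eval_mul, eval_pow, eval_add, eval_X, eval_C, expand_eval, one_pow,
      A.D_eval_one] at e1
    rw [show Polynomial.eval 1 E = 2 from h2] at e1
    have hG1 : G'.eval 1 ≠ 0 := fun h => hnd (dvd_iff_isRoot.mpr h)
    have e2 : ((2 ^ μ : ℕ) : ℂ) = (1 : ℕ) := by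
      push_cast
      apply mul_left_cancel₀ (mul_ne_zero hG1 two_ne_zero)
      rw [show (1 + 1 : ℂ) = 2 by norm_num] at e1
      linear_combination -e1
    have e3 : 2 ^ μ = 1 := by exact_mod_cast e2
    have := Nat.one_lt_two_pow hμ.ne'
    omega
  · obtain ⟨ξ, rfl⟩ := exists_ee hr
    obtain ⟨i, j, hij, he⟩ := Finite.exists_ne_map_eq_of_infinite
      (fun j : ℕ => (⟨ee ξ ^ 2 ^ j, hpow _ hrZ j⟩ : Z))
    have he' : ee ξ ^ 2 ^ i = ee ξ ^ 2 ^ j := congrArg Subtype.val he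
    have canc : ∀ i n : ℕ, ee ξ ^ 2 ^ i = ee ξ ^ 2 ^ (i + n) → ee ξ = ee ξ ^ 2 ^ n := by
      intro i n
      induction i with
      | zero => simp
      | succ i ih =>
        intro h
        apply ih
        apply hsqinj _ (hpow _ hrZ _) _ (hpow _ hrZ _)
        rw [← pow_mul, ← pow_mul, ← pow_succ, ← pow_succ, h]; congr 2; ring
    have : ∃ n, 1 ≤ n ∧ ee ξ = ee ξ ^ 2 ^ n := by
      rcases lt_or_gt_of_ne hij with h | h
      · exact ⟨j - i, by omega, canc i _ (by rw [he']; congr 2; omega)⟩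
      · exact ⟨i - j, by omega, canc j _ (by rw [← he']; congr 2; omega)⟩
    obtain ⟨n, hn, hper⟩ := this
    refine h3 ⟨ξ, n, hn, fun k hk => hr1 ((ee_eq_one_iff ξ).mpr ⟨k, hk⟩), ?_, fun j _ => ?_⟩
    · rw [← ee_eq_one_iff]
      apply mul_right_cancel₀ (ee_ne ξ)
      rw [← ee_add, sub_add_cancel, ee_two_pow, ← hper, one_mul]
    · apply hsym
      rw [ee_add, ee_half, mul_neg_one, ee_two_pow]
      exact hEneg _ (hpow _ hrZ j)

end Pool.Agent.MP_057a77_an

end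

-- part MP_057a77_an.Riesz
section

/-!
The lower Riesz bound for the integer shifts.
-/

namespace Pool.Agent.MP_057a77_an

open Module Function Polynomial Set MeasureTheory

variable {φ : ℝ → ℂ}

lemma comb_cont (hφ : Continuous φ) (s : Finset ℤ) (c : ℤ → ℂ) :
    Continuous fun x : ℝ => ‖∑ k ∈ s, c k * φ (x - k)‖ ^ 2 := by
  fun_prop

lemma comb_integrable (hφ : Continuous φ) (hs : HasCompactSupport φ) (s : Finset ℤ) (c : ℤ → ℂ) :
    Integrable fun x : ℝ => ‖∑ k ∈ s, c k * φ (x - k)‖ ^ 2 := by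
  apply (comb_cont hφ s c).integrable_of_hasCompactSupport
  obtain ⟨R, -, hR⟩ := hs.exists_pos_le_norm
  obtain ⟨B, hB⟩ := (s.image fun k : ℤ => |(k : ℝ)|).bddAbove
  apply HasCompactSupport.intro (isCompact_closedBall (0 : ℝ) (R + B))
  intro x hx
  rw [Metric.mem_closedBall, dist_zero_right, not_le, Real.norm_eq_abs] at hx
  rw [Finset.sum_eq_zero]
  · simp
  · intro k hk
    have h1 : |(k : ℝ)| ≤ B := hB (Finset.mem_coe.mpr (Finset.mem_image_of_mem _ hk))
    rw [hR, mul_zero]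
    rw [Real.norm_eq_abs]
    linarith [abs_sub_abs_le_abs_sub x k]

lemma parseval_lower {p q : ℂ[X]} {c : ℝ} (hc : 0 ≤ c) (h : ∀ r : ℂ, ‖r‖ = 1 → c ≤ ‖q.eval r‖) :
    c ^ 2 * ∑ i ∈ p.support, ‖p.coeff i‖ ^ 2 ≤ ∑ i ∈ (p * q).support, ‖(p * q).coeff i‖ ^ 2 := by
  rw [sum_sq_norm_coeff_eq_circleAverage, sum_sq_norm_coeff_eq_circleAverage, ← smul_eq_mul,
    ← Real.circleAverage_fun_smul]
  refine Real.circleAverage_mono (ContinuousOn.circleIntegrable' (by fun_prop))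
    (ContinuousOn.circleIntegrable' (by fun_prop)) fun x hx => ?_
  rw [eval_mul, norm_mul, mul_pow, smul_eq_mul, mul_comm]
  have := h x (by simpa using hx)
  gcongr

theorem riesz_of_slice (hφ : Continuous φ) (hs : HasCompactSupport φ) {t₁ : ℝ}
    (h : ∀ ξ : ℝ, zak φ t₁ ξ ≠ 0) :
    ∃ A : ℝ, 0 < A ∧ ∀ c : ℤ →₀ ℂ, A * ∑ k ∈ c.support, ‖c k‖ ^ 2 ≤
      ∫ x : ℝ, ‖∑ k ∈ c.support, c k * φ (x - k)‖ ^ 2 := by
  classical
  obtain ⟨w, -⟩ := exists_window hs ∅
  set t₀ := Int.fract t₁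
  have ht₀ : t₀ ∈ Icc (0 : ℝ) 1 := ⟨Int.fract_nonneg _, (Int.fract_lt_one _).le⟩
  have ht₀' : t₀ < 1 := Int.fract_lt_one _
  obtain ⟨m, hm, hm'⟩ := exists_lower_bound (p := w.P t₀) (fun r hr h0 => by
    obtain ⟨ξ, rfl⟩ := exists_ee hr
    apply h ξ
    rw [zak_eq_zero_iff_fract, w.zak_eq ht₀, h0, mul_zero])
  have hcont : Continuous fun t : ℝ =>
      ∑ j ∈ Finset.range w.N, ‖φ (t + w.a + j) - φ (t₀ + w.a + j)‖ := by fun_prop
  obtain ⟨δ, hδ, hδ'⟩ := Metric.continuous_iff.mp hcont t₀ (m / 2) (half_pos hm)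
  set η := min (δ / 2) (1 - t₀) with hη
  have hη0 : 0 < η := lt_min (half_pos hδ) (sub_pos.mpr ht₀')
  have hη1 : t₀ + η ≤ 1 := by linarith [min_le_right (δ / 2) (1 - t₀)]
  have hlow : ∀ t ∈ Icc t₀ (t₀ + η), ∀ r : ℂ, ‖r‖ = 1 → m / 2 ≤ ‖(w.P t).eval r‖ := by
    intro t ht r hr
    have h1 := hδ' t (by
      rw [Real.dist_eq, abs_of_nonneg (sub_nonneg.mpr ht.1)]
      linarith [ht.2, min_le_left (δ / 2) (1 - t₀)])
    simp only [sub_self, norm_zero, Finset.sum_const_zero, dist_zero_right, Real.norm_eq_abs] at h1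
    have h2 : ‖(w.P t).eval r - (w.P t₀).eval r‖ ≤
        ∑ j ∈ Finset.range w.N, ‖φ (t + w.a + j) - φ (t₀ + w.a + j)‖ := by
      rw [Window.P, Window.P, eval_finsetSum, eval_finsetSum, ← Finset.sum_sub_distrib]
      refine (norm_sum_le _ _).trans (Finset.sum_le_sum fun j _ => ?_)
      rw [eval_monomial, eval_monomial, ← sub_mul, norm_mul, norm_pow, hr, one_pow, mul_one]
    have h3 := hm' r hr
    have h4 := norm_sub_norm_le ((w.P t₀).eval r) ((w.P t).eval r)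
    rw [norm_sub_rev] at h4
    linarith [le_abs_self (∑ j ∈ Finset.range w.N, ‖φ (t + w.a + j) - φ (t₀ + w.a + j)‖)]
  refine ⟨η * (m / 2) ^ 2, by positivity, fun c => ?_⟩
  obtain ⟨a, -, ha⟩ := exists_lower c.support 0
  set p := polyOf c a
  set g : ℝ → ℝ := fun x => ‖∑ k ∈ c.support, c k * φ (x - k)‖ ^ 2 with hg
  have hgc : Continuous g := comb_cont hφ _ _
  have hg0 : ∀ x, 0 ≤ g x := fun x => by positivity
  have hS : ∑ k ∈ c.support, ‖c k‖ ^ 2 = ∑ i ∈ p.support, ‖p.coeff i‖ ^ 2 := by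
    symm
    refine Finset.sum_bij (fun i _ => (i : ℤ) + a) ?_ ?_ ?_ ?_
    · intro i hi
      rw [Polynomial.mem_support_iff, coeff_polyOf ha] at hi
      exact Finsupp.mem_support_iff.mpr hi
    · intro i _ j _ h; omega
    · intro k hk
      have := ha k hk
      have e : ((k - a).toNat : ℤ) + a = k := by omega
      refine ⟨(k - a).toNat, ?_, e⟩
      rw [Polynomial.mem_support_iff, coeff_polyOf ha, e]
      exact Finsupp.mem_support_iff.mp hk
    · intro i _; rw [coeff_polyOf ha]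
  set K := p.natDegree + w.N + 1
  let emb : ℕ ↪ ℤ := ⟨fun n => w.a + a + n, fun i j h => by simpa using h⟩
  have hpt : ∀ t ∈ Icc t₀ (t₀ + η), (m / 2) ^ 2 * ∑ k ∈ c.support, ‖c k‖ ^ 2 ≤
      ∑ n ∈ Finset.range K, g (t + (w.a + a + n : ℤ)) := by
    intro t ht
    have ht' : t ∈ Icc (0 : ℝ) 1 := ⟨ht₀.1.trans ht.1, ht.2.trans hη1⟩
    rw [hS]
    refine (parseval_lower (half_pos hm).le (hlow t ht)).trans ?_
    simp only [hg, ← w.coeff_polyOf_mul_P ha ht']
    refine Finset.sum_le_sum_of_subset_of_nonneg (fun i hi => ?_) (fun _ _ _ => by positivity)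
    have h1 := le_natDegree_of_mem_supp i hi
    have h2 := natDegree_mul_le (p := p) (q := w.P t)
    have h3 : (w.P t).natDegree ≤ w.N := natDegree_le_of_degree_le (mem_degreeLT.mp
      (w.P_mem ht'.1)).le
    exact Finset.mem_range.mpr (by omega)
  have hsum := (comb_integrable hφ hs c.support c).hasSum_intervalIntegral_comp_add_int
  have h1 := sum_le_hasSum ((Finset.range K).map emb)
    (fun n _ => intervalIntegral.integral_nonneg zero_le_one fun x _ => hg0 _) hsum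
  refine le_trans ?_ h1
  rw [Finset.sum_map]
  have hc2 : Continuous fun t : ℝ => ∑ n ∈ Finset.range K, g (t + (w.a + a + n : ℤ)) := by
    fun_prop
  have h2 : ∑ n ∈ Finset.range K, ∫ x in (0 : ℝ)..1, g (x + (emb n : ℤ)) =
      ∫ x in (0 : ℝ)..1, ∑ n ∈ Finset.range K, g (x + (w.a + a + n : ℤ)) := by
    rw [intervalIntegral.integral_finsetSum]
    · rfl
    · intro n _
      exact (hgc.comp (by fun_prop)).intervalIntegrable _ _
  refine le_trans ?_ h2.ge
  refine le_trans ?_ (intervalIntegral.integral_mono_interval ht₀.1 (by linarith) hη1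
    (Filter.Eventually.of_forall fun x => Finset.sum_nonneg fun _ _ => hg0 _)
    (hc2.intervalIntegrable _ _))
  refine le_trans ?_ (intervalIntegral.integral_mono_on (by linarith)
    intervalIntegrable_const (hc2.intervalIntegrable _ _) hpt)
  rw [intervalIntegral.integral_const, smul_eq_mul, add_sub_cancel_left, mul_assoc]

theorem stable_of_riesz (hφ : Continuous φ) (hs : HasCompactSupport φ) {A : ℝ} (hA : 0 < A)
    (h : ∀ c : ℤ →₀ ℂ, A * ∑ k ∈ c.support, ‖c k‖ ^ 2 ≤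
      ∫ x : ℝ, ‖∑ k ∈ c.support, c k * φ (x - k)‖ ^ 2) (ξ : ℝ) : ∃ t : ℝ, zak φ t ξ ≠ 0 := by
  classical
  by_contra hcon
  push Not at hcon
  obtain ⟨R', -, hR'⟩ := hs.exists_pos_le_norm
  obtain ⟨R, hRR⟩ := exists_nat_ge R'
  have hR : ∀ x : ℝ, (R : ℝ) ≤ |x| → φ x = 0 := fun x hx => hR' x (hRR.trans hx)
  set z := ee ξ
  have hz : z ≠ 0 := ee_ne ξ
  let f : ℤ → ℤ → ℝ → ℂ := fun a b x => ∑ k ∈ Finset.Ico a b, z ^ (-k) * φ (x - k)
  have full : ∀ (a b : ℤ) (x : ℝ), (a : ℝ) + R ≤ x + 1 → x + R ≤ b → f a b x = 0 := by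
    intro a b x h1 h2
    have := hcon x
    rw [zak, ← (Equiv.neg ℤ).tsum_eq, tsum_eq_sum (s := Finset.Ico a b)] at this
    · rw [← this]
      refine Finset.sum_congr rfl fun k _ => ?_
      rw [exp_eq_zpow, Equiv.neg_apply, mul_comm]
      congr 2; push_cast; ring
    · intro k hk
      rw [Finset.mem_Ico, not_and_or, not_le, not_lt] at hk
      rw [hR, zero_mul]
      simp only [Equiv.neg_apply, Int.cast_neg]
      rcases hk with hk | hk
      · have : (k : ℝ) + 1 ≤ a := by exact_mod_cast hk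
        exact le_abs.mpr (Or.inl (by linarith))
      · have : (b : ℝ) ≤ k := by exact_mod_cast hk
        exact le_abs.mpr (Or.inr (by linarith))
  have split : ∀ (a b c : ℤ) (x : ℝ), a ≤ b → b ≤ c → f a c x = f a b x + f b c x := by
    intro a b c x h1 h2
    simp only [f]
    rw [← Finset.Ico_union_Ico_eq_Ico h1 h2, Finset.sum_union (Finset.Ico_disjoint_Ico_consecutive
      a b c)]
  have right0 : ∀ (a b : ℤ) (x : ℝ), x + R ≤ a → f a b x = 0 := by
    intro a b x h1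
    refine Finset.sum_eq_zero fun k hk => ?_
    have : (a : ℝ) ≤ k := by exact_mod_cast (Finset.mem_Ico.mp hk).1
    rw [hR _ (le_abs.mpr (Or.inr (by linarith))), mul_zero]
  have left0 : ∀ (a b : ℤ) (x : ℝ), (b : ℝ) + R ≤ x → f a b x = 0 := by
    intro a b x h1
    refine Finset.sum_eq_zero fun k hk => ?_
    have : (k : ℝ) ≤ b := by exact_mod_cast (Finset.mem_Ico.mp hk).2.le
    rw [hR _ (le_abs.mpr (Or.inl (by linarith))), mul_zero]
  have shift : ∀ (N : ℤ) (x : ℝ), ‖f N (N + 2 * R) x‖ = ‖f 0 (2 * R) (x - N)‖ := by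
    intro N x
    have : f N (N + 2 * R) x = z ^ (-N) * f 0 (2 * R) (x - N) := by
      simp only [f]
      rw [Finset.mul_sum]
      refine Finset.sum_bij (fun k _ => k - N) ?_ ?_ ?_ ?_
      · intro k hk; rw [Finset.mem_Ico] at *; omega
      · intro i _ j _ h; omega
      · intro k hk; exact ⟨k + N, by rw [Finset.mem_Ico] at *; omega, by ring⟩
      · intro k _
        rw [← mul_assoc, ← zpow_add₀ hz]
        congr 2
        · ring
        · push_cast; ring
    rw [this, norm_mul, norm_zpow, norm_ee, one_zpow, one_mul]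
  have bound : ∀ N : ℤ, 2 * R ≤ N → ∀ x : ℝ,
      ‖f 0 N x‖ ^ 2 ≤ ‖f 0 (2 * R) x‖ ^ 2 + ‖f 0 (2 * R) (x - N)‖ ^ 2 := by
    intro N hN x
    rcases le_total x R with h1 | h1
    · rw [split 0 (2 * R) N x (by positivity) hN, right0 (2 * R) N x (by push_cast; linarith),
        add_zero]
      exact le_add_of_nonneg_right (by positivity)
    rcases le_total x (N + R) with h2 | h2
    · have h3 := full 0 (N + 2 * R) x (by push_cast; linarith) (by push_cast; linarith)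
      rw [split 0 N (N + 2 * R) x (le_trans (by positivity) hN) (by omega)] at h3
      rw [eq_neg_of_add_eq_zero_left h3, norm_neg, shift]
      exact le_add_of_nonneg_left (by positivity)
    · rw [left0 0 N x h2]
      simp only [norm_zero, ne_eq, OfNat.ofNat_ne_zero, not_false_eq_true, zero_pow]
      positivity
  have hint : ∀ a b : ℤ, Integrable fun x => ‖f a b x‖ ^ 2 := fun a b =>
    comb_integrable hφ hs _ _
  set I := ∫ x, ‖f 0 (2 * R) x‖ ^ 2
  obtain ⟨N0, hN0⟩ := exists_nat_gt (2 * I / A)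
  set N : ℕ := max N0 (2 * R)
  let c : ℤ →₀ ℂ := Finsupp.onFinset (Finset.Ico 0 N)
    (fun k => if k ∈ Finset.Ico (0 : ℤ) N then z ^ (-k) else 0)
    (fun k hk => by by_contra h; exact hk (if_neg h))
  have hc : ∀ k ∈ Finset.Ico (0 : ℤ) N, c k = z ^ (-k) := fun k hk => if_pos hk
  have hsupp : c.support = Finset.Ico (0 : ℤ) N := by
    ext k
    rw [Finsupp.mem_support_iff]
    constructor
    · intro hk; by_contra h; exact hk (if_neg h)
    · intro hk; rw [hc k hk]; exact zpow_ne_zero _ hz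
  have h1 := h c
  rw [hsupp, Finset.sum_congr rfl (g := fun _ => (1 : ℝ)) (fun k hk => by
    rw [hc k hk, norm_zpow, norm_ee, one_zpow, one_pow])] at h1
  have h2 : ∫ x : ℝ, ‖∑ k ∈ Finset.Ico (0 : ℤ) N, c k * φ (x - k)‖ ^ 2 = ∫ x, ‖f 0 N x‖ ^ 2 := by
    congr 1; funext x
    rw [Finset.sum_congr rfl (fun k hk => by rw [hc k hk])]
  have h3 : ∫ x, ‖f 0 N x‖ ^ 2 ≤ 2 * I := by
    have i2 := (hint 0 (2 * R)).comp_sub_right (N : ℝ)
    refine (integral_mono (hint 0 N) ((hint 0 (2 * R)).add i2)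
      (bound N (by exact_mod_cast le_max_right N0 (2 * R)))).trans ?_
    simp only [Pi.add_apply]
    rw [integral_add (hint 0 (2 * R)) i2,
      integral_sub_right_eq_self (fun x => ‖f 0 (2 * R) x‖ ^ 2) (N : ℝ)]
    linarith
  rw [h2] at h1
  simp only [Finset.sum_const, Int.card_Ico, sub_zero, Int.toNat_natCast, nsmul_eq_mul,
    mul_one] at h1
  have h4 : (N0 : ℝ) ≤ N := by exact_mod_cast le_max_left N0 (2 * R)
  rw [div_lt_iff₀ hA] at hN0
  nlinarith

end Pool.Agent.MP_057a77_an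

end
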